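import Mathlib.MeasureTheory.Covering.Besicovitch
import Mathlib.MeasureTheory.Measure.Hausdorff
import Mathlib.MeasureTheory.Measure.Lebesgue.EqHaar
import Mathlib.MeasureTheory.Measure.Haar.Unique
import Mathlib.MeasureTheory.Function.Jacobian
import Mathlib.Analysis.Calculus.Monotone
import Mathlib.Analysis.Calculus.FDeriv.Measurable

/-!
# Selection of rows and windows

Pure facts on functions of one real variable: record sets have positive measure, and in a set of
rows of positive measure there are pairs of rows whose distance is in a given set of positive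
density and whose window avoids a given null set.
-/

set_option autoImplicit false

namespace Pool.Sel51

open MeasureTheory Set Filter Topology
open scoped ENNReal NNReal

/-- A function with Lipschitz constant `L` on a set enlarges the measure at most by `L`. -/
theorem vol_image_le {f : ℝ → ℝ} {s : Set ℝ} {L : ℝ} (hL : 0 ≤ L)
    (h : ∀ x ∈ s, ∀ y ∈ s, x ≤ y → |f y - f x| ≤ L * (y - x)) :
    volume (f '' s) ≤ ENNReal.ofReal L * volume s := by
  have hl : LipschitzOnWith (Real.toNNReal L) f s := by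
    refine LipschitzOnWith.of_dist_le_mul fun x hx y hy => ?_
    rw [Real.coe_toNNReal L hL, Real.dist_eq, Real.dist_eq]
    rcases le_total x y with hxy | hxy
    · rw [abs_sub_comm, abs_sub_comm x y, abs_of_nonneg (a := y - x) (by linarith)]
      exact h x hx y hy hxy
    · rw [abs_of_nonneg (a := x - y) (by linarith)]
      exact h y hy x hx hxy
  have := hl.hausdorffMeasure_image_le (d := 1) zero_le_one
  rw [MeasureTheory.hausdorffMeasure_real, ENNReal.rpow_one] at this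
  exact this

/-- **(S1) Record sets.** If `g` grows at most with slope `L` and its value at `b` is larger than
its values on `[0, a]`, then the set of records in `(a, b)` has positive measure. -/
theorem rec_pos {g : ℝ → ℝ} {L a b e : ℝ} (hL : 0 < L) (h0a : 0 ≤ a) (hab : a < b)
    (hg : ContinuousOn g (Icc 0 b))
    (hlip : ∀ x y : ℝ, 0 ≤ x → x ≤ y → y ≤ b → g y - g x ≤ L * (y - x))
    (h0 : ∀ x : ℝ, 0 ≤ x → x ≤ a → g x + e ≤ g b) :
    ENNReal.ofReal (e / L) ≤
      volume {Q : ℝ | a < Q ∧ Q < b ∧ ∀ P : ℝ, 0 ≤ P → P ≤ Q → g P ≤ g Q} := by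
  obtain ⟨R, hR⟩ : ∃ R : Set ℝ, R = {Q : ℝ | a < Q ∧ Q ≤ b ∧ ∀ P : ℝ, 0 ≤ P → P ≤ Q →
    g P ≤ g Q} := ⟨_, rfl⟩
  have hsub : Ioc (g b - e) (g b) ⊆ g '' R := by
    intro y hy
    obtain ⟨A, hA⟩ : ∃ A : Set ℝ, A = {x : ℝ | x ∈ Icc 0 b ∧ y ≤ g x} := ⟨_, rfl⟩
    have hAc : IsClosed A := by
      have : A = Icc 0 b ∩ g ⁻¹' (Ici y) := by
        rw [hA]
        rfl
      rw [this]
      exact hg.preimage_isClosed_of_isClosed isClosed_Icc isClosed_Ici
    have hAne : A.Nonempty := ⟨b, by rw [hA]; exact ⟨⟨by linarith, le_rfl⟩, hy.2⟩⟩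
    have hAb : BddBelow A := ⟨0, fun x hx => by rw [hA] at hx; exact hx.1.1⟩
    obtain ⟨x₀, hx₀⟩ : ∃ x₀, x₀ = sInf A := ⟨_, rfl⟩
    have hmem : x₀ ∈ A := by
      rw [hx₀]
      exact hAc.csInf_mem hAne hAb
    have hlow : ∀ x : ℝ, 0 ≤ x → x < x₀ → g x < y := by
      intro x hx0 hx
      by_contra hcon
      push Not at hcon
      have hxA : x ∈ A := by
        rw [hA]
        rw [hA] at hmem
        exact ⟨⟨hx0, hx.le.trans hmem.1.2⟩, hcon⟩
      have := csInf_le hAb hxA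
      rw [← hx₀] at this
      linarith
    rw [hA] at hmem
    have hax : a < x₀ := by
      by_contra hcon
      push Not at hcon
      have h1 := h0 x₀ hmem.1.1 hcon
      have h2 := hy.1
      have h3 := hmem.2
      linarith
    have hval : g x₀ = y := by
      refine le_antisymm ?_ hmem.2
      by_contra hcon
      push Not at hcon
      -- the growth from the left is bounded
      obtain ⟨d, hd0, hd⟩ : ∃ d : ℝ, 0 < d ∧ L * d < g x₀ - y := by
        refine ⟨(g x₀ - y) / (2 * L), by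
          have : 0 < g x₀ - y := by linarith
          positivity, ?_⟩
        have hne : L ≠ 0 := hL.ne'
        have : L * ((g x₀ - y) / (2 * L)) = (g x₀ - y) / 2 := by
          field_simp
        rw [this]
        linarith
      obtain ⟨x, hx0, hxx, hxd⟩ : ∃ x : ℝ, 0 ≤ x ∧ x < x₀ ∧ x₀ - x ≤ d := by
        have hx0 : 0 < x₀ := lt_of_le_of_lt h0a hax
        refine ⟨max 0 (x₀ - d), le_max_left _ _, max_lt hx0 (by linarith), ?_⟩
        have := le_max_right 0 (x₀ - d)
        linarith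
      have h1 := hlip x x₀ hx0 hxx.le hmem.1.2
      have h2 := hlow x hx0 hxx
      have h3 : L * (x₀ - x) ≤ L * d := mul_le_mul_of_nonneg_left hxd hL.le
      linarith
    refine ⟨x₀, ?_, hval⟩
    rw [hR]
    refine ⟨hax, hmem.1.2, fun P hP0 hP => ?_⟩
    rcases hP.lt_or_eq with h1 | h1
    · have := hlow P hP0 h1
      linarith
    · rw [h1]
  have h1 : volume (g '' R) ≤ ENNReal.ofReal L * volume R := by
    refine vol_image_le hL.le ?_
    intro x hx y hy hxy
    rw [hR] at hx hy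
    have h2 : g x ≤ g y := hy.2.2 x (by linarith [hx.1]) hxy
    rw [abs_of_nonneg (by linarith)]
    exact hlip x y (by linarith [hx.1]) hxy hy.2.1
  have h2 : ENNReal.ofReal e ≤ ENNReal.ofReal L * volume R := by
    refine le_trans (le_trans ?_ (measure_mono hsub)) h1
    rw [Real.volume_Ioc]
    exact ENNReal.ofReal_le_ofReal (by linarith)
  have h3 : volume R = volume {Q : ℝ | a < Q ∧ Q < b ∧ ∀ P : ℝ, 0 ≤ P → P ≤ Q → g P ≤ g Q} := by
    refine le_antisymm ?_ (measure_mono ?_)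
    · have hs : R ⊆ {Q : ℝ | a < Q ∧ Q < b ∧ ∀ P : ℝ, 0 ≤ P → P ≤ Q → g P ≤ g Q} ∪ {b} := by
        intro x hx
        rw [hR] at hx
        rcases hx.2.1.lt_or_eq with h4 | h4
        · exact Or.inl ⟨hx.1, h4, hx.2.2⟩
        · exact Or.inr h4
      refine le_trans (measure_mono hs) (le_trans (measure_union_le _ _) ?_)
      simp
    · intro x hx
      rw [hR]
      exact ⟨hx.1, hx.2.1.le, hx.2.2⟩
  rw [← h3]
  rw [ENNReal.ofReal_div_of_pos hL]
  refine ENNReal.div_le_of_le_mul ?_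
  rwa [mul_comm]

/-- Positive outer measure gives a density point. -/
theorem dens_point {s : Set ℝ} (hs : volume s ≠ 0) : ∃ x ∈ s, Tendsto
    (fun r => volume (s ∩ Metric.closedBall x r) / volume (Metric.closedBall x r))
    (𝓝[>] 0) (𝓝 1) := by
  have h := Besicovitch.ae_tendsto_measure_inter_div (volume : Measure ℝ) s
  by_contra hcon
  push Not at hcon
  have h1 : volume.restrict s s = 0 := by
    refine measure_mono_null ?_ h
    intro x hx
    exact hcon x hx
  have h2 : volume s ≤ volume.restrict s s := by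
    have := Measure.le_restrict_apply (μ := (volume : Measure ℝ)) s s
    rwa [inter_self] at this
  rw [h1] at h2
  exact hs (le_antisymm h2 zero_le)

/-- Near a density point every measurable set of positive density on the left side is met. -/
theorem meet_left {s : Set ℝ} {x : ℝ} (hx : Tendsto
    (fun r => volume (s ∩ Metric.closedBall x r) / volume (Metric.closedBall x r))
    (𝓝[>] 0) (𝓝 1)) {Act : Set ℝ} (hA : MeasurableSet Act) {ρ₀ : ℝ} (hρ : 0 < ρ₀)
    (hd : ∃ x₀ > 0, ∀ y : ℝ, 0 < y → y ≤ x₀ → ENNReal.ofReal (ρ₀ * y) ≤ volume (Act ∩ Ioo 0 y))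
    {ε : ℝ} (hε : 0 < ε) : ∃ g ∈ s, g < x ∧ x - g < ε ∧ x - g ∈ Act := by
  obtain ⟨x₀, hx0, hd⟩ := hd
  obtain ⟨η, hη0, hη1, hη⟩ : ∃ η : ℝ, 0 < η ∧ η < 1 ∧ 4 * η ≤ ρ₀ :=
    ⟨min (1 / 2) (ρ₀ / 4), lt_min (by norm_num) (by linarith),
      lt_of_le_of_lt (min_le_left _ _) (by norm_num), by
        have := min_le_right (1 / 2) (ρ₀ / 4)
        linarith⟩
  have hev : ∀ᶠ r in 𝓝[>] (0 : ℝ), ENNReal.ofReal (1 - η) ≤
      volume (s ∩ Metric.closedBall x r) / volume (Metric.closedBall x r) := by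
    refine hx.eventually (Ici_mem_nhds ?_)
    rw [← ENNReal.ofReal_one]
    exact (ENNReal.ofReal_lt_ofReal_iff one_pos).2 (by linarith)
  have hsm : ∀ᶠ r in 𝓝[>] (0 : ℝ), r < min ε x₀ :=
    (eventually_lt_nhds (lt_min hε hx0)).filter_mono nhdsWithin_le_nhds
  have hps : ∀ᶠ r in 𝓝[>] (0 : ℝ), 0 < r := eventually_mem_nhdsWithin
  obtain ⟨r, ⟨h1, h2⟩, hr⟩ := ((hev.and hsm).and hps).exists
  have hrε : r < ε := lt_of_lt_of_le h2 (min_le_left _ _)
  have hrx : r ≤ x₀ := (lt_of_lt_of_le h2 (min_le_right _ _)).le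
  have hvol : volume (Metric.closedBall x r) = ENNReal.ofReal (2 * r) := by
    rw [Real.volume_closedBall]
  rw [hvol] at h1
  have hpos : ENNReal.ofReal (2 * r) ≠ 0 := by
    rw [Ne, ENNReal.ofReal_eq_zero]
    linarith
  have h3 : ENNReal.ofReal (1 - η) * ENNReal.ofReal (2 * r) ≤
      volume (s ∩ Metric.closedBall x r) := by
    exact (ENNReal.le_div_iff_mul_le (Or.inl hpos) (Or.inl ENNReal.ofReal_ne_top)).1 h1
  rw [← ENNReal.ofReal_mul (by linarith)] at h3
  obtain ⟨E, hE⟩ : ∃ E : Set ℝ, E = (fun g => x - g) ⁻¹' (Act ∩ Ioo 0 r) := ⟨_, rfl⟩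
  have hEm : MeasurableSet E := by
    rw [hE]
    exact (measurable_const.sub measurable_id) (hA.inter measurableSet_Ioo)
  have hEv : ENNReal.ofReal (ρ₀ * r) ≤ volume E := by
    rw [hE]
    have hmp : MeasurePreserving (fun g : ℝ => x - g) volume volume :=
      Measure.measurePreserving_sub_left volume x
    rw [hmp.measure_preimage (hA.inter measurableSet_Ioo).nullMeasurableSet]
    exact hd r hr hrx
  have hEs : E ⊆ Metric.closedBall x r := by
    intro g hg
    rw [hE] at hg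
    have h4 : x - g ∈ Ioo 0 r := hg.2
    rw [Metric.mem_closedBall, Real.dist_eq, abs_sub_comm, abs_of_pos h4.1]
    exact h4.2.le
  by_contra hcon
  push Not at hcon
  have hdis : s ∩ Metric.closedBall x r ⊆ Metric.closedBall x r \ E := by
    rintro g ⟨hg, hb⟩
    refine ⟨hb, fun hgE => ?_⟩
    rw [hE] at hgE
    have h4 : x - g ∈ Ioo 0 r := hgE.2
    exact hcon g hg (by linarith [h4.1]) (by linarith [h4.2]) hgE.1
  have h5 : volume (s ∩ Metric.closedBall x r) ≤ ENNReal.ofReal (2 * r) -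
      ENNReal.ofReal (ρ₀ * r) := by
    refine (measure_mono hdis).trans ?_
    rw [measure_sdiff hEs hEm.nullMeasurableSet (ne_top_of_le_ne_top
      (by rw [hvol]; exact ENNReal.ofReal_ne_top) (measure_mono hEs)), hvol]
    exact tsub_le_tsub_left hEv _
  have h6 := h3.trans h5
  rw [← ENNReal.ofReal_sub _ (by positivity)] at h6
  have h7 : ENNReal.ofReal (2 * r - ρ₀ * r) < ENNReal.ofReal ((1 - η) * (2 * r)) := by
    refine (ENNReal.ofReal_lt_ofReal_iff (by nlinarith)).2 ?_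
    nlinarith
  exact absurd h6 (not_le.2 h7)

/-- A function whose lower left derivative is at least `1 / C` on `K` pulls null sets back to null
sets on `K`. -/
theorem null_pre {K : Set ℝ} {W : ℝ → ℝ} {C : ℝ} (hC : 0 < C)
    (hl : ∀ P ∈ K, ∃ y₀ > 0, ∀ g ∈ K, P - y₀ < g → g < P → (P - g) / C ≤ W P - W g)
    {N : Set ℝ} (hN : volume N = 0) : volume (K ∩ W ⁻¹' N) = 0 := by
  choose! y hy0 hy using hl
  obtain ⟨M, hM⟩ : ∃ M : ℕ × ℤ → Set ℝ, M = fun n => {P : ℝ | P ∈ K ∧ W P ∈ N ∧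
      1 / ((n.1 : ℝ) + 1) ≤ y P ∧ (n.2 : ℝ) / (2 * ((n.1 : ℝ) + 1)) ≤ P ∧
      P < ((n.2 : ℝ) + 1) / (2 * ((n.1 : ℝ) + 1))} := ⟨_, rfl⟩
  have hcov : K ∩ W ⁻¹' N ⊆ ⋃ n, M n := by
    rintro P ⟨hP, hPN⟩
    obtain ⟨n, hn⟩ := exists_nat_one_div_lt (hy0 P hP)
    rw [mem_iUnion]
    refine ⟨(n, ⌊P * (2 * ((n : ℝ) + 1))⌋), ?_⟩
    have hp : (0 : ℝ) < 2 * ((n : ℝ) + 1) := by positivity
    rw [hM]
    refine ⟨hP, hPN, hn.le, ?_, ?_⟩
    · rw [div_le_iff₀ hp]
      exact Int.floor_le _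
    · rw [lt_div_iff₀ hp]
      exact Int.lt_floor_add_one _
  refine measure_mono_null hcov (measure_iUnion_null fun n => ?_)
  -- on one piece the inverse is Lipschitz
  have hanti : ∀ g ∈ M n, ∀ P ∈ M n, g < P → (P - g) / C ≤ W P - W g := by
    intro g hg P hP hlt
    rw [hM] at hg hP
    obtain ⟨g1, -, -, g2, g3⟩ := hg
    obtain ⟨p1, -, p4, p2, p3⟩ := hP
    have hp : (0 : ℝ) < (n.1 : ℝ) + 1 := by positivity
    have hd : P - g < 1 / ((n.1 : ℝ) + 1) := by
      have h1 : ((n.2 : ℝ) + 1) / (2 * ((n.1 : ℝ) + 1)) - (n.2 : ℝ) / (2 * ((n.1 : ℝ) + 1)) =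
          (1 / 2) * (1 / ((n.1 : ℝ) + 1)) := by
        field_simp
        ring
      have h2 : (0 : ℝ) < 1 / ((n.1 : ℝ) + 1) := by positivity
      linarith
    exact hy P p1 g g1 (by linarith) hlt
  have hinj : InjOn W (M n) := by
    intro g hg P hP he
    rcases lt_trichotomy g P with h | h | h
    · have h1 := hanti g hg P hP h
      have h2 : 0 < (P - g) / C := div_pos (by linarith) hC
      rw [he] at h1
      linarith
    · exact h
    · have h1 := hanti P hP g hg h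
      have h2 : 0 < (g - P) / C := div_pos (by linarith) hC
      rw [he] at h1
      linarith
  obtain ⟨V, hV⟩ : ∃ V : ℝ → ℝ, ∀ P ∈ M n, V (W P) = P :=
    ⟨Function.invFunOn W (M n), fun P hP => hinj.leftInvOn_invFunOn hP⟩
  have himg : M n = V '' (W '' M n) := by
    ext P
    constructor
    · intro hP
      exact ⟨W P, ⟨P, hP, rfl⟩, hV P hP⟩
    · rintro ⟨_, ⟨g, hg, rfl⟩, rfl⟩
      rw [hV g hg]
      exact hg
  have hle : volume (V '' (W '' M n)) ≤ ENNReal.ofReal C * volume (W '' M n) := by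
    refine vol_image_le hC.le ?_
    rintro _ ⟨g, hg, rfl⟩ _ ⟨P, hP, rfl⟩ hgP
    rw [hV g hg, hV P hP]
    rcases lt_trichotomy g P with h | h | h
    · have h1 := hanti g hg P hP h
      rw [abs_of_pos (by linarith)]
      rw [div_le_iff₀ hC] at h1
      linarith
    · rw [h]
      simp
    · have h1 := hanti P hP g hg h
      have h2 : 0 < (g - P) / C := div_pos (by linarith) hC
      linarith
  have hz : volume (W '' M n) = 0 := by
    refine measure_mono_null ?_ hN
    rintro _ ⟨g, hg, rfl⟩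
    rw [hM] at hg
    exact hg.2.1
  rw [himg]
  refine le_antisymm (hle.trans ?_) zero_le
  rw [hz, mul_zero]

/-- **(S2) Selection.** In a set `K` of rows of positive outer measure, on which the window has
positive lower left derivatives, there is a row `P` such that arbitrarily close to it on the left
there are rows `g ∈ K` whose distance to `P` is in `Act` and whose window is not in the null set
`N`. -/
theorem sel {K : Set ℝ} (hK : volume K ≠ 0) {W : ℝ → ℝ} {C : ℝ} (hC : 0 < C)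
    (hl : ∀ P ∈ K, ∃ y₀ > 0, ∀ g ∈ K, P - y₀ < g → g < P → (P - g) / C ≤ W P - W g)
    {Act : Set ℝ} (hA : MeasurableSet Act) {ρ₀ : ℝ} (hρ : 0 < ρ₀)
    (hd : ∃ x₀ > 0, ∀ y : ℝ, 0 < y → y ≤ x₀ → ENNReal.ofReal (ρ₀ * y) ≤ volume (Act ∩ Ioo 0 y))
    {N N' : Set ℝ} (hN : volume N = 0) (hN' : volume N' = 0) :
    ∃ P ∈ K, P ∉ N' ∧ W P ∉ N ∧ ∀ ε : ℝ, 0 < ε →
      ∃ g ∈ K, g ∉ N' ∧ W g ∉ N ∧ g < P ∧ P - g < ε ∧ P - g ∈ Act := by
  have hs : volume (K \ ((K ∩ W ⁻¹' N) ∪ N')) ≠ 0 := by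
    have h0 : volume ((K ∩ W ⁻¹' N) ∪ N') = 0 :=
      measure_union_null (null_pre hC hl hN) hN'
    rw [measure_sdiff_null h0]
    exact hK
  obtain ⟨P, hP, hden⟩ := dens_point hs
  have hm : ∀ g : ℝ, g ∈ K \ ((K ∩ W ⁻¹' N) ∪ N') → g ∈ K ∧ g ∉ N' ∧ W g ∉ N := by
    rintro g ⟨h1, h2⟩
    refine ⟨h1, fun h => h2 (Or.inr h), fun h => h2 (Or.inl ⟨h1, h⟩)⟩
  obtain ⟨p1, p2, p3⟩ := hm P hP
  refine ⟨P, p1, p2, p3, fun ε hε => ?_⟩
  obtain ⟨g, hg, h1, h2, h3⟩ := meet_left hden hA hρ hd hε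
  obtain ⟨q1, q2, q3⟩ := hm g hg
  exact ⟨g, q1, q2, q3, h1, h2, h3⟩

/-! ### Slopes -/

/-- The function `f` on the rationals has the value `v` and the slope `s` at `x`. -/
def Slp (f : ℚ → ℝ) (x v s : ℝ) : Prop :=
  ∀ ε : ℝ, 0 < ε → ∃ δ : ℝ, 0 < δ ∧ ∀ q : ℚ, |(q : ℝ) - x| < δ →
    |f q - v - s * (q - x)| ≤ ε * |(q : ℝ) - x|

/-- The extension of a function on the rationals of `[0, 1]` by suprema. -/
noncomputable def xt (f : ℚ → ℝ) (x : ℝ) : ℝ :=
  sSup {y : ℝ | ∃ q : ℚ, 0 ≤ q ∧ q ≤ 1 ∧ (q : ℝ) ≤ max x 0 ∧ y = f q}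

variable {f : ℚ → ℝ}

theorem xt_bdd (hf : ∀ q q' : ℚ, 0 ≤ q → q ≤ q' → q' ≤ 1 → f q ≤ f q') (x : ℝ) :
    BddAbove {y : ℝ | ∃ q : ℚ, 0 ≤ q ∧ q ≤ 1 ∧ (q : ℝ) ≤ max x 0 ∧ y = f q} :=
  ⟨f 1, by
    rintro y ⟨q, h0, h1, -, rfl⟩
    exact hf q 1 h0 h1 le_rfl⟩

theorem xt_ne (x : ℝ) :
    {y : ℝ | ∃ q : ℚ, 0 ≤ q ∧ q ≤ 1 ∧ (q : ℝ) ≤ max x 0 ∧ y = f q}.Nonempty :=
  ⟨f 0, 0, le_rfl, zero_le_one, by simp, rfl⟩

theorem xt_mono (hf : ∀ q q' : ℚ, 0 ≤ q → q ≤ q' → q' ≤ 1 → f q ≤ f q') : Monotone (xt f) := by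
  intro x y hxy
  refine csSup_le_csSup (xt_bdd hf y) (xt_ne x) ?_
  rintro z ⟨q, h0, h1, h2, rfl⟩
  exact ⟨q, h0, h1, h2.trans (max_le_max hxy le_rfl), rfl⟩

theorem xt_rat (hf : ∀ q q' : ℚ, 0 ≤ q → q ≤ q' → q' ≤ 1 → f q ≤ f q') {q : ℚ} (h0 : 0 ≤ q)
    (h1 : q ≤ 1) : xt f q = f q := by
  have hq : (0 : ℝ) ≤ q := by exact_mod_cast h0
  refine le_antisymm (csSup_le (xt_ne _) ?_) ?_
  · rintro z ⟨p, h2, h3, h4, rfl⟩
    rw [max_eq_left hq] at h4
    exact hf p q h2 (by exact_mod_cast h4) h1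
  · exact le_csSup (xt_bdd hf _) ⟨q, h0, h1, le_max_left _ _, rfl⟩

/-- **(S3) Slopes.** A monotone function on the rationals of `[0, 1]` has a value and a slope at
all points of `(0, 1)` outside a null set. -/
theorem slp_ae (hf : ∀ q q' : ℚ, 0 ≤ q → q ≤ q' → q' ≤ 1 → f q ≤ f q') : ∃ N : Set ℝ,
    volume N = 0 ∧ ∀ x : ℝ, 0 < x → x < 1 → x ∉ N → ∃ v s : ℝ, 0 ≤ s ∧ Slp f x v s := by
  have h := (xt_mono hf).ae_differentiableAt
  refine ⟨{x | ¬ DifferentiableAt ℝ (xt f) x}, h, fun x hx0 hx1 hx => ?_⟩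
  rw [mem_ofPred_eq, not_not] at hx
  have hd := hx.hasDerivAt
  refine ⟨xt f x, deriv (xt f) x, (xt_mono hf).deriv_nonneg, ?_⟩
  intro ε hε
  have h1 := (hasDerivAt_iff_isLittleO.1 hd).def hε
  obtain ⟨δ, hδ, h2⟩ := Metric.eventually_nhds_iff.1 h1
  refine ⟨min δ (min x (1 - x)), lt_min hδ (lt_min hx0 (by linarith)), fun q hq => ?_⟩
  have hq1 : |(q : ℝ) - x| < δ := lt_of_lt_of_le hq (min_le_left _ _)
  have hq2 : |(q : ℝ) - x| < x :=
    lt_of_lt_of_le hq ((min_le_right _ _).trans (min_le_left _ _))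
  have hq3 : |(q : ℝ) - x| < 1 - x :=
    lt_of_lt_of_le hq ((min_le_right _ _).trans (min_le_right _ _))
  rw [abs_lt] at hq2 hq3
  have hq0 : (0 : ℝ) ≤ q := by linarith
  have hq1' : (q : ℝ) ≤ 1 := by linarith
  have h3 := h2 (y := (q : ℝ)) (by rw [Real.dist_eq]; exact hq1)
  rw [xt_rat hf (by exact_mod_cast hq0) (by exact_mod_cast hq1')] at h3
  rw [Real.norm_eq_abs, Real.norm_eq_abs, smul_eq_mul] at h3
  rw [mul_comm (deriv (xt f) x)]
  exact h3

/-- The value and the slope are unique. -/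
theorem Slp.unique {x v s v' s' : ℝ} (h : Slp f x v s) (h' : Slp f x v' s') :
    v = v' ∧ s = s' := by
  have hv : v = v' := by
    by_contra hne
    have hpos : 0 < |v - v'| := abs_pos.2 (sub_ne_zero.2 hne)
    obtain ⟨δ, hδ, h1⟩ := h 1 one_pos
    obtain ⟨δ', hδ', h2⟩ := h' 1 one_pos
    obtain ⟨r, hr0, hr⟩ : ∃ r : ℝ, 0 < r ∧ r ≤ δ ∧ r ≤ δ' ∧ (2 + |s| + |s'|) * r < |v - v'| := by
      refine ⟨min (min δ δ') (|v - v'| / (2 * (2 + |s| + |s'|))), ?_, ?_, ?_, ?_⟩
      · exact lt_min (lt_min hδ hδ') (by positivity)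
      · exact (min_le_left _ _).trans (min_le_left _ _)
      · exact (min_le_left _ _).trans (min_le_right _ _)
      · have h3 := min_le_right (min δ δ') (|v - v'| / (2 * (2 + |s| + |s'|)))
        have h4 : (0 : ℝ) < 2 + |s| + |s'| := by positivity
        calc _ ≤ (2 + |s| + |s'|) * (|v - v'| / (2 * (2 + |s| + |s'|))) :=
              mul_le_mul_of_nonneg_left h3 h4.le
          _ = |v - v'| / 2 := by field_simp
          _ < |v - v'| := by linarith
    obtain ⟨q, hq1, hq2⟩ := exists_rat_btwn (show x < x + r by linarith)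
    have hq : |(q : ℝ) - x| < r := by
      rw [abs_of_pos (by linarith)]
      linarith
    have e1 := h1 q (lt_of_lt_of_le hq hr.1)
    have e2 := h2 q (lt_of_lt_of_le hq hr.2.1)
    have e3 : |v - v'| ≤ |f q - v - s * (q - x)| + |f q - v' - s' * (q - x)| +
        (|s| + |s'|) * |(q : ℝ) - x| := by
      have e4 : v - v' = -(f q - v - s * (q - x)) + (f q - v' - s' * (q - x)) +
          (-(s * (q - x)) + s' * (q - x)) := by ring
      rw [e4]
      refine (abs_add_le _ _).trans (add_le_add ((abs_add_le _ _).trans ?_) ?_)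
      · rw [abs_neg]
      · refine (abs_add_le _ _).trans ?_
        rw [abs_neg, abs_mul, abs_mul, add_mul]
    have e5 : (|s| + |s'|) * |(q : ℝ) - x| ≤ (|s| + |s'|) * r :=
      mul_le_mul_of_nonneg_left hq.le (by positivity)
    nlinarith [hr.2.2, abs_nonneg ((q : ℝ) - x)]
  refine ⟨hv, ?_⟩
  subst hv
  by_contra hne
  have hpos : 0 < |s - s'| := abs_pos.2 (sub_ne_zero.2 hne)
  obtain ⟨δ, hδ, h1⟩ := h (|s - s'| / 4) (by positivity)
  obtain ⟨δ', hδ', h2⟩ := h' (|s - s'| / 4) (by positivity)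
  obtain ⟨q, hq1, hq2⟩ := exists_rat_btwn (show x < x + min δ δ' by
    have := lt_min hδ hδ'
    linarith)
  have hq : |(q : ℝ) - x| < min δ δ' := by
    rw [abs_of_pos (by linarith)]
    linarith
  have e1 := h1 q (lt_of_lt_of_le hq (min_le_left _ _))
  have e2 := h2 q (lt_of_lt_of_le hq (min_le_right _ _))
  have hqx : 0 < |(q : ℝ) - x| := abs_pos.2 (by linarith)
  have e3 : |s - s'| * |(q : ℝ) - x| ≤ |f q - v - s * (q - x)| + |f q - v - s' * (q - x)| := by
    rw [← abs_mul]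
    have e4 : (s - s') * ((q : ℝ) - x) = -(f q - v - s * (q - x)) + (f q - v - s' * (q - x)) := by
      ring
    rw [e4]
    refine (abs_add_le _ _).trans ?_
    rw [abs_neg]
  nlinarith

/-- **(S4) Density of the increase.** The set of points at which a function which grows at most
with slope one has a positive slope has density at least the mean slope. -/
theorem act_dens (hf : ∀ q q' : ℚ, 0 ≤ q → q ≤ q' → q' ≤ 1 → f q ≤ f q')
    (hl : ∀ q q' : ℚ, 0 ≤ q → q ≤ q' → q' ≤ 1 → f q' - f q ≤ q' - q) :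
    ∃ A : Set ℝ, MeasurableSet A ∧ (∀ x ∈ A, 0 < x ∧ x < 1 ∧ ∃ v s : ℝ, 0 < s ∧ Slp f x v s) ∧
      ∀ q : ℚ, 0 < q → q ≤ 1 → ENNReal.ofReal (f q - f 0) ≤ volume (A ∩ Ioo 0 (q : ℝ)) := by
  obtain ⟨F, hF⟩ : ∃ F, F = xt f := ⟨_, rfl⟩
  have hmono : Monotone F := by rw [hF]; exact xt_mono hf
  have hrat : ∀ q : ℚ, 0 ≤ q → q ≤ 1 → F q = f q := by
    intro q h0 h1
    rw [hF]
    exact xt_rat hf h0 h1
  -- the extension grows at most with slope one
  have hlip : ∀ x y : ℝ, 0 ≤ x → x ≤ y → y ≤ 1 → F y - F x ≤ y - x := by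
    intro x y hx0 hxy hy1
    rcases hxy.lt_or_eq with hlt | heq
    · refine le_of_forall_pos_le_add fun ε hε => ?_
      -- a rational below `x` or equal to zero, a rational above `y` or equal to one
      obtain ⟨p, hp0, hp1, hpx⟩ : ∃ p : ℚ, 0 ≤ p ∧ (p : ℝ) ≤ x ∧ x - p ≤ ε / 2 := by
        rcases hx0.lt_or_eq with h | h
        · obtain ⟨p, h1, h2⟩ := exists_rat_btwn (show max 0 (x - ε / 2) < x from
            max_lt h (by linarith))
          refine ⟨p, ?_, h2.le, ?_⟩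
          · have := (le_max_left 0 (x - ε / 2)).trans h1.le
            exact_mod_cast this
          · have := (le_max_right 0 (x - ε / 2)).trans h1.le
            linarith
        · exact ⟨0, le_rfl, by simp [← h], by rw [← h]; simp; linarith⟩
      obtain ⟨r, hr0, hr1, hry⟩ : ∃ r : ℚ, r ≤ 1 ∧ y ≤ (r : ℝ) ∧ (r : ℝ) - y ≤ ε / 2 := by
        rcases hy1.lt_or_eq with h | h
        · obtain ⟨r, h1, h2⟩ := exists_rat_btwn (show y < min 1 (y + ε / 2) from
            lt_min h (by linarith))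
          refine ⟨r, ?_, h1.le, ?_⟩
          · have := h2.le.trans (min_le_left _ _)
            exact_mod_cast this
          · have := h2.le.trans (min_le_right _ _)
            linarith
        · exact ⟨1, le_rfl, by simp [h], by rw [h]; simp; linarith⟩
      have hpr : p ≤ r := by
        have : (p : ℝ) ≤ r := by linarith
        exact_mod_cast this
      have e1 := hl p r hp0 hpr hr0
      have e2 := hmono hp1
      have e3 := hmono hr1
      rw [hrat p hp0 (hpr.trans hr0)] at e2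
      rw [hrat r (hp0.trans hpr) hr0] at e3
      linarith
    · rw [heq]
      simp
  have habs : ∀ s : Set ℝ, s ⊆ Icc 0 1 → volume (F '' s) ≤ volume s := by
    intro s hs
    have := vol_image_le (f := F) (s := s) zero_le_one (fun x hx y hy hxy => by
      rw [abs_of_nonneg (by linarith [hmono hxy]), one_mul]
      exact hlip x y (hs hx).1 hxy (hs hy).2)
    rwa [ENNReal.ofReal_one, one_mul] at this
  obtain ⟨A, hA⟩ : ∃ A : Set ℝ, A = {x | DifferentiableAt ℝ F x} ∩ {x | 0 < deriv F x} ∩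
    Ioo 0 1 := ⟨_, rfl⟩
  have hAm : MeasurableSet A := by
    rw [hA]
    exact ((measurableSet_of_differentiableAt ℝ F).inter
      (measurableSet_lt measurable_const (measurable_deriv F))).inter measurableSet_Ioo
  refine ⟨A, hAm, ?_, ?_⟩
  · intro x hx
    rw [hA] at hx
    obtain ⟨⟨h1, h2⟩, h3⟩ := hx
    refine ⟨h3.1, h3.2, F x, deriv F x, h2, ?_⟩
    intro ε hε
    have hd : HasDerivAt F (deriv F x) x := DifferentiableAt.hasDerivAt h1
    have h4 := (hasDerivAt_iff_isLittleO.1 hd).def hε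
    obtain ⟨δ, hδ, h5⟩ := Metric.eventually_nhds_iff.1 h4
    refine ⟨min δ (min x (1 - x)), lt_min hδ (lt_min h3.1 (by linarith [h3.2])), fun q hq => ?_⟩
    have hq1 : |(q : ℝ) - x| < δ := lt_of_lt_of_le hq (min_le_left _ _)
    have hq2 : |(q : ℝ) - x| < x :=
      lt_of_lt_of_le hq ((min_le_right _ _).trans (min_le_left _ _))
    have hq3 : |(q : ℝ) - x| < 1 - x :=
      lt_of_lt_of_le hq ((min_le_right _ _).trans (min_le_right _ _))
    rw [abs_lt] at hq2 hq3
    have hq0 : (0 : ℝ) ≤ q := by linarith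
    have hq1' : (q : ℝ) ≤ 1 := by linarith
    have h6 := h5 (y := (q : ℝ)) (by rw [Real.dist_eq]; exact hq1)
    rw [hrat q (by exact_mod_cast hq0) (by exact_mod_cast hq1')] at h6
    rw [Real.norm_eq_abs, Real.norm_eq_abs, smul_eq_mul] at h6
    rw [mul_comm (deriv F x)]
    exact h6
  · intro q hq0 hq1
    have hq0' : (0 : ℝ) < q := by exact_mod_cast hq0
    have hq1' : (q : ℝ) ≤ 1 := by exact_mod_cast hq1
    have hcont : ContinuousOn F (Icc 0 (q : ℝ)) := by
      have hlw : LipschitzOnWith 1 F (Icc 0 (q : ℝ)) := by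
        refine LipschitzOnWith.of_dist_le_mul fun x hx y hy => ?_
        rw [NNReal.coe_one, one_mul, Real.dist_eq, Real.dist_eq]
        rcases le_total x y with hxy | hxy
        · rw [abs_sub_comm, abs_sub_comm x y, abs_of_nonneg (a := y - x) (by linarith),
            abs_of_nonneg (by linarith [hmono hxy])]
          exact hlip x y hx.1 hxy (hy.2.trans hq1')
        · rw [abs_of_nonneg (a := x - y) (by linarith), abs_of_nonneg (by linarith [hmono hxy])]
          exact hlip y x hy.1 hxy (hx.2.trans hq1')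
      exact hlw.continuousOn
    have hF0 : F 0 = f 0 := by
      have := hrat 0 le_rfl zero_le_one
      simpa using this
    have hFq : F q = f q := hrat q hq0.le hq1
    have hsub : Ioo (f 0) (f q) ⊆ F '' (A ∩ Ioo 0 (q : ℝ)) ∪
        (F '' ({x | DifferentiableAt ℝ F x ∧ deriv F x = 0} ∩ Icc 0 1) ∪
          F '' ({x | ¬ DifferentiableAt ℝ F x} ∩ Icc 0 1)) := by
      intro y hy
      have hy' : y ∈ Icc (F 0) (F q) := by
        rw [hF0, hFq]
        exact ⟨hy.1.le, hy.2.le⟩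
      obtain ⟨x, hx, hxy⟩ := intermediate_value_Icc hq0'.le hcont hy'
      have hx0 : 0 < x := by
        rcases hx.1.lt_or_eq with h | h
        · exact h
        · rw [← h, hF0] at hxy
          exact absurd hxy (ne_of_lt hy.1)
      have hxq : x < q := by
        rcases hx.2.lt_or_eq with h | h
        · exact h
        · rw [h, hFq] at hxy
          exact absurd hxy.symm (ne_of_lt hy.2)
      by_cases hd : DifferentiableAt ℝ F x
      · rcases (hmono.deriv_nonneg (x := x)).lt_or_eq with hs | hs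
        · refine Or.inl ⟨x, ⟨?_, hx0, hxq⟩, hxy⟩
          rw [hA]
          exact ⟨⟨hd, hs⟩, hx0, lt_of_lt_of_le hxq hq1'⟩
        · exact Or.inr (Or.inl ⟨x, ⟨⟨hd, hs.symm⟩, hx0.le, hxq.le.trans hq1'⟩, hxy⟩)
      · exact Or.inr (Or.inr ⟨x, ⟨hd, hx0.le, hxq.le.trans hq1'⟩, hxy⟩)
    have hZ : volume (F '' ({x | DifferentiableAt ℝ F x ∧ deriv F x = 0} ∩ Icc 0 1)) = 0 := by
      refine addHaar_image_eq_zero_of_det_fderivWithin_eq_zero volume
        (f' := fun _ => ContinuousLinearMap.toSpanSingleton ℝ (0 : ℝ)) ?_ ?_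
      · rintro x ⟨⟨h1, h2⟩, -⟩
        have h3 : HasDerivAt F 0 x := by
          rw [← h2]
          exact h1.hasDerivAt
        exact h3.hasFDerivAt.hasFDerivWithinAt
      · intro x _
        exact ContinuousLinearMap.det_toSpanSingleton 0
    have hN : volume (F '' ({x | ¬ DifferentiableAt ℝ F x} ∩ Icc 0 1)) = 0 := by
      refine le_antisymm ((habs _ inter_subset_right).trans ?_) zero_le
      have : volume {x | ¬ DifferentiableAt ℝ F x} = 0 := hmono.ae_differentiableAt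
      rw [← this]
      exact measure_mono inter_subset_left
    calc ENNReal.ofReal (f q - f 0) = volume (Ioo (f 0) (f q)) := by rw [Real.volume_Ioo]
      _ ≤ _ := measure_mono hsub
      _ ≤ _ := measure_union_le _ _
      _ ≤ volume (F '' (A ∩ Ioo 0 (q : ℝ))) + 0 := by
          gcongr
          refine (measure_union_le _ _).trans ?_
          rw [hZ, hN, add_zero]
      _ = volume (F '' (A ∩ Ioo 0 (q : ℝ))) := add_zero _
      _ ≤ _ := habs _ (by
          rintro x ⟨-, h1, h2⟩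
          exact ⟨h1.le, h2.le.trans hq1'⟩)

end Pool.Sel51
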