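import Pool.Agent.H80.S6C.Cls
import Pool.Agent.H51.S6.Sel

/-!
# The engine of S6: the local data, and the statements of the five cases

`K` is a set of Pliss rows of positive measure, `W Q` the critical window of the row `Q`. Labels
are visible at the top row `Q₀`. At the window `w₀ = W g` the direction number `rot` has the slope
`v` and the thickness `th` has the value `g` and the slope `1 + ρ`; the row `P > g` is not full and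
the place `P - g` of the velocity is active.
-/

set_option autoImplicit false

namespace Pool.S6C

open Finset Real
open Pool.Agent.H49.Ent Pool.Agent.H32.Dense Pool.STK Pool.KA Pool.KSAT Pool.K2S Pool.PB Pool.KS6
  Pool.Sel51

/-- **Activity numbers**: `act q` is the rate of the entropy of `q` digits of the velocity, given
the exact point. -/
def ActN (S : PCl 3) (i₀ : Fin 3) (act : ℚ → ℝ) : Prop :=
  ∀ q : ℚ, 0 ≤ q → q ≤ 1 → ∀ h : ℝ, 0 < h → Clp S (fun J F A =>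
    |CH (Pool.Agent.H49.Ent.cond F.p A True) (fun ω => F.D ⌊(q : ℝ) * J⌋₊ ω i₀) (Fam.pt F) -
      act q * Real.log 2 * J| ≤ h * J)

theorem ActN.le {S S' : PCl 3} {i₀ : Fin 3} {act : ℚ → ℝ} (h : S'.Le S) (hA : ActN S i₀ act) :
    ActN S' i₀ act := fun q h0 h1 e he => (hA q h0 h1 e he).le h

/-- The set `K` has full outer density at `x`. -/
def Dns (K : Set ℝ) (x : ℝ) : Prop :=
  ∀ η : ℝ, 0 < η → ∃ δ : ℝ, 0 < δ ∧ ∀ s t : ℝ, x - δ < s → s < t → t < x + δ →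
    η * max |s - x| |t - x| ≤ t - s → ∃ y ∈ K, s < y ∧ y < t

/-- **(TS)** Planks on smaller windows are thicker: the slope of the thickness is at least one. -/
def THSStmt : Prop :=
  ∀ (S : PCl 3) (a R h₁ : ℝ) (i₀ : Fin 3) (c s₂ : ℝ) (r : ℝ → ℝ) (D : Set ℝ) (σ : ℝ → Row),
    Cs S a R h₁ i₀ c s₂ r D σ → ∀ Q : ℝ, 0 < Q → Q ≤ 1 → Q ∉ D → ∀ w w' : ℚ, 0 ≤ w → w ≤ w' →
    (w' : ℝ) ≤ Q → min Q ((σ Q).th w + ((w' : ℝ) - w)) ≤ (σ Q).th w' ∧ (w' : ℝ) ≤ (σ Q).th w' ∧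
      (σ Q).th w ≤ (σ Q).th w'

/-- **(RQ)** The numbers are monotone in the row; the directions at the points of a row are the
directions at exact points, as long as the fans are straight. -/
def RQStmt : Prop :=
  ∀ (S : PCl 3) (a R h₁ : ℝ) (i₀ : Fin 3) (c s₂ : ℝ) (r : ℝ → ℝ) (D : Set ℝ) (σ : ℝ → Row),
    Cs S a R h₁ i₀ c s₂ r D σ → ∀ Q Q' : ℝ, 0 < Q → Q ≤ Q' → Q' ≤ 1 → Q ∉ D → Q' ∉ D →
    (σ Q).pi ≤ (σ Q').pi ∧ ∀ w : ℚ, 0 ≤ w → w ≤ 1 →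
      (σ Q).rot w ≤ (σ Q').rot w ∧ (σ Q).th w ≤ (σ Q').th w ∧
      min ((σ 1).rot w) (σ Q).pi ≤ (σ Q).rot w

/-- **(RW)** The directions are monotone in the window. -/
def RWStmt : Prop :=
  ∀ (S : PCl 3) (a R h₁ : ℝ) (i₀ : Fin 3) (c s₂ : ℝ) (r : ℝ → ℝ) (D : Set ℝ) (σ : ℝ → Row),
    Cs S a R h₁ i₀ c s₂ r D σ → ∀ Q : ℝ, 0 < Q → Q ≤ 1 → Q ∉ D → ∀ w w' : ℚ, 0 ≤ w → w ≤ w' →
    w' ≤ 1 → (σ Q).rot w ≤ (σ Q).rot w'

/-- **(ACT)** The activity numbers exist in a subclass; they are monotone, grow at most with slope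
one, and are at least linear. -/
def ACTStmt : Prop :=
  ∀ (S : PCl 3) (a R h₁ : ℝ) (i₀ : Fin 3) (c s₂ : ℝ) (r : ℝ → ℝ) (D : Set ℝ) (σ : ℝ → Row),
    Cs S a R h₁ i₀ c s₂ r D σ → ∃ (S' : PCl 3) (act : ℚ → ℝ) (κ : ℝ), SubC S' S ∧
      ActN S' i₀ act ∧ act 0 = 0 ∧ (∀ q q' : ℚ, 0 ≤ q → q ≤ q' → q' ≤ 1 → act q ≤ act q') ∧
      (∀ q q' : ℚ, 0 ≤ q → q ≤ q' → q' ≤ 1 → act q' - act q ≤ q' - q) ∧ 0 < κ ∧
      ∃ q₀ : ℚ, 0 < q₀ ∧ q₀ ≤ 1 ∧ ∀ q : ℚ, 0 ≤ q → q ≤ q₀ → κ * q ≤ act q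

/-- **(LEMMA C)** At almost all rows of a set of Pliss rows the critical window has a positive
lower left derivative. -/
def LEMCStmt : Prop :=
  ∀ (S : PCl 3) (a R h₁ : ℝ) (i₀ : Fin 3) (c s₂ : ℝ) (r : ℝ → ℝ) (D : Set ℝ) (σ : ℝ → Row),
    Cs S a R h₁ i₀ c s₂ r D σ → ∀ (K : Set ℝ) (W : ℝ → ℝ),
    (∀ Q ∈ K, PR c r D σ Q (W Q)) → ∃ N : Set ℝ, MeasureTheory.volume N = 0 ∧
      ∀ g ∈ K, g ∉ N → ∃ C y₀ : ℝ, 0 < C ∧ 0 < y₀ ∧ ∀ g' ∈ K, g - y₀ < g' → g' < g →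
        (g - g') / C ≤ W g - W g'

/-- **The local data.** -/
structure Loc (S : PCl 3) (i₀ : Fin 3) (c s₂ : ℝ) (r : ℝ → ℝ) (D : Set ℝ) (σ : ℝ → Row)
    (act : ℚ → ℝ) (K : Set ℝ) (W : ℝ → ℝ) (v₁ t : ℚ) (e₁ Q₀ P g v₀ v ρ a₀ α : ℝ) : Prop where
  /-- the set of Pliss rows -/
  pr : ∀ Q ∈ K, PR c r D σ Q (W Q)
  /-- the plank at the window `v₁` and the straightness in the direction of its normal -/
  adm : Adm σ K W v₁ t e₁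
  room : ∀ Q ∈ K, Q - W Q < (σ 1).sN v₁ t
  mono : ∀ Q ∈ K, ∀ Q' ∈ K, Q ≤ Q' → W Q ≤ W Q' ∧ W Q' - W Q ≤ Q' - Q
  /-- the top row, the row which is not full, and the thickness at the window -/
  top : Q₀ ∈ K
  row : P ∈ K
  thk : g ∈ K
  gP : g < P
  PQ : P < Q₀
  WQ : W P < W Q₀
  dP : Dns K P
  dg : Dns K g
  /-- the rate of the positions at the row `P` -/
  rate : ∃ r' : ℝ, r' ≤ 3 - c ∧ HasDerivAt r r' P
  /-- the directions: value `v₀` and slope `v` -/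
  v0 : 0 ≤ v
  rot : Slp (σ 1).rot (W g) v₀ v
  rotQ : ∀ Q ∈ K, g < Q → ∀ w : ℚ, 0 ≤ w → (w : ℝ) < W Q → (σ Q).rot w = (σ 1).rot w
  /-- the thickness: value `g` and slope `1 + ρ`, also for the planks visible at rows of `K` -/
  ρ0 : 0 ≤ ρ
  th : Slp (σ 1).th (W g) g (1 + ρ)
  thQ : ∀ Q ∈ K, g < Q → Slp (σ Q).th (W g) g (1 + ρ)
  /-- the fans are straight beyond the active place, up to windows above `W P` -/
  beta : ∃ w₁ : ℚ, W P < w₁ ∧ (w₁ : ℝ) < W Q₀ ∧ (σ 1).rot w₁ + (P - g) < (σ Q₀).pi ∧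
    (σ 1).rot w₁ + (P - g) < (σ 1).pi
  small : P - g < e₁
  vel : P - W g < t - v₁ + e₁
  gam : P - W g < (σ 1).sN v₁ t
  w0 : 0 < W g
  wP : W P ≤ P
  /-- the activity at the place `P - g` -/
  actN : ActN S i₀ act
  amono : ∀ q q' : ℚ, 0 ≤ q → q ≤ q' → q' ≤ 1 → act q ≤ act q'
  alip : ∀ q q' : ℚ, 0 ≤ q → q ≤ q' → q' ≤ 1 → act q' - act q ≤ q' - q
  α0 : 0 < α
  aslp : Slp act (P - g) a₀ α

/-- **The data on a set of rows.** `K'` is a subset of `K` of positive measure, all rows of which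
have the slopes `V g`, `Rh g` at the window `W g`, with the condition `Γ`. For `g < P` in `K'`, with
`P - g` an active place, close to each other, one has the local data (`SD.loc` in `Eng.lean`). -/
structure SD (S : PCl 3) (i₀ : Fin 3) (c s₂ : ℝ) (r : ℝ → ℝ) (D : Set ℝ) (σ : ℝ → Row)
    (act : ℚ → ℝ) (K : Set ℝ) (W : ℝ → ℝ) (v₁ t : ℚ) (e₁ κ : ℝ) (K' : Set ℝ) (Q₀ C : ℝ) (w₁ : ℚ)
    (V0 V Rh : ℝ → ℝ) (Γ : ℝ → ℝ → Prop) : Prop where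
  pr : ∀ Q ∈ K, PR c r D σ Q (W Q)
  adm : Adm σ K W v₁ t e₁
  room : ∀ Q ∈ K, Q - W Q < (σ 1).sN v₁ t
  mono : ∀ Q ∈ K, ∀ Q' ∈ K, Q ≤ Q' → W Q ≤ W Q' ∧ W Q' - W Q ≤ Q' - Q
  wQ : ∀ Q ∈ K, W Q ≤ Q
  rotQ : ∀ Q ∈ K, ∀ w : ℚ, 0 ≤ w → (w : ℝ) < W Q → (σ Q).rot w = (σ 1).rot w
  /-- the top row -/
  top : Q₀ ∈ K
  w1 : (w₁ : ℝ) < W Q₀
  beta : (σ 1).rot w₁ < (σ Q₀).pi ∧ (σ 1).rot w₁ < (σ 1).pi
  /-- the set `K'` -/
  sub : K' ⊆ K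
  pos : MeasureTheory.volume K' ≠ 0
  lt : ∀ g ∈ K', g < Q₀
  lw : ∀ g ∈ K', W g < w₁
  /-- LEMMA C -/
  C0 : 0 < C
  lemc : ∀ g ∈ K', ∀ g' ∈ K, g - 1 / C < g' → g' < g → (g - g') / C ≤ W g - W g'
  dens : ∀ g ∈ K', Dns K g
  irr : ∀ g ∈ K', ∀ q : ℚ, (q : ℝ) ≠ W g
  rate : ∀ g ∈ K', ∃ r' : ℝ, r' ≤ 3 - c ∧ HasDerivAt r r' g
  rot : ∀ g ∈ K', 0 ≤ V g ∧ Slp (σ 1).rot (W g) (V0 g) (V g)
  th : ∀ g ∈ K', 0 ≤ Rh g ∧ Slp (σ 1).th (W g) g (1 + Rh g)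
  thQ : ∀ g ∈ K', ∀ Q ∈ K, g < Q → Slp (σ Q).th (W g) g (1 + Rh g)
  cond : ∀ g ∈ K', Γ (V g) (Rh g)
  /-- the activity -/
  actN : ActN S i₀ act
  act0 : act 0 = 0
  amono : ∀ q q' : ℚ, 0 ≤ q → q ≤ q' → q' ≤ 1 → act q ≤ act q'
  alip : ∀ q q' : ℚ, 0 ≤ q → q ≤ q' → q' ≤ 1 → act q' - act q ≤ q' - q
  κ0 : 0 < κ
  akap : ∃ q₀ : ℚ, 0 < q₀ ∧ q₀ ≤ 1 ∧ ∀ q : ℚ, 0 ≤ q → q ≤ q₀ → κ * q ≤ act q

/-- The data on a set of rows, with a condition on the slopes, are contradictory. -/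
def CaseSetStmt (Γ : ℝ → ℝ → Prop) : Prop :=
  ∀ (S : PCl 3) (a R h₁ : ℝ) (i₀ : Fin 3) (c s₂ : ℝ) (r : ℝ → ℝ) (D : Set ℝ) (σ : ℝ → Row),
    Cs S a R h₁ i₀ c s₂ r D σ → ∀ (act : ℚ → ℝ) (K : Set ℝ) (W : ℝ → ℝ) (v₁ t : ℚ)
    (e₁ κ : ℝ) (K' : Set ℝ) (Q₀ C : ℝ) (w₁ : ℚ) (V0 V Rh : ℝ → ℝ),
    SD S i₀ c s₂ r D σ act K W v₁ t e₁ κ K' Q₀ C w₁ V0 V Rh Γ → False

/-- The local data with a condition on the slopes are contradictory. -/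
def CaseStmt (Γ : ℝ → ℝ → Prop) : Prop :=
  ∀ (S : PCl 3) (a R h₁ : ℝ) (i₀ : Fin 3) (c s₂ : ℝ) (r : ℝ → ℝ) (D : Set ℝ) (σ : ℝ → Row),
    Cs S a R h₁ i₀ c s₂ r D σ → ∀ (act : ℚ → ℝ) (K : Set ℝ) (W : ℝ → ℝ) (v₁ t : ℚ)
    (e₁ Q₀ P g v₀ v ρ a₀ α : ℝ), Loc S i₀ c s₂ r D σ act K W v₁ t e₁ Q₀ P g v₀ v ρ a₀ α →
    Γ v ρ → False

/-- **Rising**: `R - varpi` increases. Theorem OCS. -/
def RISEStmt : Prop := CaseStmt fun v ρ => v < ρ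

/-- **Falling**: `R - varpi` decreases, `R` increases. Theorem OC for one coordinate. -/
def FALLStmt : Prop := CaseStmt fun v ρ => ρ < v ∧ 0 < ρ

/-- **Falling with a plateau of `R`.** -/
def RPLAStmt : Prop := CaseStmt fun v ρ => ρ < v ∧ ρ = 0

/-- **Plateau of `R - varpi`**, with increasing `varpi`. Theorem OCM with two coordinates. -/
def HPLAStmt : Prop := CaseStmt fun v ρ => v = ρ ∧ 0 < v

/-- **Double plateau.** -/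
def DPLAStmt : Prop := CaseStmt fun v ρ => v = 0 ∧ ρ = 0

/-- **Plateau of `R - varpi`**, set form (the distance `P - g` can be chosen before the window). -/
def HPLASet : Prop := CaseSetStmt fun v ρ => v = ρ ∧ 0 < v

/-- **Double plateau**, set form. -/
def DPLASet : Prop := CaseSetStmt fun v ρ => v = 0 ∧ ρ = 0

end Pool.S6C
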