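import Pool.Agent.H51.S6.UV
import Pool.Agent.H75.S6C.Rot
import Pool.Agent.H75.S6C.Mon

/-!
# The U-step: the labels of the directions

On half of every stable event there are own slopes and labels of the directions for finitely many
windows.
-/

set_option autoImplicit false

namespace Pool.S6C

open Finset Real
open Pool.Agent.H49.Ent Pool.Agent.H32.Dense Pool.STK Pool.KA Pool.KSAT Pool.K2S Pool.PB Pool.KS6

/-- The directions are not more constant than the fans are straight. -/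
theorem rot_le_pi {S : PCl 3} {i₀ : Fin 3} (hS : S.Ne) {Q : ℝ} {ρ : Row} (hρ : Rw S i₀ Q ρ)
    {w : ℚ} (h0 : 0 ≤ w) (h1 : w ≤ 1) : ρ.rot w ≤ ρ.pi := by
  refine num_mono hS (hρ.rot w h0 h1) hρ.pi ?_
  rintro t J F A (h | ⟨h, e, n, ζ, hL, hz⟩)
  · exact Or.inl h
  · exact Or.inr ⟨h, e, n, hL⟩

theorem OwnS.mono {J : ℕ} {F : Fam 3 J} {A : F.Ω → Prop} {ς : Fin 3 → Fin 3} {L : ℕ} {C C' : ℝ}
    {al : F.Ω → ℝ} (h : OwnS F A ς L C al) (hC : C ≤ C') : OwnS F A ς L C' al := by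
  obtain ⟨nu, hnu⟩ := h.on
  exact ⟨h.pt, fun ω hω => (h.bd ω hω).trans hC, nu, fun ω hω => (hnu ω hω).trans
    (div_le_div_of_nonneg_right hC (by positivity))⟩

theorem OwnS.sub {J : ℕ} {F : Fam 3 J} {A B : F.Ω → Prop} {ς : Fin 3 → Fin 3} {L : ℕ} {C : ℝ}
    {al : F.Ω → ℝ} (h : OwnS F A ς L C al) (hB : Sub B A) : OwnS F B ς L C al := by
  obtain ⟨nu, hnu⟩ := h.on
  obtain ⟨φ, hφ⟩ := h.pt
  exact ⟨⟨φ, fun ω hω => hφ ω (hB ω hω)⟩, fun ω hω => h.bd ω (hB ω hω), nu,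
    fun ω hω => hnu ω (hB ω hω)⟩

theorem DirS.mono {J : ℕ} {F : Fam 3 J} {A : F.Ω → Prop} {w l : ℕ} {C C' : ℝ}
    {al a : F.Ω → ℝ} (h : DirS F A w l C al a) (hC : C ≤ C') : DirS F A w l C' al a :=
  ⟨h.sl, h.grd, fun ω hω => (h.near ω hω).trans (div_le_div_of_nonneg_right hC (by positivity))⟩

theorem DirS.sub {J : ℕ} {F : Fam 3 J} {A B : F.Ω → Prop} {w l : ℕ} {C : ℝ}
    {al a : F.Ω → ℝ} (h : DirS F A w l C al a) (hB : Sub B A) : DirS F B w l C al a := by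
  obtain ⟨ψ, hψ⟩ := h.sl
  exact ⟨⟨ψ, fun ω hω => hψ ω (hB ω hω)⟩, fun ω hω => h.grd ω (hB ω hω),
    fun ω hω => h.near ω (hB ω hω)⟩

theorem inc_monoC {i0 iu iN : Fin 3} {w lam P : ℕ} {C C' : ℝ} {y : Pln} {t : ℝ}
    {x d : Fin 3 → ℝ} (h : Inc i0 iu iN w lam P C y t x d) (hC : C ≤ C') :
    Inc i0 iu iN w lam P C' y t x d :=
  ⟨h.e_le, h.c_le, h.s_le, h.pe.trans (div_le_div_of_nonneg_right hC (by positivity)),
    h.pu.trans (div_le_div_of_nonneg_right hC (by positivity)),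
    h.pn.trans (div_le_div_of_nonneg_right hC (by positivity)), h.ve.trans hC,
    h.vu.trans (div_le_div_of_nonneg_right hC (by positivity)),
    h.vn.trans (div_le_div_of_nonneg_right (mul_le_mul_of_nonneg_right hC (by positivity))
      (by positivity))⟩

theorem PkL.mono {J : ℕ} {F : Fam 3 J} {A : F.Ω → Prop} {ς : Fin 3 → Fin 3} {w lam P : ℕ}
    {C C' : ℝ} {Λ : Type} {κ : F.Ω → Λ} {pl : Λ → Pln} (h : PkL F A ς w lam P C κ pl)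
    (hC : C ≤ C') : PkL F A ς w lam P C' κ pl :=
  ⟨fun ω hω => inc_monoC (h.inc ω hω) hC, h.pt, h.sl⟩

theorem PkL.sub {J : ℕ} {F : Fam 3 J} {A B : F.Ω → Prop} {ς : Fin 3 → Fin 3} {w lam P : ℕ}
    {C : ℝ} {Λ : Type} {κ : F.Ω → Λ} {pl : Λ → Pln} (h : PkL F A ς w lam P C κ pl)
    (hB : Sub B A) : PkL F B ς w lam P C κ pl := by
  obtain ⟨φ, hφ⟩ := h.pt
  obtain ⟨ψ, hψ⟩ := h.sl
  exact ⟨fun ω hω => h.inc ω (hB ω hω), ⟨φ, fun ω hω => hφ ω (hB ω hω)⟩,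
    ψ, fun ω hω => hψ ω (hB ω hω)⟩

/-- **Labels of the directions.** -/
theorem labs {S : PCl 3} {a R h₁ : ℝ} {i₀ : Fin 3} {c s₂ : ℝ} {r : ℝ → ℝ} {D : Set ℝ}
    {σ : ℝ → Row} (hC : Cs S a R h₁ i₀ c s₂ r D σ) {p k : ℝ} (hk : 0 < k)
    (hkp : k ≤ (σ 1).pi) (n : ℕ) (x : ℕ → ℚ) (hx : ∀ i ≤ n, 0 ≤ x i ∧ x i ≤ 1) :
    Clp S (fun J F A => ∃ B : F.Ω → Prop, Sub B A ∧ 1 / 2 * Pe F.p A ≤ Pe F.p B ∧
      ∀ ς : Fin 3 → Fin 3, ς 0 = i₀ → ∃ (al : F.Ω → ℝ) (a' : ℕ → F.Ω → ℝ),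
        OwnS F B ς ⌊((σ 1).pi - k) * J⌋₊ 2 al ∧
        ∀ i ≤ n, DirS F B ⌊(x i : ℝ) * J⌋₊ (lam (σ 1) p k (x i) J) 2 al (a' i)) := by
  classical
  have hR1 := hC.row 1 one_pos le_rfl hC.D1
  have hpi0 : 0 < (σ 1).pi := hk.trans_le hkp
  obtain ⟨ξ, hξ⟩ : ∃ ξ, ξ = min (min (k / 16) (min h₁ 1 / 16)) ((σ 1).pi / 16) := ⟨_, rfl⟩
  have hm0 : 0 < min h₁ 1 := lt_min hC.h₁0 one_pos
  have hξ0 : 0 < ξ := by
    rw [hξ]
    exact lt_min (lt_min (by linarith only [hk]) (by linarith)) (by linarith)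
  have hξ1 : ξ ≤ k / 16 := by rw [hξ]; exact (min_le_left _ _).trans (min_le_left _ _)
  have hξ2 : ξ ≤ h₁ / 16 := by
    rw [hξ]
    refine ((min_le_left _ _).trans (min_le_right _ _)).trans ?_
    have := min_le_left h₁ 1
    linarith
  have hξ3 : ξ ≤ 1 / 16 := by
    rw [hξ]
    refine ((min_le_left _ _).trans (min_le_right _ _)).trans ?_
    have := min_le_right h₁ 1
    linarith only [this]
  have hξ4 : ξ ≤ (σ 1).pi / 16 := by rw [hξ]; exact min_le_right _ _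
  have c1 := hR1.pi.1 (k / 2) (half_pos hk)
  have c2 : Clp S (fun J F A => ∀ i < n + 1,
      capS 1 (qRot i₀ 1 (x i)) ((σ 1).rot (x i) - k / 2) J F A) :=
    Clp.all (n + 1) fun i hi =>
      (hR1.rot (x i) (hx i (by omega)).1 (hx i (by omega)).2).1 (k / 2) (half_pos hk)
  obtain ⟨τ, hτ, J₁, hsp⟩ := spread_part hC.a1 hC.R0 hC.ub hC.st hC.lb hξ0
  have c3 : Clp S (fun J F A => ∀ q : ℕ, q ≤ J → ξ * J ≤ q → q + 2 ≤ ⌊h₁ * J⌋₊ →
      ∃ B : F.Ω → Prop, Sub B A ∧ Real.exp (-Real.log 2) * Pe F.p A ≤ Pe F.p B ∧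
      ∀ ω, B ω → ∃ ω' ω'', B ω' ∧ B ω'' ∧ Fam.pt F ω' = Fam.pt F ω ∧
        Fam.pt F ω'' = Fam.pt F ω ∧ 1 / 2 ^ (q + 1) ≤ |F.d ω' i₀ - F.d ω'' i₀|) :=
    Clp.base τ hτ J₁ hsp
  have c4 : Clp S (fun J F A => Lb F i₀ ⌊h₁ * J⌋₊ A) :=
    Clp.base 1 one_pos 0 fun J _ F A hA => hC.lb _ _ _ _ hA
  obtain ⟨J₃, hJ₃⟩ := exists_nat_gt (16 / k + 16 / h₁ + 16 + 16 / (σ 1).pi)
  refine Clp.mono (J₂ := J₃) (((c1.and c2).and c3).and c4) ?_
  rintro J hJ F A ⟨⟨⟨d1, d2⟩, d3⟩, eb, nb, hb⟩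
  have hJr : 16 / k + 16 / h₁ + 16 + 16 / (σ 1).pi < J :=
    hJ₃.trans_le (by exact_mod_cast hJ)
  have q1 : 0 < 16 / k := by positivity
  have q2 : 0 < 16 / h₁ := div_pos (by norm_num) hC.h₁0
  have q3 : 0 < 16 / (σ 1).pi := by positivity
  have hJk : 16 < J * k := by
    have : 16 / k < J := by linarith only [hξ0, hξ3, hJr, q2, q3]
    rwa [div_lt_iff₀ hk] at this
  have hJh₁ : 16 < J * h₁ := by
    have : 16 / h₁ < J := by linarith only [hξ0, hξ3, hJr, q1, q3]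
    rwa [div_lt_iff₀ hC.h₁0] at this
  have hJpi : 16 < J * (σ 1).pi := by
    have : 16 / (σ 1).pi < J := by linarith only [hξ0, hξ3, hJr, q1, q2]
    rwa [div_lt_iff₀ hpi0] at this
  have hJ0 : (0 : ℝ) ≤ J := Nat.cast_nonneg J
  have hJ16 : (16 : ℝ) < J := by linarith only [hJr, q1, q2, q3]
  obtain ⟨q, hq⟩ : ∃ q, q = ⌈ξ * J⌉₊ := ⟨_, rfl⟩
  have hq1 : ξ * J ≤ q := by rw [hq]; exact Nat.le_ceil _
  have hq2 : (q : ℝ) < ξ * J + 1 := by rw [hq]; exact Nat.ceil_lt_add_one (by positivity)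
  have hqJ : q ≤ J := by
    have e1 : ξ * J ≤ 1 / 16 * J := mul_le_mul_of_nonneg_right hξ3 hJ0
    have : (q : ℝ) ≤ J := by linarith only [hξ0, hξ3, hJr, q1, q2, q3, hq2, e1]
    exact_mod_cast this
  have e2 : ξ * J ≤ h₁ / 16 * J := mul_le_mul_of_nonneg_right hξ2 hJ0
  have e3 : ξ * J ≤ (σ 1).pi / 16 * J := mul_le_mul_of_nonneg_right hξ4 hJ0
  have e4 : ξ * J ≤ k / 16 * J := mul_le_mul_of_nonneg_right hξ1 hJ0
  have hqh : q + 4 ≤ ⌊h₁ * J⌋₊ := by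
    refine Nat.le_floor ?_
    push_cast
    linarith only [hξ0, hξ3, hJh₁, hq2, e2]
  obtain ⟨B, hB, hPB, hBs⟩ := d3 q hqJ hq1 (by omega)
  have hexp : Real.exp (-Real.log 2) = 1 / 2 := by
    rw [Real.exp_neg (Real.log 2), Real.exp_log (by norm_num), one_div]
  rw [hexp] at hPB
  rcases d1 with d1 | ⟨-, e', n', h3⟩
  · linarith only [hkp, hξ0, hξ1, d1]
  rw [ptq_one F] at h3
  -- the levels
  obtain ⟨L, hL⟩ : ∃ L, L = ⌊((σ 1).pi - k / 2) * J⌋₊ := ⟨_, rfl⟩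
  rw [← hL] at h3
  have hkL : ((σ 1).pi - k / 2) * J = (σ 1).pi * J - k * J / 2 := by ring
  have hkpJ : k * J ≤ (σ 1).pi * J := mul_le_mul_of_nonneg_right hkp hJ0
  have hqL : q + 4 ≤ L := by
    rw [hL]
    refine Nat.le_floor ?_
    push_cast
    rw [hkL]
    linarith only [hξ0, hξ3, hJpi, hq2, e3, hkpJ]
  have hLL : ⌊((σ 1).pi - k) * J⌋₊ ≤ L := by
    rw [hL]
    refine Nat.floor_le_floor (mul_le_mul_of_nonneg_right (by linarith only [hξ0, hξ1]) hJ0)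
  -- the slopes are bounded
  have bd : ∀ ω, B ω → ∀ j, |e' (Fam.pt F ω) j| ≤ 2 := by
    intro ω hω j
    obtain ⟨ω', ω'', b1, b2, b3, b4, b5⟩ := hBs ω hω
    have a1 := hb.line ω' (hB _ b1) j
    have a2 := hb.line ω'' (hB _ b2) j
    have a3 := h3 ω' (hB _ b1) j
    have a4 := h3 ω'' (hB _ b2) j
    rw [b3] at a1 a3
    rw [b4] at a2 a4
    have hcl := frame_close (U := ℕ) (d := F.d) a1 a2 a3 a4 (by positivity) b5
    have hbb := hb.bound ω (hB _ hω) j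
    have t1 : (1 : ℝ) / 2 ^ ⌊h₁ * J⌋₊ ≤ 1 / 2 ^ (q + 4) := inv_mono hqh
    have t2 : (1 : ℝ) / 2 ^ L ≤ 1 / 2 ^ (q + 4) := inv_mono hqL
    have t3 : (2 * (1 / 2 ^ ⌊h₁ * J⌋₊) + 2 * (1 / 2 ^ L)) / (1 / 2 ^ (q + 1)) ≤ (1 : ℝ) := by
      rw [div_le_one (by positivity)]
      have : (1 : ℝ) / 2 ^ (q + 1) = 8 * (1 / 2 ^ (q + 4)) := by
        rw [pow_add 2 q 4, pow_add 2 q 1]
        field_simp
        norm_num
      rw [this]
      have : (0 : ℝ) < 1 / 2 ^ (q + 4) := by positivity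
      linarith only [t1, t2, this]
    have t4 := abs_sub_abs_le_abs_sub (e' (Fam.pt F ω) j) (eb (Fam.pt F ω) j)
    linarith only [hcl, hbb, t3, t4]
  -- the labels
  have lab : ∀ j : Fin 3, ∀ i : ℕ, ∃ a' : F.Ω → ℝ, i ≤ n →
      DirS F B ⌊(x i : ℝ) * J⌋₊ (lam (σ 1) p k (x i) J) 2 (fun ω => e' (Fam.pt F ω) j) a' := by
    intro j i
    by_cases hi : i ≤ n
    swap
    · exact ⟨fun _ => 0, fun h => absurd h hi⟩
    obtain ⟨l, hl⟩ : ∃ l, l = lam (σ 1) p k (x i) J := ⟨_, rfl⟩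
    rw [← hl]
    unfold lam at hl
    by_cases hr : (σ 1).rot (x i) - k ≤ 0
    · have hl0 : l = 0 := by
        rw [hl]
        refine Nat.floor_of_nonpos ?_
        exact mul_nonpos_of_nonpos_of_nonneg ((min_le_left _ _).trans hr) hJ0
      refine ⟨fun _ => 0, fun _ => ⟨⟨fun _ => 0, fun _ _ => rfl⟩, fun ω _ => ⟨0, ?_⟩,
        fun ω hω => ?_⟩⟩
      · simp
      · rw [hl0, sub_zero, pow_zero, div_one]
        exact bd ω hω j
    · push Not at hr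
      have hrk : ((σ 1).rot (x i) - k) * J = (σ 1).rot (x i) * J - k * J := by ring
      have hlr : l ≤ ⌊((σ 1).rot (x i) - k) * J⌋₊ := by
        rw [hl]
        exact Nat.floor_le_floor (mul_le_mul_of_nonneg_right (min_le_left _ _) hJ0)
      have hrpi := rot_le_pi hC.ne hR1 (hx i hi).1 (hx i hi).2
      obtain ⟨l1, hl1⟩ : ∃ l1, l1 = ⌊((σ 1).rot (x i) - k / 2) * J⌋₊ := ⟨_, rfl⟩
      have g1 : l + (q + 4) ≤ l1 := by
        refine (Nat.add_le_add_right hlr (q + 4)).trans ?_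
        rw [hl1]
        refine floor_margin hr.le ?_ hJ0
        push_cast
        rw [hrk]
        have : ((σ 1).rot (x i) - k / 2) * J = (σ 1).rot (x i) * J - k * J / 2 := by ring
        rw [this]
        linarith only [hξ0, hξ3, hJk, hq2, e4]
      have g2 : l + (q + 4) ≤ L := by
        refine (Nat.add_le_add_right hlr (q + 4)).trans ?_
        rw [hL]
        refine floor_margin hr.le ?_ hJ0
        push_cast
        rw [hrk, hkL]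
        have := mul_le_mul_of_nonneg_right hrpi hJ0
        linarith only [hξ0, hξ3, hJk, hq2, e4, this]
      rcases d2 i (by omega) with d2 | ⟨-, e, n, ζ, hon, hz⟩
      · linarith only [hξ0, hξ1, hr, d2]
      rw [ptq_one F, ← hl1] at hon
      have hz' : ∀ ω, A ω → ∀ j, |e (Fam.pt F ω) j - ζ (slam F ⌊(x i : ℝ) * J⌋₊ ω) j| ≤
          1 / 2 ^ l1 := by
        rw [hl1, ← ptq_one F]; exact hz
      refine ⟨fun ω => (⌊(2 : ℝ) ^ l * ζ (slam F ⌊(x i : ℝ) * J⌋₊ ω) j⌋ : ℝ) / 2 ^ l, fun _ =>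
        ⟨⟨fun v => (⌊(2 : ℝ) ^ l * ζ v j⌋ : ℝ) / 2 ^ l, fun _ _ => rfl⟩,
          fun ω _ => ⟨_, rfl⟩, fun ω hω => ?_⟩⟩
      obtain ⟨ω', ω'', b1, b2, b3, b4, b5⟩ := hBs ω hω
      have a1 := hon ω' (hB _ b1) j
      have a2 := hon ω'' (hB _ b2) j
      have a3 := h3 ω' (hB _ b1) j
      have a4 := h3 ω'' (hB _ b2) j
      rw [b3] at a1 a3
      rw [b4] at a2 a4
      have hcl := frame_close (U := ℕ) (d := F.d) a1 a2 a3 a4 (by positivity) b5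
      have hzz := hz' ω (hB _ hω) j
      have hfl := floor_near l (ζ (slam F ⌊(x i : ℝ) * J⌋₊ ω) j)
      have t1 : (1 : ℝ) / 2 ^ l1 ≤ 1 / 2 ^ (l + (q + 4)) := inv_mono g1
      have t2 : (1 : ℝ) / 2 ^ L ≤ 1 / 2 ^ (l + (q + 4)) := inv_mono g2
      have t3 : (2 * (1 / 2 ^ l1) + 2 * (1 / 2 ^ L)) / (1 / 2 ^ (q + 1)) ≤
          1 / 2 * (1 / 2 ^ l : ℝ) := by
        rw [div_le_iff₀ (by positivity)]
        have : 1 / 2 * (1 / 2 ^ l : ℝ) * (1 / 2 ^ (q + 1)) = 4 * (1 / 2 ^ (l + (q + 4))) := by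
          rw [pow_add 2 l (q + 4), pow_add 2 q 4, pow_add 2 q 1]
          field_simp
          norm_num
        rw [this]
        linarith only [t1, t2]
      have t4 : (1 : ℝ) / 2 ^ (l + (q + 4)) ≤ 1 / 2 * (1 / 2 ^ l) := by
        have : (1 : ℝ) / 2 ^ (l + (q + 4)) ≤ 1 / 2 ^ (l + 1) := inv_mono (by omega)
        have e : (1 : ℝ) / 2 ^ (l + 1) = 1 / 2 * (1 / 2 ^ l) := by
          rw [pow_succ]
          field_simp
        linarith only [this, e]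
      have t5 : (2 : ℝ) / 2 ^ l = 1 / 2 * (1 / 2 ^ l) + 1 / 2 * (1 / 2 ^ l) + 1 / 2 ^ l := by
        ring
      rw [t5]
      have s1 := abs_sub_le (e' (Fam.pt F ω) j) (e (Fam.pt F ω) j)
        (ζ (slam F ⌊(x i : ℝ) * J⌋₊ ω) j)
      have s2 := abs_sub_le (e' (Fam.pt F ω) j) (ζ (slam F ⌊(x i : ℝ) * J⌋₊ ω) j)
        ((⌊(2 : ℝ) ^ l * ζ (slam F ⌊(x i : ℝ) * J⌋₊ ω) j⌋ : ℝ) / 2 ^ l)
      linarith only [hcl, hzz, hfl, t1, t3, t4, s1, s2]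
  refine ⟨B, hB, hPB, fun ς hς => ?_⟩
  choose a' ha' using lab (ς 1)
  refine ⟨fun ω => e' (Fam.pt F ω) (ς 1), a', ⟨⟨fun u => e' u (ς 1), fun _ _ => rfl⟩,
    fun ω hω => bd ω hω (ς 1), fun u => n' u (ς 1), fun ω hω => ?_⟩, fun i hi => ha' i hi⟩
  rw [hς]
  have h1 := h3 ω (hB _ hω) (ς 1)
  have h2 : (1 : ℝ) / 2 ^ L ≤ 1 / 2 ^ ⌊((σ 1).pi - k) * J⌋₊ := inv_mono hLL
  have h4 : (1 : ℝ) / 2 ^ ⌊((σ 1).pi - k) * J⌋₊ ≤ 2 / 2 ^ ⌊((σ 1).pi - k) * J⌋₊ :=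
    div_le_div_of_nonneg_right (by norm_num) (by positivity)
  linarith only [h1, h2, h4]

end Pool.S6C
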