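import Pool.Agent.H51.S6.UV
import Pool.Agent.H8.DPL.Lay

/-!
# The U-step: the chain over the mesh, for one family; exhaustion

`good_step`: the rows of a cell given in the own frame are rows in the frames of the labels.
`chain`: the sum over the cells. `exh`: a lower bound for a conditional entropy on parts of all
events which are not small holds on the whole event.
-/

set_option autoImplicit false

namespace Pool.S6C

open Finset Real
open Pool.Agent.H49.Ent Pool.Agent.H32.Dense Pool.STK Pool.KA Pool.KSAT Pool.K2S Pool.PB Pool.KS6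

namespace Uvp

section ent

variable {Ω S T : Type} [Fintype Ω] {q : Ω → ℝ}

/-- A grid variable near a known number. -/
theorem CH_grid (hq : IsLaw q) {l : ℕ} {C : ℝ} (al a : Ω → ℝ)
    (hg : ∀ ω, 0 < q ω → ∃ z : ℤ, a ω = z / 2 ^ l) (hn : ∀ ω, 0 < q ω → |al ω - a ω| ≤ C / 2 ^ l)
    (W : Ω → T) (hW : Det q W al) : CH q a W ≤ Real.log (4 * C + 1) := by
  classical
  have h0 := hq.nonneg
  have hp : (0 : ℝ) < 2 ^ l := by positivity
  obtain ⟨Z, hZ⟩ : ∃ Z : Ω → ℤ, ∀ ω, 0 < q ω → a ω = Z ω / 2 ^ l := by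
    have : ∀ ω, ∃ z : ℤ, 0 < q ω → a ω = z / 2 ^ l := by
      intro ω
      by_cases h : 0 < q ω
      · obtain ⟨z, hz⟩ := hg ω h
        exact ⟨z, fun _ => hz⟩
      · exact ⟨0, fun h' => absurd h' h⟩
    choose Z hZ using this
    exact ⟨Z, hZ⟩
  have k1 : CH q a W ≤ CH q Z W := by
    refine CH_mono_left h0 ?_
    intro ω ω' hω hω' e
    have e1 : Z ω = Z ω' := (Prod.ext_iff.mp e).1
    rw [hZ ω hω, hZ ω' hω', e1]
  have k2 := CH_le_int h0 hq.sum_one Z W (fun _ => 2 * C) (by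
    intro ω ω' hω hω' e
    have e1 := hW ω ω' hω hω' e
    have n1 := hn ω hω
    have n2 := hn ω' hω'
    rw [← e1] at n2
    rw [hZ ω hω] at n1
    rw [hZ ω' hω'] at n2
    have m1 : |al ω * 2 ^ l - Z ω| ≤ C := by
      have : al ω * 2 ^ l - Z ω = (al ω - Z ω / 2 ^ l) * 2 ^ l := by field_simp
      rw [this, abs_mul, abs_of_pos hp]
      have := mul_le_mul_of_nonneg_right n1 hp.le
      rwa [div_mul_cancel₀ _ hp.ne'] at this
    have m2 : |al ω * 2 ^ l - Z ω'| ≤ C := by
      have : al ω * 2 ^ l - Z ω' = (al ω - Z ω' / 2 ^ l) * 2 ^ l := by field_simp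
      rw [this, abs_mul, abs_of_pos hp]
      have := mul_le_mul_of_nonneg_right n2 hp.le
      rwa [div_mul_cancel₀ _ hp.ne'] at this
    push_cast
    rw [abs_le] at m1 m2 ⊢
    constructor <;> linarith [m1.1, m1.2, m2.1, m2.2])
  have k3 : Ex q (fun _ => Real.log (2 * (2 * C) + 1)) = Real.log (4 * C + 1) := by
    rw [Ex_const hq.sum_one]
    congr 1
    ring
  linarith

/-- The accumulated labels of the windows `x 0, ..., x i`. -/
def acc {Λ : Type} (κ : Ω → Λ) (a : ℕ → Ω → ℝ) (i : ℕ) (ω : Ω) : Λ × (ℕ → ℝ) :=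
  (κ ω, fun j => if j ≤ i then a j ω else 0)

omit [Fintype Ω] in
theorem acc_eq {Λ : Type} {κ : Ω → Λ} {a : ℕ → Ω → ℝ} {i : ℕ} {ω ω' : Ω} :
    acc κ a i ω = acc κ a i ω' ↔ κ ω = κ ω' ∧ ∀ j ≤ i, a j ω = a j ω' := by
  constructor
  · intro e
    have e1 := Prod.ext_iff.mp e
    refine ⟨e1.1, fun j hj => ?_⟩
    have := congrFun e1.2 j
    simpa only [acc, if_pos hj] using this
  · rintro ⟨h1, h2⟩
    refine Prod.ext h1 ?_
    funext j
    by_cases hj : j ≤ i
    · simp only [acc, if_pos hj, h2 j hj]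
    · simp only [acc, if_neg hj]

omit [Fintype Ω] in
theorem acc_mono {Λ : Type} {κ : Ω → Λ} {a : ℕ → Ω → ℝ} {i i' : ℕ} (h : i ≤ i') {ω ω' : Ω}
    (e : acc κ a i' ω = acc κ a i' ω') : acc κ a i ω = acc κ a i ω' := by
  rw [acc_eq] at e ⊢
  exact ⟨e.1, fun j hj => e.2 j (hj.trans h)⟩

/-- The entropy of the accumulated labels. -/
theorem CH_acc (hq : IsLaw q) {C : ℝ} {Λ : Type} (κ : Ω → Λ) (l : ℕ → ℕ)
    (al : Ω → ℝ) (a : ℕ → Ω → ℝ) (i : ℕ)
    (hg : ∀ j ≤ i, ∀ ω, 0 < q ω → ∃ z : ℤ, a j ω = z / 2 ^ l j)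
    (hn : ∀ j ≤ i, ∀ ω, 0 < q ω → |al ω - a j ω| ≤ C / 2 ^ l j)
    (W : Ω → T) (hW : Det q W al) (hκ : Det q W κ) :
    CH q (acc κ a i) W ≤ (i + 1) * Real.log (4 * C + 1) := by
  have h0 := hq.nonneg
  have key : ∀ m ≤ i, CH q (acc κ a m) W ≤ (m + 1) * Real.log (4 * C + 1) := by
    intro m
    induction m with
    | zero =>
      intro _
      have k1 : CH q (acc κ a 0) W ≤ CH q (a 0) W := by
        refine CH_mono_left h0 ?_
        intro ω ω' hω hω' e
        have e1 := Prod.ext_iff.mp e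
        rw [acc_eq]
        refine ⟨hκ ω ω' hω hω' e1.2, fun j hj => ?_⟩
        obtain rfl : j = 0 := by omega
        exact e1.1
      have k2 := CH_grid hq al (a 0) (hg 0 (by omega)) (hn 0 (by omega)) W hW
      have : ((0 : ℕ) : ℝ) + 1 = 1 := by norm_num
      rw [this, one_mul]
      exact k1.trans k2
    | succ m ih =>
      intro hm
      have k1 : CH q (acc κ a (m + 1)) W ≤ CH q (fun ω => (acc κ a m ω, a (m + 1) ω)) W := by
        refine CH_mono_left h0 ?_
        intro ω ω' hω hω' e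
        have e1 := Prod.ext_iff.mp e
        have e2 := Prod.ext_iff.mp e1.1
        have e3 := acc_eq.1 e2.1
        rw [acc_eq]
        refine ⟨e3.1, fun j hj => ?_⟩
        rcases Nat.lt_or_ge m j with h | h
        · obtain rfl : j = m + 1 := by omega
          exact e2.2
        · exact e3.2 j h
      have k2 := CH_subadd h0 (acc κ a m) (a (m + 1)) W
      have k3 := CH_grid hq al (a (m + 1)) (hg (m + 1) hm) (hn (m + 1) hm) W hW
      have k4 := ih (by omega)
      push_cast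
      linarith
  exact key i le_rfl

end ent

section good

variable {J : ℕ} {F : Fam 3 J} {q : F.Ω → ℝ} {σ : Fin 3 → Fin 3} {τ τ' τ₀ : Type}

/-- **Good cell.** The rows given in the own frame are rows in the frames of the labels. -/
theorem good_step (hq : IsLaw q) {r U r' U' N : ℕ} {C K : ℝ} (hC : 1 ≤ C) (hr : r ≤ r')
    (hrN : r' ≤ N) (hUN : U' ≤ N) (hrU : r ≤ U) (hrU' : r' ≤ U') {al a a' s t : F.Ω → ℝ}
    (hal : ∀ ω, 0 < q ω → |al ω| ≤ C) (hs : ∀ ω, 0 < q ω → |s ω| ≤ 4 ∧ |t ω| ≤ 4)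
    (ha : ∀ ω, 0 < q ω → |al ω - a ω| ≤ C / 2 ^ (U - r))
    (ha' : ∀ ω, 0 < q ω → |al ω - a' ω| ≤ C / 2 ^ (U' - r'))
    (Θ : F.Ω → τ) (Θ' : F.Ω → τ') (Θ₀ : F.Ω → τ₀) (hΘ : Det q Θ' Θ)
    (hf : Vd.Fd q Θ a s t) (hf' : Vd.Fd q Θ' a' s t) (hf₀ : Det q Θ₀ (fun ω => (s ω, t ω)))
    (hK : CH q Θ' (fun ω => (F.sbx σ r U N al s t ω, (al ω, Θ₀ ω))) ≤ K) :
    F.vdf q σ r U N a s t Θ ≤ ((((r' : ℝ) - r) + ((U' : ℝ) - (min U U' : ℕ))) * Real.log 2 -
      CH q (F.sbx σ r' U' N al s t) (fun ω => (F.sbx σ r U N al s t ω, (al ω, Θ₀ ω)))) +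
      F.vdf q σ r' U' N a' s t Θ' +
      (K + 3 * (3 * Real.log (12 * C + 3)) + 3 * Real.log (24 * C + 3)) := by
  have h0 := hq.nonneg
  have hp : ∀ n : ℕ, (0 : ℝ) < 2 ^ n := fun n => by positivity
  have hpow : ∀ {m n : ℕ}, m ≤ n → (2 : ℝ) ^ m ≤ 2 ^ n := fun h =>
    pow_le_pow_right₀ (by norm_num) h
  obtain ⟨V, hV⟩ : ∃ V : ℕ, V = min U U' := ⟨_, rfl⟩
  have hVU : V ≤ U := by omega
  have hVU' : V ≤ U' := by omega
  rw [← hV]
  -- the errors of the directions in terms of the levels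
  have e1 : ∀ ω, 0 < q ω → |al ω - a ω| ≤ C * 2 ^ r / 2 ^ U := by
    intro ω hω
    refine (ha ω hω).trans (le_of_eq ?_)
    obtain ⟨m, rfl⟩ := Nat.exists_eq_add_of_le hrU
    rw [Nat.add_sub_cancel_left, pow_add]
    field_simp
  have e2 : ∀ ω, 0 < q ω → |al ω - a' ω| ≤ C * 2 ^ r' / 2 ^ U' := by
    intro ω hω
    refine (ha' ω hω).trans (le_of_eq ?_)
    obtain ⟨m, rfl⟩ := Nat.exists_eq_add_of_le hrU'
    rw [Nat.add_sub_cancel_left, pow_add]
    field_simp
  have hC0 : (0 : ℝ) ≤ C := by linarith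
  have f1 : C * 2 ^ r / 2 ^ U ≤ C * 2 ^ r / 2 ^ V :=
    div_le_div_of_nonneg_left (by positivity) (hp V) (hpow hVU)
  have f2 : C * 2 ^ r' / 2 ^ U' ≤ C * 2 ^ r' / 2 ^ V :=
    div_le_div_of_nonneg_left (by positivity) (hp V) (hpow hVU')
  have f3 : C * 2 ^ r / 2 ^ V ≤ C * 2 ^ r' / 2 ^ V :=
    div_le_div_of_nonneg_right (mul_le_mul_of_nonneg_left (hpow hr) hC0) (hp V).le
  have hba : ∀ ω, 0 < q ω → |a' ω| ≤ 4 * C := by
    intro ω hω
    have h1 := hal ω hω
    have h2 := ha' ω hω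
    have h3 : C / 2 ^ (U' - r') ≤ C := by
      refine div_le_self hC0 ?_
      exact one_le_pow₀ (by norm_num)
    rw [abs_le] at h1 h2 ⊢
    constructor <;> linarith [h1.1, h1.2, h2.1, h2.2]
  -- lower the second level
  have k0 := Vd.vdf_mono (σ := σ) (a := a) (s := s) (t := t) (N := N) hq (le_refl r) hVU Θ
  have k1 := Vd.vdf_step (σ := σ) (a := a) (s := s) (t := t) (a' := a') (s' := s) (t' := t)
    (r := r) (U := V) (N := N) (r' := r') (U' := U') (B := 4 * C) (D := 2 * C) hq (by linarith)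
    (by linarith) hr hVU' hrN hUN
    (fun ω hω => ⟨hba ω hω, (hs ω hω).1.trans (by linarith), (hs ω hω).2.trans (by linarith)⟩)
    (by
      intro ω hω
      refine ⟨?_, ?_, ?_⟩
      · have h1 := e1 ω hω
        have h2 := e2 ω hω
        have h3 : 2 * C * 2 ^ r' / 2 ^ V = C * 2 ^ r' / 2 ^ V + C * 2 ^ r' / 2 ^ V := by ring
        rw [h3]
        rw [abs_le] at h1 h2 ⊢
        constructor <;> linarith [h1.1, h1.2, h2.1, h2.2]
      · rw [sub_self, abs_zero]
        positivity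
      · rw [sub_self, sub_self, zero_mul, add_zero, abs_zero]
        positivity) Θ Θ' hΘ
    (fun ω ω' x y e => hf ω ω' x y (hΘ ω ω' x y e)) hf'
  -- the comparison of the rows
  have k2 : CH q (F.sbx σ r' U' N al s t) (fun ω => (F.sbx σ r U N al s t ω, (al ω, Θ₀ ω))) ≤
      CH q (F.sbx σ r' U' N a' s t) (fun ω => (F.sbx σ r V N a s t ω, Θ' ω)) +
      (K + 2 * (3 * Real.log (12 * C + 3))) := by
    obtain ⟨Z, hZ⟩ : ∃ Z : F.Ω → _, Z = fun ω => (F.sbx σ r U N al s t ω, (al ω, Θ₀ ω)) :=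
      ⟨_, rfl⟩
    obtain ⟨Y, hY⟩ : ∃ Y : F.Ω → _, Y = F.sbx σ r' U' N al s t := ⟨_, rfl⟩
    obtain ⟨Y', hY'⟩ : ∃ Y' : F.Ω → _, Y' = F.sbx σ r' U' N a' s t := ⟨_, rfl⟩
    obtain ⟨X, hX⟩ : ∃ X : F.Ω → _, X = F.sbx σ r V N a s t := ⟨_, rfl⟩
    have zal : Det q Z al := fun ω ω' _ _ e => by
      rw [hZ] at e
      exact (Prod.ext_iff.mp (Prod.ext_iff.mp e).2).1
    have zst : Det q Z (fun ω => (s ω, t ω)) := fun ω ω' x y e => by
      rw [hZ] at e
      exact hf₀ ω ω' x y (Prod.ext_iff.mp (Prod.ext_iff.mp e).2).2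
    have zsb : Det q Z (F.sbx σ r U N al s t) := fun ω ω' _ _ e => by
      rw [hZ] at e
      exact (Prod.ext_iff.mp e).1
    -- the entropy of the frames
    have m1 : CH q Y Z ≤ CH q (fun ω => (X ω, Θ' ω)) Z + CH q Y (fun ω => ((X ω, Θ' ω), Z ω)) :=
      CH_le_add h0 Y (fun ω => (X ω, Θ' ω)) Z
    have m2 : CH q (fun ω => (X ω, Θ' ω)) Z = CH q Θ' Z + CH q X (fun ω => (Θ' ω, Z ω)) :=
      CH_chain h0 X Θ' Z
    have m3 : CH q X (fun ω => (Θ' ω, Z ω)) ≤ 3 * Real.log (12 * C + 3) := by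
      have := Vd.CH_sbx_chg (σ := σ) (a := al) (s := s) (t := t) (a' := a) (s' := s) (t' := t)
        (r := r) (U := V) (P := N) (r₀ := r) (U₀ := U) (P₀ := N) (D := 2 * C) hq (by linarith)
        le_rfl hVU le_rfl (by
          intro ω hω
          refine ⟨?_, ?_, ?_⟩
          · rw [abs_sub_comm]
            refine ((e1 ω hω).trans f1).trans ?_
            refine div_le_div_of_nonneg_right ?_ (hp V).le
            nlinarith [hp r]
          · rw [sub_self, abs_zero]
            positivity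
          · rw [sub_self, sub_self, zero_mul, add_zero, abs_zero]
            positivity) (fun ω => (Θ' ω, Z ω))
        (fun ω ω' x y e => zsb ω ω' x y (Prod.ext_iff.mp e).2)
        (fun ω ω' x y e => hf ω ω' x y (hΘ ω ω' x y (Prod.ext_iff.mp e).1))
      rw [hX]
      refine this.trans (le_of_eq ?_)
      push_cast
      ring_nf
    have m4 : CH q Y (fun ω => ((X ω, Θ' ω), Z ω)) ≤ CH q Y' (fun ω => ((X ω, Θ' ω), Z ω)) +
        CH q Y (fun ω => (Y' ω, ((X ω, Θ' ω), Z ω))) := CH_le_add h0 Y Y' _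
    have m5 : CH q Y' (fun ω => ((X ω, Θ' ω), Z ω)) ≤ CH q Y' (fun ω => (X ω, Θ' ω)) :=
      CH_mono_cond h0 fun _ _ _ _ e => (Prod.ext_iff.mp e).1
    have m6 : CH q Y (fun ω => (Y' ω, ((X ω, Θ' ω), Z ω))) ≤ 3 * Real.log (12 * C + 3) := by
      have := Vd.CH_sbx_chg (σ := σ) (a := a') (s := s) (t := t) (a' := al) (s' := s) (t' := t)
        (r := r') (U := U') (P := N) (r₀ := r') (U₀ := U') (P₀ := N) (D := 2 * C) hq (by linarith)
        le_rfl le_rfl le_rfl (by
          intro ω hω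
          refine ⟨?_, ?_, ?_⟩
          · refine (e2 ω hω).trans ?_
            refine div_le_div_of_nonneg_right ?_ (hp U').le
            nlinarith [hp r']
          · rw [sub_self, abs_zero]
            positivity
          · rw [sub_self, sub_self, zero_mul, add_zero, abs_zero]
            positivity) (fun ω => (Y' ω, ((X ω, Θ' ω), Z ω)))
        (fun ω ω' x y e => by
          rw [hY'] at e
          exact (Prod.ext_iff.mp e).1)
        (fun ω ω' x y e => by
          have z1 := (Prod.ext_iff.mp (Prod.ext_iff.mp e).2).2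
          have z2 := zal ω ω' x y z1
          have z3 := Prod.ext_iff.mp (zst ω ω' x y z1)
          exact Prod.ext z2 (Prod.ext z3.1 z3.2))
      rw [hY]
      refine this.trans (le_of_eq ?_)
      push_cast
      ring_nf
    rw [← hZ] at hK ⊢
    rw [← hY, ← hY', ← hX]
    linarith
  have c1 : ((3 : ℕ) : ℝ) * Real.log (6 * (4 * C) + 3) = 3 * Real.log (24 * C + 3) := by
    push_cast
    ring_nf
  have c2 : ((3 : ℕ) : ℝ) * Real.log (6 * (2 * C) + 3) = 3 * Real.log (12 * C + 3) := by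
    push_cast
    ring_nf
  rw [c1, c2] at k1
  linarith

end good

section chain

variable {J : ℕ} {F : Fam 3 J} {q : F.Ω → ℝ} {σ : Fin 3 → Fin 3} {Λ : Type}

/-- The constant of a cell. -/
noncomputable def Kc (n : ℕ) (C : ℝ) : ℝ :=
  (n + 1) * Real.log (4 * C + 1) + 3 * (3 * Real.log (12 * C + 3)) + 3 * Real.log (24 * C + 3)

/-- **The chain over the mesh.** -/
theorem chain (hq : IsLaw q) {n N : ℕ} (r U : ℕ → ℕ) {C : ℝ} (hC : 1 ≤ C)
    (hr : ∀ i < n, r i ≤ r (i + 1)) (hrN : ∀ i ≤ n, r i ≤ N) (hUN : ∀ i ≤ n, U i ≤ N)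
    (hrU : ∀ i ≤ n, r i ≤ U i) {al s t : F.Ω → ℝ} (a : ℕ → F.Ω → ℝ) (κ : F.Ω → Λ)
    (hal : ∀ ω, 0 < q ω → |al ω| ≤ C) (hs : ∀ ω, 0 < q ω → |s ω| ≤ 4 ∧ |t ω| ≤ 4)
    (hst : Det q κ (fun ω => (s ω, t ω)))
    (hg : ∀ j ≤ n, ∀ ω, 0 < q ω → ∃ z : ℤ, a j ω = z / 2 ^ (U j - r j))
    (hn : ∀ j ≤ n, ∀ ω, 0 < q ω → |al ω - a j ω| ≤ C / 2 ^ (U j - r j)) (c : ℕ → ℝ)
    (hc : ∀ i < n, (∃ g : ℝ, g ≤ CH q (F.sbx σ (r (i + 1)) (U (i + 1)) N al s t)
        (fun ω => (F.sbx σ (r i) (U i) N al s t ω, (al ω, (κ ω, F.W ω)))) ∧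
        (((r (i + 1) : ℝ) - r i) + ((U (i + 1) : ℝ) - (min (U i) (U (i + 1)) : ℕ))) * Real.log 2 -
          g + Kc n C ≤ c i) ∨
      F.vdf q σ (r i) (U i) N (a i) s t (fun ω => (acc κ a i ω, F.W ω)) ≤
        F.vdf q σ (r (i + 1)) (U (i + 1)) N (a (i + 1)) s t
          (fun ω => ((acc κ a i ω, a (i + 1) ω), F.W ω)) + c i) :
    (((N : ℝ) - r 0) + ((N : ℝ) - U 0)) * Real.log 2 -
      (((N : ℝ) - r n) + ((N : ℝ) - U n)) * Real.log 2 - ∑ i ∈ range n, c i ≤
      CH q (F.X N) (fun ω => (κ ω, F.W ω)) := by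
  have h0 := hq.nonneg
  have step : ∀ i < n, F.vdf q σ (r i) (U i) N (a i) s t (fun ω => (acc κ a i ω, F.W ω)) ≤
      F.vdf q σ (r (i + 1)) (U (i + 1)) N (a (i + 1)) s t
        (fun ω => (acc κ a (i + 1) ω, F.W ω)) + c i := by
    intro i hi
    rcases hc i hi with ⟨g, hg1, hg2⟩ | h
    · have hfd : ∀ j, j ≤ i + 1 → Vd.Fd q (fun ω => (acc κ a (i + 1) ω, F.W ω)) (a j) s t := by
        intro j hj ω ω' x y e
        have e1 := acc_eq.1 (Prod.ext_iff.mp e).1
        have e2 := Prod.ext_iff.mp (hst ω ω' x y e1.1)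
        exact Prod.ext (e1.2 j hj) (Prod.ext e2.1 e2.2)
      have hfd' : Vd.Fd q (fun ω => (acc κ a i ω, F.W ω)) (a i) s t := by
        intro ω ω' x y e
        have e1 := acc_eq.1 (Prod.ext_iff.mp e).1
        have e2 := Prod.ext_iff.mp (hst ω ω' x y e1.1)
        exact Prod.ext (e1.2 i le_rfl) (Prod.ext e2.1 e2.2)
      have hK : CH q (fun ω => (acc κ a (i + 1) ω, F.W ω)) (fun ω =>
          (F.sbx σ (r i) (U i) N al s t ω, (al ω, (κ ω, F.W ω)))) ≤
          (n + 1) * Real.log (4 * C + 1) := by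
        have k1 : CH q (fun ω => (acc κ a (i + 1) ω, F.W ω)) (fun ω =>
          (F.sbx σ (r i) (U i) N al s t ω, (al ω, (κ ω, F.W ω)))) ≤
            CH q (acc κ a (i + 1)) (fun ω =>
          (F.sbx σ (r i) (U i) N al s t ω, (al ω, (κ ω, F.W ω)))) := by
          refine CH_mono_left h0 ?_
          intro ω ω' _ _ e
          have e1 := Prod.ext_iff.mp e
          exact Prod.ext e1.1 (Prod.ext_iff.mp (Prod.ext_iff.mp (Prod.ext_iff.mp e1.2).2).2).2
        have k2 := CH_acc hq κ (fun j => U j - r j) al a (i + 1) (C := C)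
          (fun j hj => hg j (by omega)) (fun j hj => hn j (by omega)) (fun ω =>
          (F.sbx σ (r i) (U i) N al s t ω, (al ω, (κ ω, F.W ω))))
          (fun _ _ _ _ e => (Prod.ext_iff.mp (Prod.ext_iff.mp e).2).1)
          (fun _ _ _ _ e => (Prod.ext_iff.mp (Prod.ext_iff.mp (Prod.ext_iff.mp e).2).2).1)
        refine (k1.trans k2).trans ?_
        refine mul_le_mul_of_nonneg_right ?_ (Real.log_nonneg (by linarith))
        have : ((i + 1 : ℕ) : ℝ) ≤ n := by exact_mod_cast hi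
        linarith
      have key := good_step (σ := σ) hq hC (hr i hi) (hrN (i + 1) hi) (hUN (i + 1) hi)
        (hrU i hi.le) (hrU (i + 1) hi) hal hs (hn i hi.le) (hn (i + 1) hi)
        (fun ω => (acc κ a i ω, F.W ω)) (fun ω => (acc κ a (i + 1) ω, F.W ω))
        (fun ω => (κ ω, F.W ω)) (K := (n + 1) * Real.log (4 * C + 1))
        (fun ω ω' _ _ e => Prod.ext (acc_mono (Nat.le_succ i) (Prod.ext_iff.mp e).1)
          (Prod.ext_iff.mp e).2) hfd' (hfd (i + 1) le_rfl)
        (fun ω ω' x y e => hst ω ω' x y (Prod.ext_iff.mp e).1) hK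
      unfold Kc at hg2
      linarith
    · refine h.trans ?_
      have := Vd.vdf_cond (σ := σ) (r := r (i + 1)) (U := U (i + 1)) (N := N) (a := a (i + 1))
        (s := s) (t := t) hq (fun ω => ((acc κ a i ω, a (i + 1) ω), F.W ω))
        (fun ω => (acc κ a (i + 1) ω, F.W ω)) (fun ω ω' _ _ e => by
          have e1 := Prod.ext_iff.mp e
          exact Prod.ext (Prod.ext (acc_mono (Nat.le_succ i) e1.1)
            ((acc_eq.1 e1.1).2 (i + 1) le_rfl)) e1.2)
      linarith
  have tot : ∀ m ≤ n, F.vdf q σ (r 0) (U 0) N (a 0) s t (fun ω => (acc κ a 0 ω, F.W ω)) ≤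
      F.vdf q σ (r m) (U m) N (a m) s t (fun ω => (acc κ a m ω, F.W ω)) +
        ∑ i ∈ range m, c i := by
    intro m
    induction m with
    | zero => intro _; simp
    | succ m ih =>
      intro hm
      have k1 := ih (by omega)
      have k2 := step m (by omega)
      rw [Finset.sum_range_succ]
      linarith
  have k1 := tot n le_rfl
  have k2 : F.vdf q σ (r n) (U n) N (a n) s t (fun ω => (acc κ a n ω, F.W ω)) ≤
      (((N : ℝ) - r n) + ((N : ℝ) - U n)) * Real.log 2 := by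
    unfold Fam.vdf
    have := CH_nonneg h0 (F.X N) (fun ω => (F.sbx σ (r n) (U n) N (a n) s t ω,
      (acc κ a n ω, F.W ω)))
    linarith
  have k3 : CH q (F.X N) (fun ω => (F.sbx σ (r 0) (U 0) N (a 0) s t ω,
      (acc κ a 0 ω, F.W ω))) ≤ CH q (F.X N) (fun ω => (κ ω, F.W ω)) := by
    refine CH_mono_cond h0 ?_
    intro ω ω' _ _ e
    have e1 := Prod.ext_iff.mp (Prod.ext_iff.mp e).2
    exact Prod.ext (acc_eq.1 e1.1).1 e1.2
  unfold Fam.vdf at k1 k2
  linarith

end chain

section exhaust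

variable {Ω S T : Type} [Fintype Ω] {p : Ω → ℝ}

/-- Conditional entropies are superadditive in the weight. -/
theorem CH_sup {f g : Ω → ℝ} (hf : ∀ ω, 0 ≤ f ω) (hg : ∀ ω, 0 ≤ g ω) (X : Ω → S) (Z : Ω → T) :
    CH f X Z + CH g X Z ≤ CH (fun ω => f ω + g ω) X Z := by
  obtain ⟨Q, hQ⟩ : ∃ Q : Ω × Bool → ℝ, Q = fun w => if w.2 then f w.1 else g w.1 := ⟨_, rfl⟩
  have h0 : ∀ w, 0 ≤ Q w := by
    intro w
    rw [hQ]
    show 0 ≤ if w.2 then f w.1 else g w.1
    split_ifs
    · exact hf _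
    · exact hg _
  have k1 := Pool.DPL.CH_marg Q X Z
  have k2 := Pool.DPL.CH_slice Q X Z
  have k3 : CH Q (fun w => X w.1) (fun w => (w.2, Z w.1)) ≤ CH Q (fun w => X w.1)
      (fun w => Z w.1) := CH_mono_cond h0 fun _ _ _ _ e => (Prod.ext_iff.mp e).2
  rw [Fintype.sum_bool] at k2
  have e1 : (fun ω => ∑ i, Q (ω, i)) = fun ω => f ω + g ω := by
    funext ω
    rw [Fintype.sum_bool, hQ]
    simp
  have e2 : (fun ω => Q (ω, true)) = f := by
    funext ω
    rw [hQ]
    simp
  have e3 : (fun ω => Q (ω, false)) = g := by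
    funext ω
    rw [hQ]
    simp
  rw [e1] at k1
  rw [e2, e3] at k2
  linarith

/-- **Exhaustion.** -/
theorem exh (hp : IsLaw p) {A : Ω → Prop} (hA : 0 < Pe p A) {θ L : ℝ} (hθ : 0 < θ) (hL : 0 ≤ L)
    (X : Ω → S) (Z : Ω → T)
    (h : ∀ G : Ω → Prop, Sub G A → θ * Pe p A ≤ Pe p G → ∃ B : Ω → Prop, Sub B G ∧
      0 < Pe p B ∧ L ≤ CH (Pool.Agent.H49.Ent.cond p B True) X Z) :
    (1 - θ) * L ≤ CH (Pool.Agent.H49.Ent.cond p A True) X Z := by
  classical
  have h0 := hp.nonneg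
  obtain ⟨e, he⟩ : ∃ e : (Ω → Prop) → ℝ, e = fun G => CH (fun ω => if G ω then p ω else 0) X Z :=
    ⟨_, rfl⟩
  have he1 : ∀ G, e G = Pe p G * CH (Pool.Agent.H49.Ent.cond p G True) X Z := by
    intro G
    have := Pool.DPL.CH_restr h0 G (a := 1) zero_le_one X Z
    rw [he]
    simp only [one_mul] at this
    exact this
  have he0 : ∀ G, 0 ≤ e G := by
    intro G
    rw [he]
    refine CH_nonneg ?_ X Z
    intro ω
    split_ifs
    · exact h0 ω
    · exact le_rfl
  have key : ∀ m : ℕ, ∀ G : Ω → Prop, Sub G A →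
      (univ.filter fun ω => G ω ∧ p ω ≠ 0).card ≤ m → (Pe p G - θ * Pe p A) * L ≤ e G := by
    intro m
    induction m with
    | zero =>
      intro G hG hm
      have h1 : Pe p G = 0 := by
        rw [Pe_eq]
        refine Finset.sum_eq_zero fun ω _ => ?_
        split_ifs with hω
        · by_contra hne
          have : ω ∈ univ.filter fun ω => G ω ∧ p ω ≠ 0 :=
            Finset.mem_filter.2 ⟨Finset.mem_univ _, hω, hne⟩
          rw [Nat.le_zero, Finset.card_eq_zero] at hm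
          rw [hm] at this
          exact absurd this (Finset.notMem_empty _)
        · rfl
      refine le_trans ?_ (he0 G)
      rw [h1]
      refine mul_nonpos_of_nonpos_of_nonneg ?_ hL
      have := mul_pos hθ hA
      linarith
    | succ m ih =>
      intro G hG hm
      by_cases hθG : θ * Pe p A ≤ Pe p G
      · obtain ⟨B, hB, hB0, hBL⟩ := h G hG hθG
        obtain ⟨G', hG'⟩ : ∃ G' : Ω → Prop, ∀ ω, G' ω ↔ (G ω ∧ ¬ B ω) :=
          ⟨fun ω => G ω ∧ ¬ B ω, fun _ => Iff.rfl⟩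
        have hB1 : Sub G' A := fun ω hω => hG ω ((hG' ω).1 hω).1
        have hcard : (univ.filter fun ω => G' ω ∧ p ω ≠ 0).card ≤ m := by
          obtain ⟨ω₀, hω₀, hω₀'⟩ : ∃ ω, B ω ∧ p ω ≠ 0 := by
            by_contra hcon
            push Not at hcon
            refine hB0.ne' ?_
            rw [Pe_eq]
            refine Finset.sum_eq_zero fun ω _ => ?_
            split_ifs with hω
            · exact hcon ω hω
            · rfl
          have : (univ.filter fun ω => G' ω ∧ p ω ≠ 0) ⊂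
              (univ.filter fun ω => G ω ∧ p ω ≠ 0) := by
            rw [Finset.ssubset_iff_of_subset]
            · refine ⟨ω₀, Finset.mem_filter.2 ⟨Finset.mem_univ _, hB ω₀ hω₀, hω₀'⟩, ?_⟩
              intro hmem
              exact ((hG' ω₀).1 (Finset.mem_filter.1 hmem).2.1).2 hω₀
            · intro ω hω
              have := (Finset.mem_filter.1 hω).2
              exact Finset.mem_filter.2 ⟨Finset.mem_univ _, ((hG' ω).1 this.1).1, this.2⟩
          have := Finset.card_lt_card this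
          omega
        have k1 := ih G' hB1 hcard
        have k2 : e B + e G' ≤ e G := by
          have := CH_sup (f := fun ω => if B ω then p ω else 0)
            (g := fun ω => if G' ω then p ω else 0)
            (fun ω => by
              show 0 ≤ if B ω then p ω else 0
              split_ifs
              · exact h0 ω
              · exact le_rfl)
            (fun ω => by
              show 0 ≤ if G' ω then p ω else 0
              split_ifs
              · exact h0 ω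
              · exact le_rfl) X Z
          have e1 : (fun ω => (if B ω then p ω else 0) + (if G' ω then p ω else 0)) =
              fun ω => if G ω then p ω else 0 := by
            funext ω
            by_cases h1 : B ω
            · have h2 := hB ω h1
              have h3 : ¬ G' ω := fun h => ((hG' ω).1 h).2 h1
              rw [if_pos h1, if_neg h3, if_pos h2, add_zero]
            · by_cases h2 : G ω
              · have h3 : G' ω := (hG' ω).2 ⟨h2, h1⟩
                rw [if_neg h1, if_pos h3, if_pos h2, zero_add]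
              · have h3 : ¬ G' ω := fun h => h2 ((hG' ω).1 h).1
                rw [if_neg h1, if_neg h3, if_neg h2, zero_add]
          rw [e1] at this
          rw [he]
          exact this
        have k3 : Pe p G = Pe p B + Pe p G' := by
          rw [Pe_eq, Pe_eq, Pe_eq, ← Finset.sum_add_distrib]
          refine Finset.sum_congr rfl fun ω _ => ?_
          by_cases h1 : B ω
          · have h2 := hB ω h1
            have h3 : ¬ G' ω := fun h => ((hG' ω).1 h).2 h1
            rw [if_pos h1, if_neg h3, if_pos h2, add_zero]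
          · by_cases h2 : G ω
            · have h3 : G' ω := (hG' ω).2 ⟨h2, h1⟩
              rw [if_neg h1, if_pos h3, if_pos h2, zero_add]
            · have h3 : ¬ G' ω := fun h => h2 ((hG' ω).1 h).1
              rw [if_neg h1, if_neg h3, if_neg h2, zero_add]
        have k4 : Pe p B * L ≤ e B := by
          rw [he1]
          exact mul_le_mul_of_nonneg_left hBL hB0.le
        rw [k3]
        have : (Pe p B + Pe p G' - θ * Pe p A) * L =
          Pe p B * L + (Pe p G' - θ * Pe p A) * L := by ring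
        linarith
      · push Not at hθG
        refine le_trans ?_ (he0 G)
        exact mul_nonpos_of_nonpos_of_nonneg (by linarith) hL
  have k := key _ A (fun _ h => h) le_rfl
  rw [he1] at k
  have : (Pe p A - θ * Pe p A) * L = Pe p A * ((1 - θ) * L) := by ring
  rw [this] at k
  exact le_of_mul_le_mul_left k hA

end exhaust

end Uvp

end Pool.S6C
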