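import Pool.Agent.H51.S6.Ws

/-!
# The engine of S6 from its five cases
-/

set_option autoImplicit false

namespace Pool.S6C

open Finset Real
open Pool.Agent.H49.Ent Pool.Agent.H32.Dense Pool.STK Pool.KA Pool.KSAT Pool.K2S Pool.PB Pool.KS6
  Pool.Sel51

/-- The thickness which is visible at the rows of `K` has the same value and slope. -/
theorem vis_slp {K : Set ℝ} {W : ℝ → ℝ} {f : ℚ → ℝ} {fQ : ℝ → ℚ → ℝ} {Q g s : ℝ}
    (hf : ∀ g' ∈ K, IsWs g' f (W g')) (hfQ : ∀ g' ∈ K, IsWs g' (fQ g') (W g'))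
    (hmQ : ∀ w w' : ℚ, 0 ≤ w → w ≤ w' → (w' : ℝ) ≤ Q → fQ Q w ≤ fQ Q w')
    (hrow : ∀ g' ∈ K, g' ≤ Q → ∀ w : ℚ, 0 ≤ w → w ≤ 1 → fQ g' w ≤ fQ Q w)
    (hle : ∀ w : ℚ, 0 ≤ w → w ≤ 1 → fQ Q w ≤ f w) (hgQ : g < Q)
    (hd : Dns K g) (hs0 : 0 ≤ s) (h0 : 0 < W g) (h1 : W g < 1) (hWQ : W g < Q)
    (hirr : ∀ q : ℚ, (q : ℝ) ≠ W g) (hs : Slp f (W g) g s) : Slp (fQ Q) (W g) g s := by
  obtain ⟨x, hx⟩ : ∃ x, x = W g := ⟨_, rfl⟩
  rw [← hx] at h0 h1 hWQ hirr hs ⊢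
  intro ε hε
  obtain ⟨ε', he0, he1, he2⟩ : ∃ ε' : ℝ, 0 < ε' ∧ ε' ≤ 1 ∧ ε' * (s + 3) ≤ ε / 2 := by
    refine ⟨min 1 (ε / 2 / (s + 3)), lt_min one_pos (by positivity), min_le_left _ _, ?_⟩
    calc min 1 (ε / 2 / (s + 3)) * (s + 3) ≤ ε / 2 / (s + 3) * (s + 3) :=
          mul_le_mul_of_nonneg_right (min_le_right _ _) (by linarith only [hs0, h1, h0])
      _ = ε / 2 := div_mul_cancel₀ _ (by linarith)
  obtain ⟨δ, hδ, h2⟩ := hs ε' he0
  obtain ⟨η, hη⟩ : ∃ η : ℝ, η = ε / 2 / (s + ε) := ⟨_, rfl⟩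
  have hη0 : 0 < η := by rw [hη]; positivity
  obtain ⟨δ', hδ', h3⟩ := hd η hη0
  obtain ⟨m₁, hm₁⟩ : ∃ m₁, m₁ = min (1 - x) (Q - x) := ⟨_, rfl⟩
  have hm₁0 : 0 < m₁ := by rw [hm₁]; exact lt_min (by linarith only [h1]) (by linarith only [hWQ])
  have hm₁1 : m₁ ≤ 1 - x := by rw [hm₁]; exact min_le_left _ _
  have hm₁2 : m₁ ≤ Q - x := by rw [hm₁]; exact min_le_right _ _
  obtain ⟨δ₁, hδ₁, h4, h5, h6, h7, h8⟩ : ∃ δ₁ : ℝ, 0 < δ₁ ∧ 2 * δ₁ ≤ δ ∧ 2 * δ₁ ≤ x ∧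
      2 * δ₁ ≤ m₁ ∧ (s + ε) * δ₁ ≤ δ' / 2 ∧ (s + ε) * δ₁ ≤ (Q - g) / 2 := by
    refine ⟨min (min (δ / 2) (x / 2)) (min (m₁ / 2)
      (min (δ' / 2 / (s + ε)) ((Q - g) / 2 / (s + ε)))), ?_, ?_, ?_, ?_, ?_, ?_⟩
    · refine lt_min (lt_min (by linarith only [hδ]) (by linarith only [h0])) (lt_min (by linarith only [hm₁0]) (lt_min ?_ ?_))
      · positivity
      · exact div_pos (by linarith) (by linarith)
    · have := (min_le_left (min (δ / 2) (x / 2)) (min (m₁ / 2)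
        (min (δ' / 2 / (s + ε)) ((Q - g) / 2 / (s + ε))))).trans (min_le_left _ _)
      linarith only [this]
    · have := (min_le_left (min (δ / 2) (x / 2)) (min (m₁ / 2)
        (min (δ' / 2 / (s + ε)) ((Q - g) / 2 / (s + ε))))).trans (min_le_right _ _)
      linarith only [this]
    · have := (min_le_right (min (δ / 2) (x / 2)) (min (m₁ / 2)
        (min (δ' / 2 / (s + ε)) ((Q - g) / 2 / (s + ε))))).trans (min_le_left _ _)
      linarith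
    · have := (min_le_right (min (δ / 2) (x / 2)) (min (m₁ / 2)
        (min (δ' / 2 / (s + ε)) ((Q - g) / 2 / (s + ε))))).trans
        ((min_le_right _ _).trans (min_le_left _ _))
      have h9 := mul_le_mul_of_nonneg_left this (show 0 ≤ s + ε by linarith)
      rwa [mul_div_cancel₀ _ (show s + ε ≠ 0 by linarith only [hs0, hε])] at h9
    · have := (min_le_right (min (δ / 2) (x / 2)) (min (m₁ / 2)
        (min (δ' / 2 / (s + ε)) ((Q - g) / 2 / (s + ε))))).trans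
        ((min_le_right _ _).trans (min_le_right _ _))
      have h9 := mul_le_mul_of_nonneg_left this (show 0 ≤ s + ε by linarith)
      rwa [mul_div_cancel₀ _ (show s + ε ≠ 0 by linarith only [hs0, hε])] at h9
  refine ⟨δ₁, hδ₁, fun q hq => ?_⟩
  obtain ⟨T, hT⟩ : ∃ T : ℝ, T = |(q : ℝ) - x| := ⟨_, rfl⟩
  rw [← hT] at hq
  have hT0 : 0 < T := by
    rw [hT, abs_pos, sub_ne_zero]
    exact hirr q
  have hqx := abs_le.1 (le_of_eq hT.symm)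
  have hq0 : (0 : ℝ) ≤ q := by linarith only [h5, hq, hT0, hqx]
  have hq1 : (q : ℝ) ≤ 1 := by linarith only [hm₁1, h6, hq, hT0, hqx]
  have hq0' : (0 : ℚ) ≤ q := by exact_mod_cast hq0
  have hq1' : (q : ℚ) ≤ 1 := by exact_mod_cast hq1
  have hup : f q ≤ g + s * (q - x) + ε' * T := by
    have := h2 q (by rw [← hT]; linarith only [h4, hq, hT0])
    rw [← hT, abs_le] at this
    linarith only [this, this.2]
  have hεs : ε' ≤ ε := by nlinarith only [hε, he2, hs0, he0]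
  rw [← hT, abs_le]
  refine ⟨?_, ?_⟩
  · -- lower bound
    -- a slightly smaller window
    obtain ⟨q₁, a1, a2⟩ := exists_rat_btwn (show (q : ℝ) - ε' * T < q by nlinarith only [he0, hT0])
    have hεT : ε' * T ≤ T := by nlinarith only [he1, hT0]
    have hq₁ : |(q₁ : ℝ) - x| ≤ 2 * T := by
      rw [abs_le]
      constructor <;> linarith
    have hq₁0 : (0 : ℝ) ≤ q₁ := by linarith only [h5, hq, hqx, a1, hεT]
    have hlow : g + s * (q - x) - ε / 2 * T ≤ f q₁ := by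
      have h9 := h2 q₁ (by linarith only [h4, hq, hq₁])
      rw [abs_le] at h9
      have h10 := h9.1
      have h11 : ε' * |(q₁ : ℝ) - x| ≤ ε' * (2 * T) := mul_le_mul_of_nonneg_left hq₁ he0.le
      have h12 : s * ((q : ℝ) - q₁) ≤ s * (ε' * T) := mul_le_mul_of_nonneg_left (by linarith only [a1]) hs0
      have h13 : ε' * (s + 3) * T ≤ ε / 2 * T := mul_le_mul_of_nonneg_right he2 hT0.le
      nlinarith only [a1, a2, h9, h11, h12, h13]
    -- a row of `K`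
    obtain ⟨g', b1, b2, b3⟩ := h3 (g + s * (q - x) - ε * T) (g + s * (q - x) - ε / 2 * T) (by
        have h9 : -(s * T) ≤ s * (q - x) := by nlinarith only [hs0, hqx]
        nlinarith only [h7, h9, hs0, hq, h1, hδ', h0, hε]) (by nlinarith only [hε, hT0]) (by
        have h9 : s * (q - x) ≤ s * T := mul_le_mul_of_nonneg_left hqx.2 hs0
        nlinarith only [h7, h9, hs0, hq, h1, hδ', h0, hε, hδ₁, hT0]) (by
        have h9 : -(s * T) ≤ s * (q - x) := by nlinarith only [hs0, hqx]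
        have h10 : s * (q - x) ≤ s * T := mul_le_mul_of_nonneg_left hqx.2 hs0
        have h11 : max |g + s * (q - x) - ε * T - g| |g + s * (q - x) - ε / 2 * T - g| ≤
            (s + ε) * T := by
          refine max_le ?_ ?_
          · rw [abs_le]
            constructor <;> nlinarith
          · rw [abs_le]
            constructor <;> nlinarith
        calc η * _ ≤ η * ((s + ε) * T) := mul_le_mul_of_nonneg_left h11 hη0.le
          _ = ε / 2 * T := by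
            rw [hη]
            have : s + ε ≠ 0 := by linarith only [hs0, hε]
            field_simp
          _ ≤ _ := by linarith only)
    have hg'Q : g' ≤ Q := by
      have h9 : s * (q - x) ≤ s * T := mul_le_mul_of_nonneg_left hqx.2 hs0
      nlinarith only [h8, h9, hgQ, hm₁1, h5, h6, hq, a1, a2, hεT, hs0, h1, b2, b3, h0, hε, hδ₁]
    have hW : W g' ≤ q₁ := (hf g' b1).le_of_lt (by exact_mod_cast hq₁0) (by linarith only [hlow, b3])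
    have hval : g' ≤ fQ Q q := by
      refine le_of_forall_pos_le_add fun e he => ?_
      obtain ⟨p, hp0, hp1, hp2, hp3⟩ := (hfQ g' b1).1 e he q (by linarith only [a2, hW])
      have e1 := hmQ p q hp0 (by exact_mod_cast hp2.le) (by linarith only [hm₁2, h6, hq, hqx, a1, a2, hεT])
      have e2 := hrow g' b1 hg'Q p hp0 hp1
      linarith only [hp3, e1, e2]
    linarith only [b2, hval]
  · have := hle q hq0' hq1'
    have h9 : ε' * T ≤ ε * T := mul_le_mul_of_nonneg_right hεs hT0.le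
    linarith only [hup, this, h9]

/-- The local data at a pair of rows of `K'`. -/
theorem SD.loc {S : PCl 3} {i₀ : Fin 3} {c s₂ : ℝ} {r : ℝ → ℝ} {D : Set ℝ} {σ : ℝ → Row}
    {act : ℚ → ℝ} {K : Set ℝ} {W : ℝ → ℝ} {v₁ t : ℚ} {e₁ κ : ℝ} {K' : Set ℝ} {Q₀ C : ℝ} {w₁ : ℚ}
    {V0 V Rh : ℝ → ℝ} {Γ : ℝ → ℝ → Prop}
    (h : SD S i₀ c s₂ r D σ act K W v₁ t e₁ κ K' Q₀ C w₁ V0 V Rh Γ) {P g a₀ α : ℝ}
    (hP : P ∈ K') (hg : g ∈ K') (hgP : g < P) (h1 : P - g < e₁)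
    (h2 : P - g < (σ Q₀).pi - (σ 1).rot w₁) (h3 : P - g < (σ 1).pi - (σ 1).rot w₁)
    (h4 : P - W g < (σ 1).sN v₁ t) (h5 : P - W g < t - v₁ + e₁) (hα : 0 < α)
    (hasl : Slp act (P - g) a₀ α) :
    Loc S i₀ c s₂ r D σ act K W v₁ t e₁ Q₀ P g (V0 g) (V g) (Rh g) a₀ α where
  pr := h.pr
  adm := h.adm
  room := h.room
  mono := h.mono
  top := h.top
  row := h.sub hP
  thk := h.sub hg
  gP := hgP
  PQ := h.lt P hP
  WQ := (h.lw P hP).trans h.w1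
  dP := h.dens P hP
  dg := h.dens g hg
  rate := h.rate P hP
  v0 := (h.rot g hg).1
  rot := (h.rot g hg).2
  rotQ := fun Q hQ _ w hw0 hw => h.rotQ Q hQ w hw0 hw
  ρ0 := (h.th g hg).1
  th := (h.th g hg).2
  thQ := fun Q hQ hgQ => h.thQ g hg Q hQ hgQ
  beta := ⟨w₁, h.lw P hP, h.w1, by linarith only [h2], by linarith⟩
  small := h1
  vel := h5
  gam := h4
  w0 := (h.pr g (h.sub hg)).ws0
  wP := h.wQ P (h.sub hP)
  actN := h.actN
  amono := h.amono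
  alip := h.alip
  α0 := hα
  aslp := hasl

/-- There is a pair of rows with the local data. -/
theorem SD.point {S : PCl 3} {i₀ : Fin 3} {c s₂ : ℝ} {r : ℝ → ℝ} {D : Set ℝ} {σ : ℝ → Row}
    {act : ℚ → ℝ} {K : Set ℝ} {W : ℝ → ℝ} {v₁ t : ℚ} {e₁ κ : ℝ} {K' : Set ℝ} {Q₀ C : ℝ} {w₁ : ℚ}
    {V0 V Rh : ℝ → ℝ} {Γ : ℝ → ℝ → Prop}
    (h : SD S i₀ c s₂ r D σ act K W v₁ t e₁ κ K' Q₀ C w₁ V0 V Rh Γ) :
    ∃ P g a₀ α : ℝ, Loc S i₀ c s₂ r D σ act K W v₁ t e₁ Q₀ P g (V0 g) (V g) (Rh g) a₀ α ∧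
      Γ (V g) (Rh g) := by
  obtain ⟨A, hAm, hA1, hA2⟩ := act_dens h.amono h.alip
  obtain ⟨q₀, hq00, hq01, hactl⟩ := h.akap
  have hκ := h.κ0
  have hAd : ∃ x₀ > 0, ∀ y : ℝ, 0 < y → y ≤ x₀ →
      ENNReal.ofReal (κ / 2 * y) ≤ MeasureTheory.volume (A ∩ Set.Ioo 0 y) := by
    refine ⟨(q₀ : ℝ), by exact_mod_cast hq00, fun y hy0 hy => ?_⟩
    obtain ⟨q, h1, h2⟩ := exists_rat_btwn (show y / 2 < y by linarith only [hy0])
    have hq0 : (0 : ℝ) < q := by linarith only [h1, h2]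
    have hqq : q ≤ q₀ := by
      have : (q : ℝ) ≤ q₀ := by linarith
      exact_mod_cast this
    have hq0' : (0 : ℚ) < q := by exact_mod_cast hq0
    refine le_trans (le_trans (ENNReal.ofReal_le_ofReal ?_) (hA2 q hq0' (hqq.trans hq01)))
      (MeasureTheory.measure_mono (Set.inter_subset_inter_right _
        (Set.Ioo_subset_Ioo_right h2.le)))
    have h3 := hactl q hq0'.le hqq
    rw [h.act0, sub_zero]
    have : κ / 2 * y = κ * (y / 2) := by ring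
    rw [this]
    have := mul_le_mul_of_nonneg_left h1.le hκ.le
    linarith only [h3, this]
  obtain ⟨P, hP, -, -, hsel⟩ := sel h.pos (W := W) (C := C) h.C0
    (fun P hP => ⟨1 / C, by have := h.C0; positivity, fun g hg h1 h2 =>
      h.lemc P hP g (h.sub hg) h1 h2⟩) hAm (ρ₀ := κ / 2) (by linarith) hAd
    (N := ∅) (N' := ∅) MeasureTheory.measure_empty MeasureTheory.measure_empty
  have hPK := h.sub hP
  have h1 := h.room P hPK
  have h2 := h.adm.vel P hPK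
  have h3 := h.beta
  obtain ⟨ε, hε⟩ : ∃ ε, ε = min (min ((σ Q₀).pi - (σ 1).rot w₁) ((σ 1).pi - (σ 1).rot w₁))
    (min ((σ 1).sN v₁ t - (P - W P)) (min (t - v₁ + e₁ - (P - W P)) e₁)) := ⟨_, rfl⟩
  obtain ⟨g, hg, -, -, hgP, hgε, hgA⟩ := hsel ε (by
    rw [hε]
    exact lt_min (lt_min (by linarith) (by linarith)) (lt_min (by linarith)
      (lt_min (by linarith) h.adm.e0)))
  rw [hε] at hgε
  obtain ⟨-, -, a₀, α, hα, hasl⟩ := hA1 _ hgA
  have hW := (h.mono g (h.sub hg) P hPK hgP.le).2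
  have hgε1 := lt_of_lt_of_le hgε ((min_le_left _ _).trans (min_le_left _ _))
  have hgε2 := lt_of_lt_of_le hgε ((min_le_left _ _).trans (min_le_right _ _))
  have hgε3 := lt_of_lt_of_le hgε ((min_le_right _ _).trans (min_le_left _ _))
  have hgε4 := lt_of_lt_of_le hgε
    ((min_le_right _ _).trans ((min_le_right _ _).trans (min_le_left _ _)))
  have hgε5 := lt_of_lt_of_le hgε
    ((min_le_right _ _).trans ((min_le_right _ _).trans (min_le_right _ _)))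
  exact ⟨P, g, a₀, α, h.loc hP hg hgP hgε5 hgε1 hgε2 (by linarith) (by linarith) hα hasl,
    h.cond g hg⟩

/-- A case at one point gives the case on a set. -/
theorem CaseStmt.set {Γ : ℝ → ℝ → Prop} (h : CaseStmt Γ) : CaseSetStmt Γ := by
  intro S a R h₁ i₀ c s₂ r D σ hC act K W v₁ t e₁ κ K' Q₀ C w₁ V0 V Rh hSD
  obtain ⟨P, g, a₀, α, hL, hΓ⟩ := hSD.point
  exact h S a R h₁ i₀ c s₂ r D σ hC act K W v₁ t e₁ Q₀ P g _ _ _ a₀ α hL hΓ

/-- The data on sets without a condition on the slopes. -/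
theorem sd_exists (hTHS : THSStmt) (hRQ : RQStmt) (hRW : RWStmt) (hACT : ACTStmt)
    (hLEMC : LEMCStmt) {S₀ : PCl 3} {a R h₁ : ℝ} {i₀ : Fin 3} {c s₂ : ℝ} {r : ℝ → ℝ} {D : Set ℝ}
    {σ : ℝ → Row} (hC₀ : Cs S₀ a R h₁ i₀ c s₂ r D σ) {K : Set ℝ} {W : ℝ → ℝ} {v₁ t : ℚ} {e₁ : ℝ}
    (hK : MeasureTheory.volume K ≠ 0) (hPR : ∀ Q ∈ K, PR c r D σ Q (W Q))
    (hAdm : Adm σ K W v₁ t e₁) (hroom : ∀ Q ∈ K, Q - W Q < (σ 1).sN v₁ t) :
    ∃ (S : PCl 3) (act : ℚ → ℝ) (κ : ℝ) (K' : Set ℝ) (Q₀ C : ℝ) (w₁ : ℚ) (V0 V Rh : ℝ → ℝ),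
      SubC S S₀ ∧ SD S i₀ c s₂ r D σ act K W v₁ t e₁ κ K' Q₀ C w₁ V0 V Rh fun _ _ => True := by
  obtain ⟨S, act, κ, hsub, hact, hact0, hamono, halip, hκ, q₀, hq00, hq01, hactl⟩ :=
    hACT S₀ a R h₁ i₀ c s₂ r D σ hC₀
  have hC := hC₀.le hsub
  -- the numbers
  have hK01 : ∀ Q ∈ K, 0 < Q ∧ Q ≤ 1 ∧ Q ∉ D := fun Q hQ =>
    ⟨by linarith only [hPR, hQ, (hPR Q hQ).half], (hPR Q hQ).lt1.le, (hPR Q hQ).nD⟩
  have h1D := hC.D1
  have hT1 : ∀ w w' : ℚ, 0 ≤ w → w ≤ w' → w' ≤ 1 →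
      min 1 ((σ 1).th w + ((w' : ℝ) - w)) ≤ (σ 1).th w' ∧ (w' : ℝ) ≤ (σ 1).th w' ∧
      (σ 1).th w ≤ (σ 1).th w' := fun w w' h0 h1 h2 =>
    hTHS S a R h₁ i₀ c s₂ r D σ hC 1 one_pos le_rfl h1D w w' h0 h1 (by exact_mod_cast h2)
  have hGm : ∀ w w' : ℚ, 0 ≤ w → w ≤ w' → w' ≤ 1 → (σ 1).th w ≤ (σ 1).th w' :=
    fun w w' h0 h1 h2 => (hT1 w w' h0 h1 h2).2.2
  have hRm : ∀ w w' : ℚ, 0 ≤ w → w ≤ w' → w' ≤ 1 → (σ 1).rot w ≤ (σ 1).rot w' :=
    fun w w' h0 h1 h2 => hRW S a R h₁ i₀ c s₂ r D σ hC 1 one_pos le_rfl h1D w w' h0 h1 h2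
  have hGs : ∀ w w' : ℚ, 0 ≤ w → w ≤ w' → w' ≤ 1 →
      min 1 ((σ 1).th w + ((w' : ℝ) - w)) ≤ (σ 1).th w' :=
    fun w w' h0 h1 h2 => (hT1 w w' h0 h1 h2).1
  have hWQ : ∀ Q ∈ K, W Q ≤ Q := by
    intro Q hQ
    by_contra hcon
    push Not at hcon
    obtain ⟨q, hq1, hq2⟩ := exists_rat_btwn hcon
    have hq0 : (0 : ℚ) ≤ q := by
      have := (hK01 Q hQ).1
      have : (0 : ℝ) ≤ q := by linarith
      exact_mod_cast this
    have hq3 : q ≤ 1 := by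
      have := (hPR Q hQ).isWs1.le_one
      have : (q : ℝ) ≤ 1 := by linarith
      exact_mod_cast this
    have h1 := (hT1 0 q le_rfl hq0 hq3).2.1
    have h2 := (hPR Q hQ).isWs1.le_of_lt hq0 (by linarith)
    linarith
  have hW : ∀ Q ∈ K, ∀ Q' ∈ K, Q ≤ Q' → W Q ≤ W Q' ∧ W Q' - W Q ≤ Q' - Q := by
    intro Q hQ Q' hQ' hle
    exact ⟨(hPR Q hQ).isWs1.mono (hPR Q' hQ').isWs1 hle,
      (hPR Q hQ).isWs1.lip (hPR Q' hQ').isWs1 hle (hK01 Q' hQ').2.1 hGs⟩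
  -- rows with a uniform constant in LEMMA C
  obtain ⟨N₁, hN₁, hLC⟩ := hLEMC S a R h₁ i₀ c s₂ r D σ hC K W hPR
  obtain ⟨Kn, hKn⟩ : ∃ Kn : ℕ → Set ℝ, Kn = fun n : ℕ => {g : ℝ | g ∈ K ∧ ∀ g' ∈ K,
      g - 1 / ((n : ℝ) + 1) < g' → g' < g → (g - g') / ((n : ℝ) + 1) ≤ W g - W g'} := ⟨_, rfl⟩
  obtain ⟨n, hn⟩ : ∃ n, MeasureTheory.volume (Kn n) ≠ 0 := by
    by_contra hcon
    push Not at hcon
    refine hK (MeasureTheory.measure_mono_null (t := (⋃ n, Kn n) ∪ N₁) ?_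
      (MeasureTheory.measure_union_null (MeasureTheory.measure_iUnion_null hcon) hN₁))
    intro g hg
    by_cases hgN : g ∈ N₁
    · exact Or.inr hgN
    · left
      obtain ⟨C, y₀, hC0, hy0, h1⟩ := hLC g hg hgN
      obtain ⟨n, hn⟩ := exists_nat_gt (max C (1 / y₀))
      rw [Set.mem_iUnion]
      refine ⟨n, ?_⟩
      rw [hKn]
      refine ⟨hg, fun g' hg' h2 h3 => ?_⟩
      have hn1 : C < (n : ℝ) + 1 := by
        have := (le_max_left C (1 / y₀)).trans_lt hn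
        linarith only [this]
      have hn2 : 1 / ((n : ℝ) + 1) ≤ y₀ := by
        have h4 := (le_max_right C (1 / y₀)).trans_lt hn
        have h5 : 0 < (n : ℝ) + 1 := by positivity
        rw [div_le_iff₀ h5]
        rw [div_lt_iff₀ hy0] at h4
        nlinarith only [hy0, h4]
      refine le_trans ?_ (h1 g' hg' (by linarith) h3)
      exact div_le_div_of_nonneg_left (by linarith) hC0 hn1.le
  obtain ⟨C₁, hC₁⟩ : ∃ C₁ : ℝ, C₁ = (n : ℝ) + 1 := ⟨_, rfl⟩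
  have hC₁0 : 0 < C₁ := by rw [hC₁]; positivity
  obtain ⟨K₂, hK₂⟩ : ∃ K₂, K₂ = Kn n := ⟨_, rfl⟩
  rw [← hK₂] at hn
  have hK₂K : ∀ g ∈ K₂, g ∈ K := by
    intro g hg
    rw [hK₂, hKn] at hg
    exact hg.1
  have hK₂l : ∀ g ∈ K₂, ∀ g' ∈ K, g - 1 / C₁ < g' → g' < g → (g - g') / C₁ ≤ W g - W g' := by
    intro g hg
    rw [hK₂, hKn] at hg
    rw [hC₁]
    exact hg.2
  -- the null set of rows
  obtain ⟨N', hN'⟩ : ∃ N' : Set ℝ, N' = {x | x ∈ K ∧ ¬ DP K x} ∪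
    {x | ¬ DifferentiableAt ℝ r x} := ⟨_, rfl⟩
  have hN'0 : MeasureTheory.volume N' = 0 := by
    rw [hN']
    exact MeasureTheory.measure_union_null (dp_ae K) (lip_ae hC.lip)
  -- the null set of windows
  obtain ⟨Nr, hNr, hslr⟩ := slp_ae hRm
  obtain ⟨Nt, hNt, hslt⟩ := slp_ae hGm
  obtain ⟨N, hN⟩ : ∃ N : Set ℝ, N = Nr ∪ Nt ∪ Set.range ((↑) : ℚ → ℝ) := ⟨_, rfl⟩
  have hN0 : MeasureTheory.volume N = 0 := by
    rw [hN]
    refine MeasureTheory.measure_union_null (MeasureTheory.measure_union_null hNr hNt) ?_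
    exact (Set.countable_range _).measure_zero _
  -- the top row
  obtain ⟨Q₀, hQ₀, hden⟩ := dens_point hn
  have hden' : DP K₂ Q₀ := hden
  obtain ⟨K₃, hK₃⟩ : ∃ K₃ : Set ℝ, K₃ = K₂ ∩ Set.Ioo (Q₀ - 1 / C₁) Q₀ := ⟨_, rfl⟩
  have hK₃0 : MeasureTheory.volume K₃ ≠ 0 := by
    rw [hK₃]
    exact hden'.left (by positivity)
  have hK₃K₂ : ∀ g ∈ K₃, g ∈ K₂ := by
    intro g hg
    rw [hK₃] at hg
    exact hg.1
  have hQ₀K : Q₀ ∈ K := hK₂K Q₀ hQ₀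
  have hW1 : ∀ Q ∈ K, 0 < W Q ∧ W Q ≤ 1 := fun Q hQ => ⟨(hPR Q hQ).ws0, (hPR Q hQ).isWs.le_one⟩
  -- the directions below the critical window
  have hrotQ : ∀ Q ∈ K, ∀ w : ℚ, 0 ≤ w → (w : ℝ) < W Q →
      (σ Q).rot w = (σ 1).rot w ∧ (σ Q).rot w < (σ Q).pi ∧ (σ 1).rot w < (σ 1).pi := by
    intro Q hQ w hw0 hw
    obtain ⟨hQ0, hQ1, hQD⟩ := hK01 Q hQ
    obtain ⟨e, he, h1⟩ := (hPR Q hQ).isWs.2 w hw
    obtain ⟨v, hv0, hvQ, h2, h3, h4⟩ := (hPR Q hQ).pk e he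
    have hv1 : v < 1 := by
      have : (v : ℝ) < 1 := by linarith
      exact_mod_cast this
    have hwv : w ≤ v := by
      by_contra hcon
      push Not at hcon
      have := h1 v hv0.le (by exact_mod_cast hcon.le)
      linarith
    have h5 := hRW S a R h₁ i₀ c s₂ r D σ hC Q hQ0 hQ1 hQD w v hw0 hwv hv1.le
    have h6 := hRm w v hw0 hwv hv1.le
    have h7 := (hRQ S a R h₁ i₀ c s₂ r D σ hC Q 1 hQ0 hQ1 le_rfl hQD h1D).2 w hw0
      (hwv.trans hv1.le)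
    refine ⟨le_antisymm h7.1 ?_, by linarith, by linarith⟩
    rcases min_le_iff.1 h7.2.2 with h8 | h8
    · exact h8
    · linarith
  -- a window between the critical windows
  obtain ⟨K₄, hK₄⟩ : ∃ K₄ : ℚ → Set ℝ, K₄ = fun w : ℚ => {g | g ∈ K₃ ∧ g ∉ N' ∧ W g ∉ N ∧
      W g < w ∧ (w : ℝ) < W Q₀} := ⟨_, rfl⟩
  have hK₃Q : ∀ g ∈ K₃, g ∈ K ∧ g < Q₀ ∧ W g < W Q₀ := by
    intro g hg
    have hg' := hg
    rw [hK₃] at hg'
    have h1 := hK₂l Q₀ hQ₀ g (hK₂K g (hK₃K₂ g hg)) hg'.2.1 hg'.2.2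
    have h2 : 0 < (Q₀ - g) / C₁ := div_pos (by linarith [hg'.2.2]) hC₁0
    exact ⟨hK₂K g (hK₃K₂ g hg), hg'.2.2, by linarith⟩
  obtain ⟨w₁, hw₁⟩ : ∃ w₁, MeasureTheory.volume (K₄ w₁) ≠ 0 := by
    by_contra hcon
    push Not at hcon
    have hnull : MeasureTheory.volume (K₃ ∩ W ⁻¹' N) = 0 := by
      refine null_pre (K := K₃) hC₁0 (fun P hP => ⟨1 / C₁, by positivity, fun g hg h1 h2 =>
        hK₂l P (hK₃K₂ P hP) g (hK₂K g (hK₃K₂ g hg)) h1 h2⟩) hN0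
    refine hK₃0 (MeasureTheory.measure_mono_null (t := (⋃ w, K₄ w) ∪ ((K₃ ∩ W ⁻¹' N) ∪ N')) ?_
      (MeasureTheory.measure_union_null (MeasureTheory.measure_iUnion_null hcon)
        (MeasureTheory.measure_union_null hnull hN'0)))
    intro g hg
    by_cases hgN : g ∈ N'
    · exact Or.inr (Or.inr hgN)
    · by_cases hgW : W g ∈ N
      · exact Or.inr (Or.inl ⟨hg, hgW⟩)
      · left
        obtain ⟨w, h1, h2⟩ := exists_rat_btwn (hK₃Q g hg).2.2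
        rw [Set.mem_iUnion]
        refine ⟨w, ?_⟩
        rw [hK₄]
        exact ⟨hg, hgN, hgW, h1, h2⟩
  obtain ⟨K', hK'⟩ : ∃ K', K' = K₄ w₁ := ⟨_, rfl⟩
  have hmem : ∀ g ∈ K', g ∈ K₃ ∧ g ∉ N' ∧ W g ∉ N ∧ W g < w₁ ∧ (w₁ : ℝ) < W Q₀ := by
    intro g hg
    rw [hK', hK₄] at hg
    exact hg
  rw [← hK'] at hw₁
  obtain ⟨g₀, hg₀⟩ : K'.Nonempty := by
    by_contra hcon
    rw [Set.not_nonempty_iff_eq_empty] at hcon
    rw [hcon] at hw₁
    exact hw₁ MeasureTheory.measure_empty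
  have hw₁Q := (hmem g₀ hg₀).2.2.2.2
  have hw₁0 : (0 : ℚ) ≤ w₁ := by
    have h1 := (hmem g₀ hg₀).2.2.2.1
    have h2 := (hW1 g₀ (hK₃Q g₀ (hmem g₀ hg₀).1).1).1
    have : (0 : ℝ) ≤ w₁ := by linarith only [h1, h2]
    exact_mod_cast this
  obtain ⟨b1, b2, b3⟩ := hrotQ Q₀ hQ₀K w₁ hw₁0 hw₁Q
  have hDns : ∀ x ∈ K, x ∉ N' → Dns K x := by
    intro x hx hxN
    have h1 : DP K x := by
      by_contra hcon
      refine hxN ?_
      rw [hN']
      exact Or.inl ⟨hx, hcon⟩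
    intro η hη
    exact h1.meet hη
  have hWlt1 : ∀ g ∈ K', W g < 1 := by
    intro g hg
    have h1 := (hmem g hg).2.2.2.1
    have h2 := (hW1 Q₀ hQ₀K).2
    linarith
  have hsl : ∀ g ∈ K', ∃ v₀ v ρ : ℝ, (0 ≤ v ∧ Slp (σ 1).rot (W g) v₀ v) ∧
      (0 ≤ ρ ∧ Slp (σ 1).th (W g) g (1 + ρ)) := by
    intro g hg
    obtain ⟨m1, m2, m3, m4, m5⟩ := hmem g hg
    have hgK := (hK₃Q g m1).1
    have hgNr : W g ∉ Nr := fun h => m3 (by rw [hN]; exact Or.inl (Or.inl h))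
    have hgNt : W g ∉ Nt := fun h => m3 (by rw [hN]; exact Or.inl (Or.inr h))
    obtain ⟨v₀, v, hv0, hslr⟩ := hslr (W g) (hW1 g hgK).1 (hWlt1 g hg) hgNr
    obtain ⟨g₁, s, hs0, hslt⟩ := hslt (W g) (hW1 g hgK).1 (hWlt1 g hg) hgNt
    have hg₁ : g₁ = g := slp_val (hPR g hgK).isWs1 hslt hGm (hW1 g hgK).1 (hWlt1 g hg)
    rw [hg₁] at hslt
    have hs1 : 1 ≤ s := slp_ge_one hslt (hW1 g hgK).1 (hWlt1 g hg) (hPR g hgK).lt1 hGs
    exact ⟨v₀, v, s - 1, ⟨hv0, hslr⟩, by linarith, by rw [add_sub_cancel]; exact hslt⟩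
  choose! V0 V Rh hV hRh using hsl
  have hirr : ∀ g ∈ K', ∀ q : ℚ, (q : ℝ) ≠ W g := fun g hg q h =>
    (hmem g hg).2.2.1 (by rw [hN]; exact Or.inr ⟨q, h⟩)
  refine ⟨S, act, κ, K', Q₀, C₁, w₁, V0, V, Rh, hsub,
    { pr := hPR
      adm := hAdm
      room := hroom
      mono := hW
      wQ := hWQ
      rotQ := fun Q hQ w hw0 hw => (hrotQ Q hQ w hw0 hw).1
      top := hQ₀K
      w1 := hw₁Q
      beta := ⟨by linarith only [b1, b2], b3⟩
      sub := fun g hg => (hK₃Q g (hmem g hg).1).1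
      pos := hw₁
      lt := fun g hg => (hK₃Q g (hmem g hg).1).2.1
      lw := fun g hg => (hmem g hg).2.2.2.1
      C0 := hC₁0
      lemc := fun g hg g' hg' h1 h2 => hK₂l g (hK₃K₂ g (hmem g hg).1) g' hg' h1 h2
      dens := fun g hg => hDns g (hK₃Q g (hmem g hg).1).1 (hmem g hg).2.1
      irr := hirr
      rate := fun g hg => by
        have hgK := (hK₃Q g (hmem g hg).1).1
        have hrdiff : DifferentiableAt ℝ r g := by
          by_contra hcon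
          exact (hmem g hg).2.1 (by rw [hN']; exact Or.inr hcon)
        exact ⟨deriv r g, deriv_le_of_left hrdiff.hasDerivAt (hPR g hgK).plr (hK01 g hgK).1,
          hrdiff.hasDerivAt⟩
      rot := hV
      th := hRh
      thQ := fun g hg Q hQ hgQ => by
        have hgK := (hK₃Q g (hmem g hg).1).1
        exact vis_slp (fQ := fun Q => (σ Q).th) (Q := Q)
          (fun g' hg' => (hPR g' hg').isWs1) (fun g' hg' => (hPR g' hg').isWs)
          (fun w w' h0 h1 h2 => (hTHS S a R h₁ i₀ c s₂ r D σ hC Q (hK01 Q hQ).1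
            (hK01 Q hQ).2.1 (hK01 Q hQ).2.2 w w' h0 h1 h2).2.2)
          (fun g' hg' hle w h0 h1 => ((hRQ S a R h₁ i₀ c s₂ r D σ hC g' Q (hK01 g' hg').1 hle
            (hK01 Q hQ).2.1 (hK01 g' hg').2.2 (hK01 Q hQ).2.2).2 w h0 h1).2.1)
          (fun w h0 h1 => ((hRQ S a R h₁ i₀ c s₂ r D σ hC Q 1 (hK01 Q hQ).1 (hK01 Q hQ).2.1
            le_rfl (hK01 Q hQ).2.2 h1D).2 w h0 h1).2.1)
          hgQ (hDns g hgK (hmem g hg).2.1) (by linarith [(hRh g hg).1]) (hW1 g hgK).1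
          (hWlt1 g hg) (by linarith [hWQ g hgK]) (hirr g hg) (hRh g hg).2
      cond := fun _ _ => trivial
      actN := hact
      act0 := hact0
      amono := hamono
      alip := halip
      κ0 := hκ
      akap := ⟨q₀, hq00, hq01, hactl⟩ }⟩

/-- Restriction to a smaller set, with a condition. -/
theorem SD.restr {S : PCl 3} {i₀ : Fin 3} {c s₂ : ℝ} {r : ℝ → ℝ} {D : Set ℝ} {σ : ℝ → Row}
    {act : ℚ → ℝ} {K : Set ℝ} {W : ℝ → ℝ} {v₁ t : ℚ} {e₁ κ : ℝ} {K' : Set ℝ} {Q₀ C : ℝ} {w₁ : ℚ}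
    {V0 V Rh : ℝ → ℝ} {Γ Γ' : ℝ → ℝ → Prop}
    (h : SD S i₀ c s₂ r D σ act K W v₁ t e₁ κ K' Q₀ C w₁ V0 V Rh Γ) {K'' : Set ℝ}
    (hK : K'' ⊆ K') (hpos : MeasureTheory.volume K'' ≠ 0) (hc : ∀ g ∈ K'', Γ' (V g) (Rh g)) :
    SD S i₀ c s₂ r D σ act K W v₁ t e₁ κ K'' Q₀ C w₁ V0 V Rh Γ' where
  pr := h.pr
  adm := h.adm
  room := h.room
  mono := h.mono
  wQ := h.wQ
  rotQ := h.rotQ
  top := h.top
  w1 := h.w1
  beta := h.beta
  sub := hK.trans h.sub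
  pos := hpos
  lt := fun g hg => h.lt g (hK hg)
  lw := fun g hg => h.lw g (hK hg)
  C0 := h.C0
  lemc := fun g hg => h.lemc g (hK hg)
  dens := fun g hg => h.dens g (hK hg)
  irr := fun g hg => h.irr g (hK hg)
  rate := fun g hg => h.rate g (hK hg)
  rot := fun g hg => h.rot g (hK hg)
  th := fun g hg => h.th g (hK hg)
  thQ := fun g hg => h.thQ g (hK hg)
  cond := hc
  actN := h.actN
  act0 := h.act0
  amono := h.amono
  alip := h.alip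
  κ0 := h.κ0
  akap := h.akap

/-- **The engine** from its five cases, on sets of rows. -/
theorem eng_of_set (hTHS : THSStmt) (hRQ : RQStmt) (hRW : RWStmt) (hACT : ACTStmt)
    (hLEMC : LEMCStmt) (hRISE : CaseSetStmt fun v ρ => v < ρ)
    (hFALL : CaseSetStmt fun v ρ => ρ < v ∧ 0 < ρ) (hRPLA : CaseSetStmt fun v ρ => ρ < v ∧ ρ = 0)
    (hHPLA : HPLASet) (hDPLA : DPLASet) : ENGStmt := by
  intro S₀ a R h₁ i₀ c s₂ r D σ hC₀ K W v₁ t e₁ hK hPR hAdm hroom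
  obtain ⟨S, act, κ, K', Q₀, C, w₁, V0, V, Rh, hsub, hSD⟩ :=
    sd_exists hTHS hRQ hRW hACT hLEMC hC₀ hK hPR hAdm hroom
  have hC := hC₀.le hsub
  have key : ∀ Γ : ℝ → ℝ → Prop, CaseSetStmt Γ →
      MeasureTheory.volume {g | g ∈ K' ∧ Γ (V g) (Rh g)} = 0 := by
    intro Γ hΓ
    by_contra hcon
    exact hΓ S a R h₁ i₀ c s₂ r D σ hC act K W v₁ t e₁ κ _ Q₀ C w₁ V0 V Rh
      (hSD.restr (K'' := {g | g ∈ K' ∧ Γ (V g) (Rh g)}) (fun g hg => hg.1) hcon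
        fun g hg => hg.2)
  have k1 := key _ hRISE
  have k2 := key _ hFALL
  have k3 := key _ hRPLA
  have k4 := key _ hHPLA
  have k5 := key _ hDPLA
  refine hSD.pos (MeasureTheory.measure_mono_null ?_ (MeasureTheory.measure_union_null k1
    (MeasureTheory.measure_union_null k2 (MeasureTheory.measure_union_null k3
      (MeasureTheory.measure_union_null k4 k5)))))
  intro g hg
  have hv0 := (hSD.rot g hg).1
  have hρ0 := (hSD.th g hg).1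
  rcases lt_trichotomy (V g) (Rh g) with h | h | h
  · exact Or.inl ⟨hg, h⟩
  · rcases hv0.lt_or_eq with h2 | h2
    · exact Or.inr (Or.inr (Or.inr (Or.inl ⟨hg, h, h2⟩)))
    · exact Or.inr (Or.inr (Or.inr (Or.inr ⟨hg, h2.symm, by rw [← h, ← h2]⟩)))
  · rcases hρ0.lt_or_eq with h2 | h2
    · exact Or.inr (Or.inl ⟨hg, h, h2⟩)
    · exact Or.inr (Or.inr (Or.inl ⟨hg, h, h2.symm⟩))

/-- **The engine** from its five cases. -/
theorem eng_of (hTHS : THSStmt) (hRQ : RQStmt) (hRW : RWStmt) (hACT : ACTStmt)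
    (hLEMC : LEMCStmt) (hRISE : RISEStmt) (hFALL : FALLStmt) (hRPLA : RPLAStmt)
    (hHPLA : HPLASet) (hDPLA : DPLASet) : ENGStmt :=
  eng_of_set hTHS hRQ hRW hACT hLEMC (CaseStmt.set hRISE) (CaseStmt.set hFALL)
    (CaseStmt.set hRPLA) hHPLA hDPLA

end Pool.S6C
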