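import Pool.Agent.H51.S6.Eng
import Pool.Agent.H75.S6C.Ths

/-!
# The engine of S6: the monotonicity of the numbers is proved
-/

set_option autoImplicit false

namespace Pool.S6C

open Finset Real
open Pool.Agent.H49.Ent Pool.Agent.H32.Dense Pool.STK Pool.KA Pool.KSAT Pool.K2S Pool.PB Pool.KS6

theorem ths_stmt : THSStmt := by
  intro S a R h₁ i₀ c s₂ r D σ hC Q hQ0 hQ1 hQD w w' hw hww hwQ
  have h := ths_thm hC hQ0 hQ1 hQD hw hww hwQ
  exact ⟨h.1, h.2, th_mono hC.ne hC.st hQ1 (hC.row Q hQ0 hQ1 hQD) w w' hw hww hwQ⟩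

/-- **The engine** from the activity numbers, LEMMA C and its five cases. -/
theorem eng_of' (hACT : ACTStmt) (hLEMC : LEMCStmt) (hRISE : RISEStmt) (hFALL : FALLStmt)
    (hRPLA : RPLAStmt) (hHPLA : HPLASet) (hDPLA : DPLASet) : ENGStmt :=
  eng_of ths_stmt rq_thm rw_thm hACT hLEMC hRISE hFALL hRPLA hHPLA hDPLA

end Pool.S6C
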