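import Mathlib

/-!
# A mesh of an interval with few bad cells
-/

set_option autoImplicit false

namespace Pool.S6C

open Finset Real MeasureTheory

/-- **The mesh.** If the cells around almost all points are good, then a fine mesh has cells which
are good up to cells of small total length. -/
theorem mesh_gen {P : ℚ → ℚ → Prop} {N : Set ℝ} {μ : ℝ} (hμ : 0 ≤ μ)
    (hN : volume N ≤ ENNReal.ofReal μ) {β : ℚ} {p : ℝ}
    (hβ : (β : ℝ) < p) (hP : ∀ x : ℝ, (β : ℝ) < x → x < p → x ∉ N → ∃ δ : ℝ, 0 < δ ∧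
      ∀ a b : ℚ, x - δ < a → (a : ℝ) ≤ x → x ≤ b → (b : ℝ) < x + δ → a < b → P a b) {ε : ℝ}
    (hε : 0 < ε) : ∃ (s : ℚ) (n : ℕ), 0 < s ∧ (s : ℝ) < ε ∧ ((β + n * s : ℚ) : ℝ) < p ∧
      p ≤ ((β + n * s : ℚ) : ℝ) + ε ∧ ∃ bad : Finset ℕ, (∀ i ∈ bad, i < n) ∧
      (bad.card : ℝ) * s ≤ μ + ε ∧
      ∀ i < n, i ∉ bad → P (β + i * s) (β + ((i + 1 : ℕ) : ℚ) * s) := by
  classical
  obtain ⟨W, hW⟩ : ∃ W : ℕ → Set ℝ, W = fun m : ℕ => {x : ℝ | (β : ℝ) < x ∧ x < p ∧
    ∀ a b : ℚ, x - 1 / ((m : ℝ) + 1) < a → (a : ℝ) ≤ x → x ≤ b → (b : ℝ) < x + 1 / ((m : ℝ) + 1) → a < b →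
      P a b} := ⟨_, rfl⟩
  have hmono : Monotone W := by
    intro m m' hm x hx
    rw [hW] at hx ⊢
    obtain ⟨h1, h2, h3⟩ := hx
    refine ⟨h1, h2, fun a b q1 q2 q3 q4 q5 => h3 a b ?_ q2 q3 ?_ q5⟩
    · have : (1 : ℝ) / (m' + 1) ≤ 1 / (m + 1) := by
        refine one_div_le_one_div_of_le (by positivity) ?_
        have : (m : ℝ) ≤ m' := by exact_mod_cast hm
        linarith
      linarith
    · have : (1 : ℝ) / (m' + 1) ≤ 1 / (m + 1) := by
        refine one_div_le_one_div_of_le (by positivity) ?_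
        have : (m : ℝ) ≤ m' := by exact_mod_cast hm
        linarith
      linarith
  have hcov : Set.Ioo (β : ℝ) p ⊆ (⋃ m, W m) ∪ N := by
    intro x hx
    by_cases hxN : x ∈ N
    · exact Or.inr hxN
    · refine Or.inl ?_
      obtain ⟨δ, hδ, h⟩ := hP x hx.1 hx.2 hxN
      obtain ⟨m, hm⟩ := exists_nat_one_div_lt hδ
      rw [Set.mem_iUnion]
      refine ⟨m, ?_⟩
      rw [hW]
      exact ⟨hx.1, hx.2, fun a b q1 q2 q3 q4 q5 => h a b (by linarith) q2 q3 (by linarith) q5⟩
  have hvol : ENNReal.ofReal (p - β) ≤ (⨆ m, volume (W m)) + ENNReal.ofReal μ := by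
    rw [← hmono.measure_iUnion]
    calc ENNReal.ofReal (p - β) = volume (Set.Ioo (β : ℝ) p) := by rw [Real.volume_Ioo]
      _ ≤ volume ((⋃ m, W m) ∪ N) := measure_mono hcov
      _ ≤ volume (⋃ m, W m) + volume N := measure_union_le _ _
      _ ≤ volume (⋃ m, W m) + ENNReal.ofReal μ := add_le_add le_rfl hN
  obtain ⟨m, hm⟩ : ∃ m, p - β - μ - ε / 2 < 0 ∨
      ENNReal.ofReal (p - β - μ - ε / 2) < volume (W m) := by
    by_contra hcon
    push Not at hcon
    have h0 := (hcon 0).1
    have h1 : ⨆ m, volume (W m) ≤ ENNReal.ofReal (p - β - μ - ε / 2) :=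
      iSup_le fun m => (hcon m).2
    have h2 := hvol.trans (add_le_add h1 le_rfl)
    rw [← ENNReal.ofReal_add h0 hμ] at h2
    have h3 : (0 : ℝ) < p - β := by linarith
    rw [ENNReal.ofReal_le_ofReal_iff'] at h2
    rcases h2 with h2 | h2 <;> linarith
  -- the mesh
  obtain ⟨s, hs0, hs1⟩ : ∃ s : ℚ, (0 : ℝ) < s ∧ (s : ℝ) < min (ε / 2) (min (1 / ((m : ℝ) + 1)) (p - β)) :=
    exists_rat_btwn (lt_min (by linarith) (lt_min (by positivity) (by linarith)))
  have hs2 : (s : ℝ) < ε / 2 := hs1.trans_le (min_le_left _ _)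
  have hs3 : (s : ℝ) < 1 / (m + 1) := hs1.trans_le ((min_le_right _ _).trans (min_le_left _ _))
  have hs4 : (s : ℝ) < p - β := hs1.trans_le ((min_le_right _ _).trans (min_le_right _ _))
  obtain ⟨n', hn'⟩ : ∃ n' : ℕ, p - β ≤ n' * s ∧ ∀ j < n', ¬ (p - β ≤ j * (s : ℝ)) := by
    have hex : ∃ n' : ℕ, p - β ≤ n' * (s : ℝ) := by
      obtain ⟨n', hn'⟩ := exists_nat_ge ((p - β) / s)
      exact ⟨n', by rwa [div_le_iff₀ hs0] at hn'⟩
    exact ⟨Nat.find hex, Nat.find_spec hex, fun j hj => Nat.find_min hex hj⟩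
  obtain ⟨hn1, hn2⟩ := hn'
  have hn0 : 0 < n' := by
    rcases Nat.eq_zero_or_pos n' with h | h
    · rw [h] at hn1
      simp at hn1
      linarith
    · exact h
  obtain ⟨n, rfl⟩ : ∃ n, n' = n + 1 := ⟨n' - 1, by omega⟩
  have hn3 : (n : ℝ) * s < p - β := by
    have := hn2 n (by omega)
    push Not at this
    exact this
  obtain ⟨bad, hbad⟩ : ∃ bad : Finset ℕ, bad = (Finset.range n).filter (fun i : ℕ =>
    ¬ P (β + i * s) (β + ((i + 1 : ℕ) : ℚ) * s)) := ⟨_, rfl⟩
  obtain ⟨gd, hgd⟩ : ∃ gd : Finset ℕ, gd = (Finset.range n).filter (fun i : ℕ =>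
    P (β + i * s) (β + ((i + 1 : ℕ) : ℚ) * s)) := ⟨_, rfl⟩
  have hcard : gd.card + bad.card = n := by
    rw [hgd, hbad]
    have := Finset.card_filter_add_card_filter_not (s := Finset.range n)
      (fun i : ℕ => P (β + i * s) (β + ((i + 1 : ℕ) : ℚ) * s))
    rw [Finset.card_range] at this
    exact this
  refine ⟨s, n, by exact_mod_cast hs0, by linarith, ?_, ?_, bad, ?_, ?_, ?_⟩
  · push_cast
    linarith
  · push_cast at hn1 ⊢
    linarith
  · intro i hi
    rw [hbad] at hi
    exact Finset.mem_range.1 (Finset.mem_filter.1 hi).1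
  · have h5 : (gd.card : ℝ) + bad.card = n := by exact_mod_cast hcard
    have h6 : (gd.card : ℝ) * s + bad.card * s = n * s := by rw [← add_mul, h5]
    rcases hm with hm | hm
    · have : 0 ≤ (gd.card : ℝ) * s := by positivity
      linarith
    -- the good cells cover most of the interval
    have hsub : W m ⊆ (⋃ i ∈ gd, Set.Icc ((β : ℝ) + i * s) (β + (i + 1) * s)) ∪
        Set.Icc ((β : ℝ) + n * s) p := by
      intro x hx
      rw [hW] at hx
      obtain ⟨h1, h2, h3⟩ := hx
      by_cases hxn : (β : ℝ) + n * s ≤ x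
      · exact Or.inr ⟨hxn, h2.le⟩
      · refine Or.inl ?_
        push Not at hxn
        obtain ⟨i, hi⟩ : ∃ i : ℕ, i = ⌊(x - β) / s⌋₊ := ⟨_, rfl⟩
        have h0 : 0 ≤ (x - β) / s := div_nonneg (by linarith) hs0.le
        have e1 : (i : ℝ) * s ≤ x - β := by
          have := Nat.floor_le h0
          rw [← hi, le_div_iff₀ hs0] at this
          exact this
        have e2 : x - β < (i + 1) * s := by
          have := Nat.lt_floor_add_one ((x - β) / s)
          rw [← hi, div_lt_iff₀ hs0] at this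
          exact this
        have hin : i < n := by
          by_contra hcon
          push Not at hcon
          have : (n : ℝ) * s ≤ i * s := mul_le_mul_of_nonneg_right (by exact_mod_cast hcon) hs0.le
          linarith
        rw [Set.mem_iUnion₂]
        refine ⟨i, ?_, ⟨by linarith, by linarith⟩⟩
        rw [hgd, Finset.mem_filter, Finset.mem_range]
        refine ⟨hin, h3 _ _ ?_ ?_ ?_ ?_ ?_⟩
        · push_cast
          linarith
        · push_cast
          linarith
        · push_cast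
          linarith
        · push_cast
          linarith
        · push_cast
          have : (0 : ℚ) < s := by exact_mod_cast hs0
          linarith
    have hle : volume (W m) ≤ ENNReal.ofReal (gd.card * s + (p - β - n * s)) := by
      refine (measure_mono hsub).trans ((measure_union_le _ _).trans ?_)
      have k1 : volume (⋃ i ∈ gd, Set.Icc ((β : ℝ) + i * s) (β + (i + 1) * s)) ≤
          ENNReal.ofReal (gd.card * s) := by
        refine (measure_biUnion_finset_le gd _).trans ?_
        have : ∀ i ∈ gd, volume (Set.Icc ((β : ℝ) + i * s) (β + (i + 1) * s)) =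
            ENNReal.ofReal s := by
          intro i _
          rw [Real.volume_Icc]
          congr 1
          ring
        rw [Finset.sum_congr rfl this, Finset.sum_const, nsmul_eq_mul,
          ENNReal.ofReal_mul (by positivity), ENNReal.ofReal_natCast]
      have k2 : volume (Set.Icc ((β : ℝ) + n * s) p) = ENNReal.ofReal (p - β - n * s) := by
        rw [Real.volume_Icc]
        congr 1
        ring
      rw [k2, ENNReal.ofReal_add (by positivity) (by linarith)]
      exact add_le_add k1 le_rfl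
    have h4 := hm.trans_le hle
    rw [ENNReal.ofReal_lt_ofReal_iff'] at h4
    linarith [h4.1]
  · intro i hi hib
    by_contra hcon
    exact hib (by rw [hbad, Finset.mem_filter, Finset.mem_range]; exact ⟨hi, hcon⟩)

end Pool.S6C
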