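import Pool.Agent.H76.LX.Red
import Pool.Agent.H23.S6E.Vdf2

/-!
# Deficits beyond natural boxes: other levels

The deficits of two boxes with other levels, one law.
-/

set_option autoImplicit false

namespace Pool.S6V

open Finset Real
open Pool.Agent.H49.Ent Pool.Agent.H32.Dense Pool.STK Pool.KA Pool.KA.Vd Pool.KSAT Pool.K2S Pool.PB
  Pool.KS6 Pool.S6C Pool.S6U Pool.LXC

section one

variable {J : ℕ} {F : Fam 3 J} {p : F.Ω → ℝ} {σ : Fin 3 → Fin 3} {al s t : F.Ω → ℝ} {Λ : Type}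
  {Θ : F.Ω → Λ}

/-- The coarse box from the fine box. -/
theorem vd_lev (hp : IsLaw p) {B : ℝ} (hB : 1 ≤ B)
    (hb : ∀ ω, 0 < p ω → |al ω| + 1 ≤ B ∧ |s ω| ≤ B ∧ |t ω| ≤ B)
    (hst : Det p Θ (fun ω => (s ω, t ω))) {r U r₂ U₂ N : ℕ} (hr : r ≤ r₂) (hU : U ≤ U₂)
    (hrU : r ≤ U) (hrU₂ : r₂ ≤ U₂) (hN : U₂ ≤ N) :
    F.vdf p σ r U N (ald (U - r) al) s t (fun ω => (Uni.dg (U - r) al ω, Θ ω)) ≤
      F.vdf p σ r₂ U₂ N (ald (U₂ - r₂) al) s t (fun ω => (Uni.dg (U₂ - r₂) al ω, Θ ω)) +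
      (2 * ((r₂ : ℝ) - r) + ((U₂ : ℝ) - U)) * Real.log 2 + RC B := by
  have h := vd_red (F := F) (p := p) (σ := σ) (al := al) (s := s) (t := t) (Θ := Θ) (r := r)
    (U := U) (r₂ := r₂) (U₂ := U₂) (N := N) (n := 0) hp hB hb hst hr (by omega) hrU hrU₂ hN
  have h1 := CH_nonneg hp.nonneg (F.sbx σ (r + 0) (U + 0) N (ald (U - r) al) s t)
    (fun ω => (F.sbx σ r U N (ald (U - r) al) s t ω, (Uni.dg (U - r) al ω, Θ ω)))
  push_cast at h
  simp only [mul_zero, zero_mul, sub_zero] at h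
  linarith

/-- The row `N'` from the row `N`, for a smaller level `U'` of the second coordinate. -/
theorem vd_row (hp : IsLaw p) (hσ : Function.Bijective σ) {B : ℝ} (hB : 1 ≤ B)
    (hb : ∀ ω, 0 < p ω → |al ω| + 1 ≤ B ∧ |s ω| ≤ B ∧ |t ω| ≤ B)
    (hst : Det p Θ (fun ω => (s ω, t ω))) {r U U' N N' : ℕ} (hrU : r ≤ U') (hU : U' ≤ U)
    (hN : N' ≤ N) (hUN : U ≤ N) (hUN' : U' ≤ N') :
    F.vdf p σ r U' N' (ald (U' - r) al) s t (fun ω => (Uni.dg (U' - r) al ω, Θ ω)) ≤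
      F.vdf p σ r U N (ald (U - r) al) s t (fun ω => (Uni.dg (U - r) al ω, Θ ω)) +
      ((U : ℝ) - U') * Real.log 2 + (RC B + (2 * K1 B + K2 B)) := by
  have h1 := vdf_N (F := F) (p := p) (σ := σ) (a := ald (U' - r) al) (s := s) (t := t) (r := r)
    (U := U') (N := N') (N' := N) hp hσ hB hN (hrU.trans hUN') hUN'
    (fun ω hω => ⟨ald_le (hb ω hω).1, (hb ω hω).2.1, (hb ω hω).2.2⟩)
    (fun ω => (Uni.dg (U' - r) al ω, Θ ω))
  have h2 := vd_lev (F := F) (p := p) (σ := σ) (al := al) (s := s) (t := t) (Θ := Θ) (r := r)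
    (U := U') (r₂ := r) (U₂ := U) (N := N) hp hB hb hst le_rfl hU hrU (hrU.trans hU) hUN
  simp only [sub_self, mul_zero, zero_add] at h2
  linarith

/-- The row `N` from the row `N'`. -/
theorem vd_row' (hp : IsLaw p) {B : ℝ} (hB : 1 ≤ B)
    (hb : ∀ ω, 0 < p ω → |al ω| + 1 ≤ B ∧ |s ω| ≤ B ∧ |t ω| ≤ B)
    (hst : Det p Θ (fun ω => (s ω, t ω))) {r U U' N N' : ℕ} (hrU : r ≤ U') (hU : U' ≤ U)
    (hN : N' ≤ N) (hUN' : U' ≤ N') :
    F.vdf p σ r U N (ald (U - r) al) s t (fun ω => (Uni.dg (U - r) al ω, Θ ω)) ≤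
      F.vdf p σ r U' N' (ald (U' - r) al) s t (fun ω => (Uni.dg (U' - r) al ω, Θ ω)) +
      (((U : ℝ) - U') + 3 * ((N : ℝ) - N')) * Real.log 2 +
      ((3 : ℕ) * Real.log (6 * B + 3) + (3 : ℕ) * Real.log (6 * 2 + 3)) := by
  have h0 := hp.nonneg
  obtain ⟨D, hD⟩ : ∃ D, D = U - r := ⟨_, rfl⟩
  obtain ⟨D', hD'⟩ : ∃ D', D' = U' - r := ⟨_, rfl⟩
  rw [← hD, ← hD']
  have i1 : D' ≤ D := by omega
  have fd : ∀ E ≤ D, Fd p (fun ω => (Uni.dg D al ω, Θ ω)) (ald E al) s t := by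
    intro E hE ω ω' hω hω' e
    have e1 := Prod.ext_iff.mp e
    have e2 : Uni.dg E al ω = Uni.dg E al ω' := dg_det hE e1.1
    have e3 := Prod.ext_iff.mp (hst ω ω' hω hω' e1.2)
    refine Prod.ext ?_ (Prod.ext e3.1 e3.2)
    show ald E al ω = ald E al ω'
    unfold ald
    rw [e2]
  have k1 := vdf_mono (F := F) (p := p) (σ := σ) (a := ald D al) (s := s) (t := t) (N := N)
    hp (le_refl r) hU (fun ω => (Uni.dg D al ω, Θ ω))
  have k2 := vdf_chg (F := F) (p := p) (σ := σ) (a := ald D al) (s := s) (t := t)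
    (a' := ald D' al) (s' := s) (t' := t) (r := r) (U := U') (N := N) (D := 2) hp hB
    (by norm_num) (hrU.trans (hUN'.trans hN)) (hUN'.trans hN)
    (fun ω hω => ⟨ald_le (hb ω hω).1, (hb ω hω).2.1, (hb ω hω).2.2⟩)
    (fun ω hω => by
      refine ⟨?_, ?_, ?_⟩
      · have h1 := ald_two (al := al) (D := D) (D' := D') (v := U' - r) (by omega) (by omega) ω
        refine h1.trans ?_
        rw [div_le_div_iff₀ (by positivity) (by positivity), mul_assoc, ← pow_add]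
        exact mul_le_mul_of_nonneg_left (pow_le_pow_right₀ (by norm_num) (by omega)) (by norm_num)
      · rw [sub_self, abs_zero]
        positivity
      · rw [sub_self, sub_self, zero_mul, add_zero, abs_zero]
        positivity)
    (fun ω => (Uni.dg D al ω, Θ ω)) (fd D le_rfl) (fd D' i1)
  have k5 : F.vdf p σ r U' N (ald D' al) s t (fun ω => (Uni.dg D al ω, Θ ω)) ≤
      F.vdf p σ r U' N (ald D' al) s t (fun ω => (Uni.dg D' al ω, Θ ω)) +
        ((D : ℝ) - D') * Real.log 2 := by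
    unfold Fam.vdf
    have a1 := CH_le_add h0 (F.X N) (Uni.dg D al)
      (fun ω => (F.sbx σ r U' N (ald D' al) s t ω, (Uni.dg D' al ω, Θ ω)))
    have a2 : CH p (F.X N) (fun ω => (Uni.dg D al ω,
        (F.sbx σ r U' N (ald D' al) s t ω, (Uni.dg D' al ω, Θ ω)))) ≤
        CH p (F.X N) (fun ω => (F.sbx σ r U' N (ald D' al) s t ω, (Uni.dg D al ω, Θ ω))) :=
      CH_mono_cond h0 fun ω ω' _ _ e => by
        have e1 := Prod.ext_iff.mp e
        have e2 := Prod.ext_iff.mp e1.2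
        exact Prod.ext e2.1 (Prod.ext e1.1 (Prod.ext_iff.mp e2.2).2)
    have a3 : CH p (Uni.dg D al)
        (fun ω => (F.sbx σ r U' N (ald D' al) s t ω, (Uni.dg D' al ω, Θ ω))) ≤
        ((D : ℝ) - D') * Real.log 2 := by
      refine CH_digits hp i1 al _ ?_
      intro ω ω' _ _ e
      exact (Prod.ext_iff.mp (Prod.ext_iff.mp e).2).1
    linarith
  have k6 := vdf_lipN (F := F) (p := p) (σ := σ) (a := ald D' al) (s := s) (t := t) (r := r)
    (U := U') hp hN (fun ω => (Uni.dg D' al ω, Θ ω))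
  have k7 : (D : ℝ) - D' = (U : ℝ) - U' := by
    have e1 : (D : ℝ) = (U : ℝ) - r := by rw [hD, Nat.cast_sub (hrU.trans hU)]
    have e2 : (D' : ℝ) = (U' : ℝ) - r := by rw [hD', Nat.cast_sub hrU]
    rw [e1, e2]
    ring
  rw [k7] at k5
  linarith

end one

end Pool.S6V
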