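import Pool.Agent.H51.S6.Uv2
import Pool.Agent.H33.S6.NatDef
import Pool.Agent.H51.S6.VdL

/-!
# The sum over the cells, from the window of the side label itself
-/

set_option autoImplicit false

namespace Pool.S6V

open Finset Real
open Pool.Agent.H49.Ent Pool.Agent.H32.Dense Pool.STK Pool.KA Pool.KA.Vd Pool.KSAT Pool.K2S Pool.PB
  Pool.KS6 Pool.S6C Pool.S6U Pool.LXC

/-- **The sum over the cells**, given LEMMA X at the window `v` itself. -/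
theorem nsum_path (hA : UVLAStmt) (hCC : UVLCStmt) (hX : LXStmt) {S : PCl 3} {a R h₁ : ℝ}
    {i₀ : Fin 3} {c s₂ : ℝ} {r : ℝ → ℝ} {D : Set ℝ} {σ : ℝ → Row}
    (hC : Cs S a R h₁ i₀ c s₂ r D σ) {act : ℚ → ℝ} {κ : ℝ} (hact : ActD S i₀ act κ) {T p : ℝ}
    {v : ℚ} {q H : ℝ} (hv : PV (σ 1) T p v q H) (hHv : p - v < H) {a₀ α : ℝ}
    (hAP : AcP act q a₀ α)
    (hX0 : ∀ y : ℚ, v < y → (y : ℝ) < p → ∀ η : ℝ, 0 < η → RFull S i₀ (σ 1) T p v q H v y
      (8 * (y - v) + 2 * max 0 ((σ 1).rot y + q - (σ 1).pi) + η))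
    {x₁ : ℚ} (hvx : v < x₁) (hxp : (x₁ : ℝ) + q < p) (hrx : (σ 1).rot x₁ + q < (σ 1).pi)
    {h : ℝ} (hh : 0 < h) : RFull S i₀ (σ 1) T p v q H v x₁ h := by
  have hR1 := hC.row 1 one_pos le_rfl hC.D1
  have hv0 : (0 : ℝ) < v := by exact_mod_cast hv.v0
  have hvxr : (v : ℝ) < x₁ := by exact_mod_cast hvx
  have hq0 : 0 < q := hAP.q0
  obtain ⟨δ, hδ⟩ : ∃ δ, δ = h / 40 := ⟨_, rfl⟩
  have hδ0 : 0 < δ := by rw [hδ]; positivity
  have hx1 : (x₁ : ℝ) < 1 := by linarith [hv.p1]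
  have rge : ∀ x : ℚ, (v : ℝ) < x → (x : ℝ) ≤ x₁ → (0 ≤ x ∧ x ≤ 1) := by
    intro x h1 h2
    have h3 : (x : ℝ) < 1 := h2.trans_lt hx1
    have h4 : (0 : ℝ) < x := hv0.trans h1
    exact ⟨by exact_mod_cast h4.le, by exact_mod_cast h3.le⟩
  have mono : ∀ x y : ℚ, (v : ℝ) < x → (x : ℝ) ≤ y → (y : ℝ) ≤ x₁ →
      (σ 1).rot x ≤ (σ 1).rot y := by
    intro x y h1 h2 h3
    refine rot_window hC.ne hR1 (rge x h1 (h2.trans h3)).1 ?_ (rge y (h1.trans_le h2) h3).2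
    exact_mod_cast h2
  have rlt : ∀ x : ℚ, (v : ℝ) < x → (x : ℝ) ≤ x₁ → (σ 1).rot x + q < (σ 1).pi := by
    intro x h1 h2
    have := mono x x₁ h1 h2 le_rfl
    linarith
  -- the first window
  obtain ⟨β, hβ1, hβ2⟩ := exists_rat_btwn (show (v : ℝ) < min ((v : ℝ) + δ) x₁ from
    lt_min (by linarith) hvxr)
  have hβ3 : (β : ℝ) < v + δ := hβ2.trans_le (min_le_left _ _)
  have hβ4 : (β : ℝ) < x₁ := hβ2.trans_le (min_le_right _ _)
  have hβx : β < x₁ := by exact_mod_cast hβ4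
  have hvβ : v < β := by exact_mod_cast hβ1
  have k0 : RFull S i₀ (σ 1) T p v q H v β (9 * δ) := by
    refine RFull.mono ?_ (hX0 β hvβ (by linarith) δ hδ0)
    have h1 := rlt β hβ1 hβ4.le
    rw [max_eq_left (by linarith)]
    linarith
  -- the cells with LEMMA X
  have lx : ∀ x y : ℚ, (v : ℝ) < x → (x : ℝ) < y → (y : ℝ) ≤ x₁ →
      RFull S i₀ (σ 1) T p v q H x y (8 * ((y : ℝ) - x) + δ) := by
    intro x y h1 h2 h3
    refine RFull.mono ?_ (hX S a R h₁ i₀ c s₂ r D σ hC act κ hact T p v q H hv a₀ α hAP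
      x y (by exact_mod_cast h1.le) (Or.inl (by exact_mod_cast h1)) (by exact_mod_cast h2)
      (by linarith) (by linarith) δ hδ0)
    have h4 := rlt y (by linarith) h3
    rw [max_eq_left (by linarith)]
    linarith
  -- the window at which only the first coordinate is left
  obtain ⟨cC, cc1, cc2, cc3, cc4⟩ := exists_cut
    (Φ := fun x => p ≤ (x : ℝ) + (σ 1).rot x + q) hβx
    (fun x y h1 h2 h3 h4 => by
      have h1r : (β : ℝ) ≤ x := by exact_mod_cast h1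
      have h2r : (x : ℝ) ≤ y := by exact_mod_cast h2
      have h3r : (y : ℝ) ≤ x₁ := by exact_mod_cast h3
      have := mono x y (by linarith) h2r h3r
      linarith)
  -- the end of the path
  have endC : ∀ x : ℚ, (v : ℝ) < x → (x : ℝ) < x₁ → cC - x ≤ 2 * δ →
      RFull S i₀ (σ 1) T p v q H x x₁ (26 * δ) := by
    intro x h1 h2 h3
    by_cases hcase : (x₁ : ℝ) - x ≤ 3 * δ
    · refine RFull.mono ?_ (lx x x₁ h1 h2 le_rfl)
      linarith
    · push Not at hcase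
      obtain ⟨a₂, ha1, ha2⟩ := exists_rat_btwn (show max (x : ℝ) cC < max (x : ℝ) cC + δ by
        linarith)
      have ha3 : (x : ℝ) < a₂ := (le_max_left _ _).trans_lt ha1
      have ha4 : cC < a₂ := (le_max_right _ _).trans_lt ha1
      have ha5 : (a₂ : ℝ) < x + 3 * δ := by
        rcases max_cases (x : ℝ) cC with ⟨h, -⟩ | ⟨h, -⟩ <;> linarith
      have ha6 : (a₂ : ℝ) < x₁ := by linarith
      have hae : a₂ < x₁ := by exact_mod_cast ha6
      have k1 := lx x a₂ h1 ha3 ha6.le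
      have k2 : RFull S i₀ (σ 1) T p v q H a₂ x₁ δ := by
        refine sum_all (R := RDf S i₀ (σ 1) T p v q H) hae
          (fun x y z k e e' _ _ _ _ _ h h' => h.trans h') (fun x y k e e' he h => h.mono he)
          (fun x₀ g1 g2 η hη => ?_) hδ0
        obtain ⟨x₂, hx1, hx2⟩ := exists_rat_btwn ha4
        have hx3 : x₂ ≤ x₁ := by
          have : (x₂ : ℝ) ≤ x₁ := by linarith
          exact_mod_cast this
        have hx4 : (v : ℝ) < x₂ := by linarith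
        obtain ⟨d, hd, hcell⟩ := hCC S a R h₁ i₀ c s₂ r D σ hC T p v q H hv x₀ x₂
          (by exact_mod_cast hx4) (by linarith) (by linarith) (cc4 x₂ hx1 hx3) η hη
        exact ⟨d, hd, fun x y q1 q2 q3 q4 q5 _ _ => hcell x y q1 q2 q3 q4 q5⟩
      refine RFull.mono ?_ (k1.trans k2)
      linarith
  by_cases hcase : cC - β ≤ 2 * δ
  · refine RFull.mono ?_ (k0.trans (endC β hβ1 hβ4 hcase))
    rw [hδ]
    linarith
  · push Not at hcase
    obtain ⟨a₁, ha1, ha2⟩ := exists_rat_btwn (show cC - δ < cC by linarith)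
    have ha3 : (β : ℝ) < a₁ := by linarith
    have hβa : β < a₁ := by exact_mod_cast ha3
    have ha4 : (a₁ : ℝ) < x₁ := ha2.trans_le cc2
    have hax : a₁ ≤ x₁ := by exact_mod_cast ha4.le
    have hpa : (a₁ : ℝ) + (σ 1).rot a₁ + q < p := not_le.1 (cc3 a₁ hβa.le ha2)
    have k1 : RFull S i₀ (σ 1) T p v q H β a₁ δ :=
      path_A hA hX hC hact hv hAP hvβ hβa (by linarith) (by linarith)
        (rlt a₁ (by linarith) ha4.le) hpa hδ0
    refine RFull.mono ?_ ((k0.trans k1).trans (endC a₁ (by linarith) ha4 (by linarith)))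
    rw [hδ]
    linarith

/-- **Another row**: the deficits of the rows `p'` and `p`, one family. -/
theorem vd_pp {J : ℕ} {F : Fam 3 J} {A : F.Ω → Prop} (hA : 0 < Pe F.p A) {ς : Fin 3 → Fin 3}
    (hς : Function.Bijective ς) {ρ : Row} {p p' q k : ℝ} (hpp : p' ≤ p) {Λ : Type} {κ : F.Ω → Λ}
    {pl : Λ → Pln} {al : F.Ω → ℝ} {x : ℚ} {B : ℝ} (hB : 1 ≤ B) (hal : ∀ ω, A ω → |al ω| + 1 ≤ B)
    (hs : ∀ ω, A ω → |(pl (κ ω)).s| ≤ B) (hc : ∀ ω, A ω → |(pl (κ ω)).c| ≤ B) (hx0 : 0 ≤ x)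
    (hq0 : 0 ≤ q) (hx : x + q ≤ p') :
    Vd F A ς ρ p' q k κ pl al x ≤ Vd F A ς ρ p q k κ pl al x +
      ((⌊p * J⌋₊ : ℝ) - ⌊p' * J⌋₊) * Real.log 2 + (RC B + (2 * K1 B + K2 B)) ∧
    Vd F A ς ρ p q k κ pl al x ≤ Vd F A ς ρ p' q k κ pl al x +
      4 * ((⌊p * J⌋₊ : ℝ) - ⌊p' * J⌋₊) * Real.log 2 +
      ((3 : ℕ) * Real.log (6 * B + 3) + (3 : ℕ) * Real.log (6 * 2 + 3)) := by
  have hl := isLaw_cond F.isLaw hA
  have hJ : (0 : ℝ) ≤ J := Nat.cast_nonneg J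
  have hl2 : 0 < Real.log 2 := Real.log_pos (by norm_num)
  have hin : ∀ ω, 0 < Pool.Agent.H49.Ent.cond F.p A True ω → A ω := fun ω hω =>
    of_eq_true (by
      have := ((cond_pos_iff F.isLaw.nonneg A True ω).1 hω).2
      exact this)
  have hN : ⌊p' * J⌋₊ ≤ ⌊p * J⌋₊ := Nat.floor_le_floor (mul_le_mul_of_nonneg_right hpp hJ)
  have hx0r : (0 : ℝ) ≤ x := by exact_mod_cast hx0
  have hxl : ⌊(x : ℝ) * J⌋₊ + ⌊q * J⌋₊ ≤ ⌊p' * J⌋₊ := by
    refine Nat.le_floor ?_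
    push_cast
    have f1 : (⌊(x : ℝ) * J⌋₊ : ℝ) ≤ x * J := Nat.floor_le (by positivity)
    have f2 : (⌊q * J⌋₊ : ℝ) ≤ q * J := Nat.floor_le (by positivity)
    have f3 : (x + q) * J ≤ p' * J := mul_le_mul_of_nonneg_right hx hJ
    rw [add_mul] at f3
    linarith
  obtain ⟨r, hr⟩ : ∃ r, r = ⌊(x : ℝ) * J⌋₊ + ⌊q * J⌋₊ := ⟨_, rfl⟩
  obtain ⟨N, hNN⟩ : ∃ N, N = ⌊p * J⌋₊ := ⟨_, rfl⟩
  obtain ⟨N', hNN'⟩ : ∃ N', N' = ⌊p' * J⌋₊ := ⟨_, rfl⟩
  obtain ⟨g, hg⟩ : ∃ g, g = ⌊(ρ.rot x - k) * J⌋₊ := ⟨_, rfl⟩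
  obtain ⟨U, hU⟩ : ∃ U, U = min (⌊(x : ℝ) * J⌋₊ + g + ⌊q * J⌋₊) N := ⟨_, rfl⟩
  obtain ⟨U', hU'⟩ : ∃ U', U' = min (⌊(x : ℝ) * J⌋₊ + g + ⌊q * J⌋₊) N' := ⟨_, rfl⟩
  have e1 : lr p q x J = r := by
    unfold lr
    rw [← hr, ← hNN]
    rw [← hr, ← hNN'] at hxl
    exact min_eq_left (by omega)
  have e2 : lr p' q x J = r := by
    unfold lr
    rw [← hr, ← hNN']
    rw [← hr, ← hNN'] at hxl
    exact min_eq_left hxl
  have e3 : lu ρ p q k x J = U := by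
    unfold lu
    rw [hU, hg, hNN]
  have e4 : lu ρ p' q k x J = U' := by
    unfold lu
    rw [hU', hg, hNN']
  rw [← hr, ← hNN'] at hxl
  rw [← hNN, ← hNN'] at hN
  have i1 : r ≤ U' := by rw [hU']; exact le_min (by omega) hxl
  have i2 : U' ≤ U := by rw [hU', hU]; exact min_le_min le_rfl hN
  have i3 : U ≤ N := by rw [hU]; exact min_le_right _ _
  have i4 : U' ≤ N' := by rw [hU']; exact min_le_right _ _
  have i5 : U + N' ≤ U' + N := by
    rw [hU, hU']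
    omega
  have i6 : (U : ℝ) - U' ≤ (N : ℝ) - N' := by
    have : (U : ℝ) + N' ≤ U' + N := by exact_mod_cast i5
    linarith
  have hb : ∀ ω, 0 < Pool.Agent.H49.Ent.cond F.p A True ω →
      |al ω| + 1 ≤ B ∧ |(-(pl (κ ω)).s)| ≤ B ∧ |(-(pl (κ ω)).c)| ≤ B := fun ω hω => by
    have h := hin ω hω
    exact ⟨hal ω h, by rw [abs_neg]; exact hs ω h, by rw [abs_neg]; exact hc ω h⟩
  have hst : Det (Pool.Agent.H49.Ent.cond F.p A True) (fun ω => (κ ω, F.W ω))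
      (fun ω => (-(pl (κ ω)).s, -(pl (κ ω)).c)) := fun ω ω' _ _ e => by
    have h2 : κ ω = κ ω' := (Prod.ext_iff.mp e).1
    beta_reduce
    rw [h2]
  have m1 := mul_le_mul_of_nonneg_right i6 hl2.le
  constructor
  · have h := vd_row (F := F) (p := Pool.Agent.H49.Ent.cond F.p A True) (σ := ς) (al := al)
      (s := fun ω => -(pl (κ ω)).s) (t := fun ω => -(pl (κ ω)).c) (Θ := fun ω => (κ ω, F.W ω))
      hl hς hB hb hst i1 i2 hN i3 i4
    unfold Vd ld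
    rw [e1, e2, e3, e4, ← hNN, ← hNN']
    linarith
  · have h := vd_row' (F := F) (p := Pool.Agent.H49.Ent.cond F.p A True) (σ := ς) (al := al)
      (s := fun ω => -(pl (κ ω)).s) (t := fun ω => -(pl (κ ω)).c) (Θ := fun ω => (κ ω, F.W ω))
      hl hB hb hst i1 i2 hN i4
    unfold Vd ld
    rw [e1, e2, e3, e4, ← hNN, ← hNN']
    have e5 : (((U : ℝ) - U') + 3 * ((N : ℝ) - N')) * Real.log 2 =
      ((U : ℝ) - U') * Real.log 2 + 3 * ((N : ℝ) - N') * Real.log 2 := by ring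
    rw [e5] at h
    linarith

/-- **(NSUM)** The sum over the cells, from the window `v` of the side label itself. -/
theorem nsum_of (hA : UVLAStmt) (hCC : UVLCStmt) (hX : LXStmt) : NSumStmt := by
  intro S a R h₁ i₀ c s₂ r D σ hC act κ hact T p v q H hv hpH a₀ α hAP x₁ hvx hxq hrx h hh
  have hv0 : (0 : ℝ) < v := by exact_mod_cast hv.v0
  have hvxr : (v : ℝ) < x₁ := by exact_mod_cast hvx
  have gen : ∀ p' : ℝ, p' ≤ p → p' < T + q → (x₁ : ℝ) + q < p' → ∀ h : ℝ, 0 < h →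
      RFull S i₀ (σ 1) T p' v q H v x₁ h := by
    intro p' h1 h2 h3 h hh
    have hq0 : 0 < q := hAP.q0
    have hv' : PV (σ 1) T p' v q H :=
      ⟨by linarith, h1.trans_lt hv.p1, hv.T0, hv.v0, hv.q0, hv.tn, hv.th, h2.le, hv.HT⟩
    exact nsum_path hA hCC hX hC hact hv' (by linarith) hAP (fun y hvy hyp η hη =>
      hX S a R h₁ i₀ c s₂ r D σ hC act κ hact T p' v q H hv' a₀ α hAP v y le_rfl (Or.inr h2)
        hvy hyp (by linarith) η hη) hvx h3 hrx hh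
  by_cases hs : p < T + q
  · exact gen p le_rfl hs hxq h hh
  obtain ⟨δ, hδ⟩ : ∃ δ, δ = min (h / 32) ((p - x₁ - q) / 2) := ⟨_, rfl⟩
  have hδ0 : 0 < δ := by rw [hδ]; exact lt_min (by linarith) (by linarith)
  have hδ1 : δ ≤ h / 32 := by rw [hδ]; exact min_le_left _ _
  have hδ2 : δ ≤ (p - x₁ - q) / 2 := by rw [hδ]; exact min_le_right _ _
  obtain ⟨k₀, hk₀, hk⟩ := gen (p - δ) (by linarith) (by linarith [hv.pT]) (by linarith) (h / 2)
    (by linarith)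
  refine ⟨k₀, hk₀, fun k hk0 hkk C hC1 => ?_⟩
  have c1 := hk k hk0 hkk C hC1
  have c3 : Clp S (fun J F A => 0 < Pe F.p A) :=
    Clp.base 1 one_pos 0 fun J _ F A hA => lt_of_lt_of_le (Real.exp_pos _) (hC.st _ _ _ _ hA).2.2.2
  obtain ⟨B, hBd⟩ : ∃ B, B = C + 5 := ⟨_, rfl⟩
  obtain ⟨K, hK⟩ : ∃ K, K = (RC B + (2 * K1 B + K2 B)) +
    ((3 : ℕ) * Real.log (6 * B + 3) + (3 : ℕ) * Real.log (6 * 2 + 3)) + 5 * Real.log 2 := ⟨_, rfl⟩
  have hl2 : 0 < Real.log 2 := Real.log_pos (by norm_num)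
  obtain ⟨J₂, hJ₂⟩ := exists_nat_gt (K / (h / 4 * Real.log 2))
  refine Clp.mono (J₂ := J₂) (c1.and c3) ?_
  rintro J hJ F A ⟨d1, hA⟩ ς hς hς0 Λ κ' pl al hκ hN hal
  have hJ0 : (0 : ℝ) ≤ J := Nat.cast_nonneg J
  have hJK : K ≤ J * (h / 4 * Real.log 2) := by
    have : K / (h / 4 * Real.log 2) < J := hJ₂.trans_le (by exact_mod_cast hJ)
    rw [div_lt_iff₀ (by positivity)] at this
    exact this.le
  have hbij : Function.Bijective ς := Finite.injective_iff_bijective.1 hς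
  have k1 := d1 ς hς hς0 Λ κ' pl al hκ hN hal
  have hB1 : 1 ≤ B := by rw [hBd]; linarith
  have bal : ∀ ω, A ω → |al ω| + 1 ≤ B := fun ω hω => by
    have := hal.bd ω hω
    rw [hBd]
    linarith
  have bs : ∀ ω, A ω → |(pl (κ' ω)).s| ≤ B := fun ω hω => by
    have := (hκ.inc ω hω).s_le
    rw [hBd]
    linarith
  have bc : ∀ ω, A ω → |(pl (κ' ω)).c| ≤ B := fun ω hω => by
    have := (hκ.inc ω hω).c_le
    rw [hBd]
    linarith
  have k2 := (vd_pp hA hbij (p := p) (p' := p - δ) (q := q) (k := k) (ρ := σ 1) (κ := κ')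
    (pl := pl) (al := al) (x := v) (by linarith) hB1 bal bs bc hv.v0.le hv.q0
    (by linarith)).2
  have k3 := (vd_pp hA hbij (p := p) (p' := p - δ) (q := q) (k := k) (ρ := σ 1) (κ := κ')
    (pl := pl) (al := al) (x := x₁) (by linarith) hB1 bal bs bc (hv.v0.trans hvx).le hv.q0
    (by linarith)).1
  obtain ⟨M, hM⟩ : ∃ M, M = (⌊p * J⌋₊ : ℝ) - ⌊(p - δ) * J⌋₊ := ⟨_, rfl⟩
  rw [← hM] at k2 k3
  have hM1 : M ≤ δ * J + 1 := by
    have f1 : (⌊p * J⌋₊ : ℝ) ≤ p * J := Nat.floor_le (mul_nonneg hv.p0.le hJ0)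
    have f2 := Nat.lt_floor_add_one ((p - δ) * J)
    have f3 : (p - δ) * J = p * J - δ * J := by ring
    rw [hM]
    linarith
  have hM2 : M * Real.log 2 ≤ (δ * J + 1) * Real.log 2 := mul_le_mul_of_nonneg_right hM1 hl2.le
  have hM3 : δ * J * Real.log 2 ≤ h / 32 * J * Real.log 2 :=
    mul_le_mul_of_nonneg_right (mul_le_mul_of_nonneg_right hδ1 hJ0) hl2.le
  have e1 : h * J * Real.log 2 = h / 2 * J * Real.log 2 + 8 * (h / 32 * J * Real.log 2) +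
    J * (h / 4 * Real.log 2) := by ring
  have e2 : (δ * J + 1) * Real.log 2 = δ * J * Real.log 2 + Real.log 2 := by ring
  rw [e2] at hM2
  have e3 : 4 * M * Real.log 2 = 4 * (M * Real.log 2) := by ring
  rw [e3] at k2
  rw [e1]
  have e4 : 0 ≤ h / 32 * J * Real.log 2 := by positivity
  rw [hK] at hJK
  obtain ⟨c2, hc2⟩ : ∃ c2, c2 = (3 : ℕ) * Real.log (6 * B + 3) + (3 : ℕ) * Real.log (6 * 2 + 3) :=
    ⟨_, rfl⟩
  obtain ⟨c3, hc3⟩ : ∃ c3, c3 = RC B + (2 * K1 B + K2 B) := ⟨_, rfl⟩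
  rw [← hc2, ← hc3] at hJK
  rw [← hc2] at k2
  rw [← hc3] at k3
  linarith

end Pool.S6V
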