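import Pool.Agent.H77.S6C.UV2
import Pool.Agent.H75.S6C.Rot
import Pool.Agent.H75.S6C.Mon

/-!
# The U-step: own slopes

On half of every stable event there are own slopes, the slopes of the fans at exact points.
-/

set_option autoImplicit false

namespace Pool.S6V

open Finset Real
open Pool.Agent.H49.Ent Pool.Agent.H32.Dense Pool.STK Pool.KA Pool.KSAT Pool.K2S Pool.PB Pool.KS6
  Pool.S6C Pool.S6U

/-- The directions are not more constant than the fans are straight. -/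
theorem rot_le_pi {S : PCl 3} {i₀ : Fin 3} (hS : S.Ne) {Q : ℝ} {ρ : Row} (hρ : Rw S i₀ Q ρ)
    {w : ℚ} (h0 : 0 ≤ w) (h1 : w ≤ 1) : ρ.rot w ≤ ρ.pi := by
  refine num_mono hS (hρ.rot w h0 h1) hρ.pi ?_
  rintro t J F A (h | ⟨h, e, n, ζ, hL, hz⟩)
  · exact Or.inl h
  · exact Or.inr ⟨h, e, n, hL⟩

/-- **Own slopes exist.** -/
theorem own_part {S : PCl 3} {a R h₁ : ℝ} {i₀ : Fin 3} {c s₂ : ℝ} {r : ℝ → ℝ} {D : Set ℝ}
    {σ : ℝ → Row} (hC : Cs S a R h₁ i₀ c s₂ r D σ) {k : ℝ} (hk : 0 < k) (hkp : k ≤ (σ 1).pi) :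
    Clp S (fun J F A => ∃ B : F.Ω → Prop, Sub B A ∧ 1 / 2 * Pe F.p A ≤ Pe F.p B ∧
      ∀ ς : Fin 3 → Fin 3, ς 0 = i₀ → ∃ al : F.Ω → ℝ,
        OwnS F B ς ⌊((σ 1).pi - k) * J⌋₊ 2 al) := by
  classical
  have hR1 := hC.row 1 one_pos le_rfl hC.D1
  have hpi0 : 0 < (σ 1).pi := hk.trans_le hkp
  obtain ⟨ξ, hξ⟩ : ∃ ξ, ξ = min (min (k / 16) (min h₁ 1 / 16)) ((σ 1).pi / 16) := ⟨_, rfl⟩
  have hm0 : 0 < min h₁ 1 := lt_min hC.h₁0 one_pos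
  have hξ0 : 0 < ξ := by
    rw [hξ]
    exact lt_min (lt_min (by linarith) (by linarith)) (by linarith)
  have hξ1 : ξ ≤ k / 16 := by rw [hξ]; exact (min_le_left _ _).trans (min_le_left _ _)
  have hξ2 : ξ ≤ h₁ / 16 := by
    rw [hξ]
    refine ((min_le_left _ _).trans (min_le_right _ _)).trans ?_
    have := min_le_left h₁ 1
    linarith
  have hξ3 : ξ ≤ 1 / 16 := by
    rw [hξ]
    refine ((min_le_left _ _).trans (min_le_right _ _)).trans ?_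
    have := min_le_right h₁ 1
    linarith
  have hξ4 : ξ ≤ (σ 1).pi / 16 := by rw [hξ]; exact min_le_right _ _
  have c1 := hR1.pi.1 (k / 2) (half_pos hk)
  obtain ⟨τ, hτ, J₁, hsp⟩ := spread_part hC.a1 hC.R0 hC.ub hC.st hC.lb hξ0
  have c3 : Clp S (fun J F A => ∀ q : ℕ, q ≤ J → ξ * J ≤ q → q + 2 ≤ ⌊h₁ * J⌋₊ →
      ∃ B : F.Ω → Prop, Sub B A ∧ Real.exp (-Real.log 2) * Pe F.p A ≤ Pe F.p B ∧
      ∀ ω, B ω → ∃ ω' ω'', B ω' ∧ B ω'' ∧ Fam.pt F ω' = Fam.pt F ω ∧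
        Fam.pt F ω'' = Fam.pt F ω ∧ 1 / 2 ^ (q + 1) ≤ |F.d ω' i₀ - F.d ω'' i₀|) :=
    Clp.base τ hτ J₁ hsp
  have c4 : Clp S (fun J F A => Lb F i₀ ⌊h₁ * J⌋₊ A) :=
    Clp.base 1 one_pos 0 fun J _ F A hA => hC.lb _ _ _ _ hA
  obtain ⟨J₃, hJ₃⟩ := exists_nat_gt (16 / k + 16 / h₁ + 16 + 16 / (σ 1).pi)
  refine Clp.mono (J₂ := J₃) ((c1.and c3).and c4) ?_
  rintro J hJ F A ⟨⟨d1, d3⟩, eb, nb, hb⟩
  have hJr : 16 / k + 16 / h₁ + 16 + 16 / (σ 1).pi < J :=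
    hJ₃.trans_le (by exact_mod_cast hJ)
  have q1 : 0 < 16 / k := by positivity
  have q2 : 0 < 16 / h₁ := div_pos (by norm_num) hC.h₁0
  have q3 : 0 < 16 / (σ 1).pi := by positivity
  have hJk : 16 < J * k := by
    have : 16 / k < J := by linarith
    rwa [div_lt_iff₀ hk] at this
  have hJh₁ : 16 < J * h₁ := by
    have : 16 / h₁ < J := by linarith
    rwa [div_lt_iff₀ hC.h₁0] at this
  have hJpi : 16 < J * (σ 1).pi := by
    have : 16 / (σ 1).pi < J := by linarith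
    rwa [div_lt_iff₀ hpi0] at this
  have hJ0 : (0 : ℝ) ≤ J := Nat.cast_nonneg J
  have hJ16 : (16 : ℝ) < J := by linarith
  obtain ⟨q, hq⟩ : ∃ q, q = ⌈ξ * J⌉₊ := ⟨_, rfl⟩
  have hq1 : ξ * J ≤ q := by rw [hq]; exact Nat.le_ceil _
  have hq2 : (q : ℝ) < ξ * J + 1 := by rw [hq]; exact Nat.ceil_lt_add_one (by positivity)
  have hqJ : q ≤ J := by
    have e1 : ξ * J ≤ 1 / 16 * J := mul_le_mul_of_nonneg_right hξ3 hJ0
    have : (q : ℝ) ≤ J := by linarith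
    exact_mod_cast this
  have e2 : ξ * J ≤ h₁ / 16 * J := mul_le_mul_of_nonneg_right hξ2 hJ0
  have e3 : ξ * J ≤ (σ 1).pi / 16 * J := mul_le_mul_of_nonneg_right hξ4 hJ0
  have e4 : ξ * J ≤ k / 16 * J := mul_le_mul_of_nonneg_right hξ1 hJ0
  have hqh : q + 4 ≤ ⌊h₁ * J⌋₊ := by
    refine Nat.le_floor ?_
    push_cast
    linarith
  obtain ⟨B, hB, hPB, hBs⟩ := d3 q hqJ hq1 (by omega)
  have hexp : Real.exp (-Real.log 2) = 1 / 2 := by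
    rw [Real.exp_neg (Real.log 2), Real.exp_log (by norm_num), one_div]
  rw [hexp] at hPB
  rcases d1 with d1 | ⟨-, e', n', h3⟩
  · linarith
  rw [ptq_one F] at h3
  -- the levels
  obtain ⟨L, hL⟩ : ∃ L, L = ⌊((σ 1).pi - k / 2) * J⌋₊ := ⟨_, rfl⟩
  rw [← hL] at h3
  have hkL : ((σ 1).pi - k / 2) * J = (σ 1).pi * J - k * J / 2 := by ring
  have hkpJ : k * J ≤ (σ 1).pi * J := mul_le_mul_of_nonneg_right hkp hJ0
  have hqL : q + 4 ≤ L := by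
    rw [hL]
    refine Nat.le_floor ?_
    push_cast
    rw [hkL]
    linarith
  have hLL : ⌊((σ 1).pi - k) * J⌋₊ ≤ L := by
    rw [hL]
    refine Nat.floor_le_floor (mul_le_mul_of_nonneg_right (by linarith) hJ0)
  -- the slopes are bounded
  have bd : ∀ ω, B ω → ∀ j, |e' (Fam.pt F ω) j| ≤ 2 := by
    intro ω hω j
    obtain ⟨ω', ω'', b1, b2, b3, b4, b5⟩ := hBs ω hω
    have a1 := hb.line ω' (hB _ b1) j
    have a2 := hb.line ω'' (hB _ b2) j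
    have a3 := h3 ω' (hB _ b1) j
    have a4 := h3 ω'' (hB _ b2) j
    rw [b3] at a1 a3
    rw [b4] at a2 a4
    have hcl := frame_close (U := ℕ) (d := F.d) a1 a2 a3 a4 (by positivity) b5
    have hbb := hb.bound ω (hB _ hω) j
    have t1 : (1 : ℝ) / 2 ^ ⌊h₁ * J⌋₊ ≤ 1 / 2 ^ (q + 4) := inv_mono hqh
    have t2 : (1 : ℝ) / 2 ^ L ≤ 1 / 2 ^ (q + 4) := inv_mono hqL
    have t3 : (2 * (1 / 2 ^ ⌊h₁ * J⌋₊) + 2 * (1 / 2 ^ L)) / (1 / 2 ^ (q + 1)) ≤ (1 : ℝ) := by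
      rw [div_le_one (by positivity)]
      have : (1 : ℝ) / 2 ^ (q + 1) = 8 * (1 / 2 ^ (q + 4)) := by
        rw [pow_add 2 q 4, pow_add 2 q 1]
        field_simp
        norm_num
      rw [this]
      have : (0 : ℝ) < 1 / 2 ^ (q + 4) := by positivity
      linarith
    have t4 := abs_sub_abs_le_abs_sub (e' (Fam.pt F ω) j) (eb (Fam.pt F ω) j)
    linarith
  refine ⟨B, hB, hPB, fun ς hς => ?_⟩
  refine ⟨fun ω => e' (Fam.pt F ω) (ς 1), ⟨⟨fun u => e' u (ς 1), fun _ _ => rfl⟩,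
    fun ω hω => bd ω hω (ς 1), fun u => n' u (ς 1), fun ω hω => ?_⟩⟩
  rw [hς]
  have h1 := h3 ω (hB _ hω) (ς 1)
  have h2 : (1 : ℝ) / 2 ^ L ≤ 1 / 2 ^ ⌊((σ 1).pi - k) * J⌋₊ := inv_mono hLL
  have h4 : (1 : ℝ) / 2 ^ ⌊((σ 1).pi - k) * J⌋₊ ≤ 2 / 2 ^ ⌊((σ 1).pi - k) * J⌋₊ :=
    div_le_div_of_nonneg_right (by norm_num) (by positivity)
  linarith

end Pool.S6V
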