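import Pool.Agent.H51.S6.Sel
import Mathlib.Analysis.BoundedVariation

/-!
# Density points, values and slopes at critical windows
-/

set_option autoImplicit false

namespace Pool.Sel51

open MeasureTheory Set Filter Topology
open scoped ENNReal NNReal

/-- The point `x` is a density point of `s`. -/
def DP (s : Set ℝ) (x : ℝ) : Prop := Tendsto
  (fun r => volume (s ∩ Metric.closedBall x r) / volume (Metric.closedBall x r)) (𝓝[>] 0) (𝓝 1)

/-- Almost all points of a set are density points. -/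
theorem dp_ae (s : Set ℝ) : volume {x | x ∈ s ∧ ¬ DP s x} = 0 := by
  have h := Besicovitch.ae_tendsto_measure_inter_div (volume : Measure ℝ) s
  have h1 : volume.restrict s {x | x ∈ s ∧ ¬ DP s x} = 0 := by
    refine measure_mono_null ?_ h
    rintro x ⟨-, hx⟩
    exact hx
  have h2 := Measure.le_restrict_apply (μ := (volume : Measure ℝ)) s {x | x ∈ s ∧ ¬ DP s x}
  rw [h1] at h2
  have h3 : {x | x ∈ s ∧ ¬ DP s x} ∩ s = {x | x ∈ s ∧ ¬ DP s x} := by
    ext x
    constructor
    · exact fun h => h.1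
    · exact fun h => ⟨h, h.1⟩
  rw [h3] at h2
  exact le_antisymm h2 zero_le

/-- At a density point the proportion is eventually large. -/
theorem DP.ev {s : Set ℝ} {x : ℝ} (h : DP s x) {η : ℝ} (hη : 0 < η) (hη1 : η < 1) :
    ∃ δ : ℝ, 0 < δ ∧ ∀ r : ℝ, 0 < r → r < δ →
      ENNReal.ofReal ((1 - η) * (2 * r)) ≤ volume (s ∩ Metric.closedBall x r) := by
  have hev : ∀ᶠ r in 𝓝[>] (0 : ℝ), ENNReal.ofReal (1 - η) ≤
      volume (s ∩ Metric.closedBall x r) / volume (Metric.closedBall x r) := by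
    refine h.eventually (Ici_mem_nhds ?_)
    rw [← ENNReal.ofReal_one]
    exact (ENNReal.ofReal_lt_ofReal_iff one_pos).2 (by linarith)
  rw [eventually_nhdsWithin_iff, Metric.eventually_nhds_iff] at hev
  obtain ⟨δ, hδ, h1⟩ := hev
  refine ⟨δ, hδ, fun r hr0 hr => ?_⟩
  have h2 := h1 (y := r) (by rw [Real.dist_eq, sub_zero, abs_of_pos hr0]; exact hr) hr0
  rw [Real.volume_closedBall] at h2
  have hpos : ENNReal.ofReal (2 * r) ≠ 0 := by
    rw [Ne, ENNReal.ofReal_eq_zero]
    linarith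
  have h3 := (ENNReal.le_div_iff_mul_le (Or.inl hpos) (Or.inl ENNReal.ofReal_ne_top)).1 h2
  rwa [← ENNReal.ofReal_mul (by linarith)] at h3

/-- To the left of a density point the set has positive measure. -/
theorem DP.left {s : Set ℝ} {x : ℝ} (h : DP s x) {ε : ℝ} (hε : 0 < ε) :
    volume (s ∩ Ioo (x - ε) x) ≠ 0 := by
  intro h0
  obtain ⟨δ, hδ, h1⟩ := h.ev (η := 1 / 4) (by norm_num) (by norm_num)
  obtain ⟨r, hr0, hr1, hr2⟩ : ∃ r : ℝ, 0 < r ∧ r < δ ∧ r < ε :=
    ⟨min δ ε / 2, by have := lt_min hδ hε; linarith,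
      by have := min_le_left δ ε; have := lt_min hδ hε; linarith,
      by have := min_le_right δ ε; have := lt_min hδ hε; linarith⟩
  have h2 := h1 r hr0 hr1
  have h3 : s ∩ Metric.closedBall x r ⊆ (s ∩ Ioo (x - ε) x) ∪ Icc x (x + r) := by
    rintro y ⟨hy, hb⟩
    rw [Metric.mem_closedBall, Real.dist_eq, abs_le] at hb
    rcases lt_or_ge y x with hyx | hyx
    · exact Or.inl ⟨hy, by linarith, hyx⟩
    · exact Or.inr ⟨hyx, by linarith⟩
  have h4 : volume (s ∩ Metric.closedBall x r) ≤ ENNReal.ofReal r := by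
    refine (measure_mono h3).trans ((measure_union_le _ _).trans ?_)
    rw [h0, zero_add, Real.volume_Icc]
    exact ENNReal.ofReal_le_ofReal (by linarith)
  have h5 := h2.trans h4
  rw [ENNReal.ofReal_le_ofReal_iff hr0.le] at h5
  linarith

/-- Density points in terms of intervals. -/
theorem DP.meet {s : Set ℝ} {x : ℝ} (h : DP s x) {η : ℝ} (hη : 0 < η) :
    ∃ δ : ℝ, 0 < δ ∧ ∀ a b : ℝ, x - δ < a → a < b → b < x + δ →
      η * max |a - x| |b - x| ≤ b - a → ∃ y ∈ s, a < y ∧ y < b := by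
  obtain ⟨η', h0, h1, h2⟩ : ∃ η' : ℝ, 0 < η' ∧ η' < 1 ∧ 4 * η' ≤ η :=
    ⟨min (1 / 2) (η / 4), lt_min (by norm_num) (by linarith),
      lt_of_le_of_lt (min_le_left _ _) (by norm_num), by
        have := min_le_right (1 / 2) (η / 4)
        linarith⟩
  obtain ⟨δ, hδ, h3⟩ := h.ev h0 h1
  refine ⟨δ, hδ, fun a b ha hab hb hle => ?_⟩
  obtain ⟨M, hM⟩ : ∃ M, M = max |a - x| |b - x| := ⟨_, rfl⟩
  rw [← hM] at hle
  have hMa : |a - x| ≤ M := by rw [hM]; exact le_max_left _ _
  have hMb : |b - x| ≤ M := by rw [hM]; exact le_max_right _ _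
  have hM0 : 0 < M := by
    by_contra hcon
    push Not at hcon
    have e1 : |a - x| = 0 := le_antisymm (hMa.trans hcon) (abs_nonneg _)
    have e2 : |b - x| = 0 := le_antisymm (hMb.trans hcon) (abs_nonneg _)
    rw [abs_eq_zero] at e1 e2
    linarith
  have hMδ : M < δ := by
    rw [hM]
    refine max_lt ?_ ?_
    · rw [abs_lt]
      constructor <;> linarith
    · rw [abs_lt]
      constructor <;> linarith
  by_contra hcon
  push Not at hcon
  have h4 := h3 M hM0 hMδ
  have h5 : s ∩ Metric.closedBall x M ⊆ Icc (x - M) a ∪ Icc b (x + M) := by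
    rintro y ⟨hy, hyb⟩
    rw [Metric.mem_closedBall, Real.dist_eq, abs_le] at hyb
    rcases le_or_gt y a with h6 | h6
    · exact Or.inl ⟨by linarith, h6⟩
    · exact Or.inr ⟨hcon y hy h6, by linarith⟩
  rw [abs_le] at hMa hMb
  have h6 : volume (s ∩ Metric.closedBall x M) ≤ ENNReal.ofReal (2 * M - (b - a)) := by
    refine (measure_mono h5).trans ((measure_union_le _ _).trans ?_)
    rw [Real.volume_Icc, Real.volume_Icc, ← ENNReal.ofReal_add (by linarith) (by linarith)]
    exact ENNReal.ofReal_le_ofReal (by linarith)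
  have h7 := h4.trans h6
  rw [ENNReal.ofReal_le_ofReal_iff (by linarith)] at h7
  nlinarith

/-- A Lipschitz function is differentiable almost everywhere. -/
theorem lip_ae {f : ℝ → ℝ} {C : ℝ≥0} (h : LipschitzWith C f) :
    volume {x | ¬ DifferentiableAt ℝ f x} = 0 := h.ae_differentiableAt_real

/-- One-sided bound of the derivative. -/
theorem deriv_le_of_left {f : ℝ → ℝ} {x f' s : ℝ} (h : HasDerivAt f f' x)
    (hs : ∀ y : ℝ, 0 ≤ y → y ≤ x → f x - f y ≤ s * (x - y)) (hx : 0 < x) : f' ≤ s := by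
  by_contra hcon
  push Not at hcon
  have h1 := (hasDerivAt_iff_isLittleO.1 h).def (show 0 < (f' - s) / 2 by linarith)
  obtain ⟨δ, hδ, h2⟩ := Metric.eventually_nhds_iff.1 h1
  obtain ⟨t, ht0, ht1, ht2⟩ : ∃ t : ℝ, 0 < t ∧ t < δ ∧ t ≤ x :=
    ⟨min (δ / 2) x, lt_min (by linarith) hx, lt_of_le_of_lt (min_le_left _ _) (by linarith),
      min_le_right _ _⟩
  have h3 := h2 (y := x - t) (by
    rw [Real.dist_eq, show x - t - x = -t by ring, abs_neg, abs_of_pos ht0]
    exact ht1)
  rw [Real.norm_eq_abs, Real.norm_eq_abs, smul_eq_mul, show x - t - x = -t by ring, abs_neg,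
    abs_of_pos ht0] at h3
  have h4 := (abs_le.1 h3).2
  have h5 := hs (x - t) (by linarith) (by linarith)
  rw [show x - (x - t) = t by ring] at h5
  have h6 : f' * t ≤ s * t + (f' - s) / 2 * t := by linarith
  have h7 : 0 < (f' - s) / 2 * t := by
    have : 0 < (f' - s) / 2 := by linarith
    positivity
  nlinarith

end Pool.Sel51
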