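import Pool.Agent.H51.S6.Msh

/-!
# Summation over a mesh: from small cells to an interval
-/

set_option autoImplicit false

namespace Pool.S6C

open Finset Real MeasureTheory

/-- Finitely many positive numbers. -/
theorem exists_le_all (f : ℕ → ℝ) (n : ℕ) (hf : ∀ i < n, 0 < f i) {e : ℝ} (he : 0 < e) :
    ∃ k : ℝ, 0 < k ∧ k ≤ e ∧ ∀ i < n, k ≤ f i := by
  induction n with
  | zero => exact ⟨e, he, le_rfl, fun i hi => absurd hi (Nat.not_lt_zero _)⟩
  | succ n ih =>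
    obtain ⟨k, h1, h2, h3⟩ := ih fun i hi => hf i (by omega)
    refine ⟨min k (f n), lt_min h1 (hf n (by omega)), (min_le_left _ _).trans h2, fun i hi => ?_⟩
    rcases Nat.lt_or_ge i n with h | h
    · exact (min_le_left _ _).trans (h3 i h)
    · obtain rfl : i = n := by omega
      exact min_le_right _ _

/-- **The sum over a mesh.** `R x y k e` says that the loss between the windows `x` and `y` is at
most `e`, with slack `k`. The small cells around the points outside `N` have a loss which is small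
compared with their length, every cell `[x, y]` has a loss of at most `M (y - x)`. -/
theorem sum_mesh {R : ℚ → ℚ → ℝ → ℝ → Prop} {v x₁ : ℚ} (hv : v < x₁)
    (hR : ∀ (x y z : ℚ) (k e e' : ℝ), v ≤ x → x < y → y < z → z ≤ x₁ → 0 < k → R x y k e →
      R y z k e' → R x z k (e + e'))
    (hm : ∀ (x y : ℚ) (k e e' : ℝ), e ≤ e' → R x y k e → R x y k e') {N : Set ℝ} {μ : ℝ}
    (hμ : 0 ≤ μ) (hN : volume N ≤ ENNReal.ofReal μ) {M : ℝ} (hM : 0 ≤ M)
    (good : ∀ x₀ : ℝ, (v : ℝ) < x₀ → x₀ < x₁ → x₀ ∉ N → ∀ η : ℝ, 0 < η → ∃ δ : ℝ, 0 < δ ∧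
      ∀ x y : ℚ, x₀ - δ < x → (x : ℝ) ≤ x₀ → x₀ ≤ y → (y : ℝ) < x₀ + δ → x < y → v ≤ x →
      y ≤ x₁ → ∃ k₀ : ℝ, 0 < k₀ ∧ ∀ k : ℝ, 0 < k → k ≤ k₀ → R x y k (η * (y - x)))
    (lx : ∀ x y : ℚ, v ≤ x → x < y → y ≤ x₁ → ∀ η : ℝ, 0 < η → ∃ k₀ : ℝ, 0 < k₀ ∧
      ∀ k : ℝ, 0 < k → k ≤ k₀ → R x y k (M * (y - x) + η)) {ε : ℝ} (hε : 0 < ε) :
    ∃ k₀ : ℝ, 0 < k₀ ∧ ∀ k : ℝ, 0 < k → k ≤ k₀ → R v x₁ k (M * μ + ε) := by
  classical
  have hvr : (v : ℝ) < x₁ := by exact_mod_cast hv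
  obtain ⟨η, hη⟩ : ∃ η, η = ε / (4 * ((x₁ : ℝ) - v)) := ⟨_, rfl⟩
  have hd : 0 < (x₁ : ℝ) - v := by linarith
  have hη0 : 0 < η := by rw [hη]; positivity
  have hη1 : η * ((x₁ : ℝ) - v) = ε / 4 := by
    rw [hη]
    field_simp
  obtain ⟨ε', hε'⟩ : ∃ ε', ε' = ε / (8 * (M + 1)) := ⟨_, rfl⟩
  have hM1 : 0 < M + 1 := by linarith
  have hε'0 : 0 < ε' := by rw [hε']; positivity
  have hε'1 : M * ε' ≤ ε / 8 := by
    have : (M + 1) * ε' = ε / 8 := by
      rw [hε']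
      field_simp
    linarith
  obtain ⟨s, n, hs0, -, hs2, hs3, bad, hbn, hbc, hgood⟩ := mesh_gen
    (P := fun x y => v ≤ x → y ≤ x₁ → ∃ k₀ : ℝ, 0 < k₀ ∧ ∀ k : ℝ, 0 < k → k ≤ k₀ →
      R x y k (η * (y - x))) hμ hN hvr
    (fun x₀ h1 h2 h3 => by
      obtain ⟨δ, hδ, h⟩ := good x₀ h1 h2 h3 η hη0
      exact ⟨δ, hδ, fun a b q1 q2 q3 q4 q5 q6 q7 => h a b q1 q2 q3 q4 q5 q6 q7⟩) hε'0
  have hsr : (0 : ℝ) < s := by exact_mod_cast hs0
  obtain ⟨η', hη'⟩ : ∃ η' : ℝ, η' = ε / (8 * (n + 1)) := ⟨_, rfl⟩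
  have hn1 : (0 : ℝ) < n + 1 := by positivity
  have hη'0 : 0 < η' := by rw [hη']; positivity
  have hη'1 : ((n : ℝ) + 1) * η' = ε / 8 := by
    rw [hη']
    field_simp
  obtain ⟨z, hz⟩ : ∃ z : ℕ → ℚ, z = fun i : ℕ => v + (i : ℚ) * s := ⟨_, rfl⟩
  have z0 : z 0 = v := by rw [hz]; simp
  have z1 : ∀ i, z (i + 1) = z i + s := by
    intro i
    rw [hz]
    show v + ((i + 1 : ℕ) : ℚ) * s = v + (i : ℚ) * s + s
    push_cast
    ring
  have z2 : ∀ i, v ≤ z i := by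
    intro i
    rw [hz]
    show v ≤ v + (i : ℚ) * s
    have : 0 ≤ (i : ℚ) * s := by positivity
    linarith
  have z3 : ∀ i ≤ n, z i < x₁ := by
    intro i hi
    have h1 : z i ≤ v + n * s := by
      rw [hz]
      show v + (i : ℚ) * s ≤ v + n * s
      have : (i : ℚ) * s ≤ n * s := mul_le_mul_of_nonneg_right (by exact_mod_cast hi) hs0.le
      linarith
    have h2 : v + n * s < x₁ := by exact_mod_cast hs2
    exact h1.trans_lt h2
  -- the cells
  have cell : ∀ i, ∃ k₀ : ℝ, 0 < k₀ ∧ (i < n → ∀ k : ℝ, 0 < k → k ≤ k₀ →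
      R (z i) (z (i + 1)) k (η * s + if i ∈ bad then M * s + η' else 0)) := by
    intro i
    by_cases hi : i < n
    · have hzz : ((z (i + 1) : ℚ) : ℝ) - z i = s := by
        rw [z1]
        push_cast
        ring
      by_cases hb : i ∈ bad
      · obtain ⟨k₀, hk₀, h⟩ := lx (z i) (z (i + 1)) (z2 i) (by rw [z1]; linarith)
          (z3 (i + 1) hi).le η' hη'0
        refine ⟨k₀, hk₀, fun _ k h1 h2 => hm _ _ _ _ _ ?_ (h k h1 h2)⟩
        rw [hzz, if_pos hb]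
        have : 0 < η * s := by positivity
        linarith
      · have h0 := hgood i hi hb
        have e1 : v + (i : ℚ) * s = z i := by rw [hz]
        have e2 : v + ((i + 1 : ℕ) : ℚ) * s = z (i + 1) := by rw [hz]
        rw [e1, e2] at h0
        obtain ⟨k₀, hk₀, h⟩ := h0 (z2 i) (z3 (i + 1) hi).le
        refine ⟨k₀, hk₀, fun _ k h1 h2 => hm _ _ _ _ _ ?_ (h k h1 h2)⟩
        rw [hzz, if_neg hb, add_zero]
    · exact ⟨1, one_pos, fun h => absurd h hi⟩
  choose k₁ hk₁ hcell using cell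
  obtain ⟨k₂, hk₂, hlast⟩ := lx (z n) x₁ (z2 n) (z3 n le_rfl) le_rfl η' hη'0
  obtain ⟨k₀, hk₀, hk₀2, hk₀1⟩ := exists_le_all k₁ n (fun i _ => hk₁ i) hk₂
  refine ⟨k₀, hk₀, fun k hk hkk => ?_⟩
  have key : ∀ j ≤ n, R (z (n - j)) x₁ k ((M * ((x₁ : ℝ) - z n) + η') +
      ∑ i ∈ Finset.Ico (n - j) n, (η * s + if i ∈ bad then M * s + η' else 0)) := by
    intro j
    induction j with
    | zero =>
      intro _
      rw [Nat.sub_zero, Finset.Ico_self, Finset.sum_empty, add_zero]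
      exact hlast k hk (hkk.trans hk₀2)
    | succ j ih =>
      intro hj
      have h1 := ih (by omega)
      obtain ⟨l, hl⟩ : ∃ l, l = n - (j + 1) := ⟨_, rfl⟩
      have hl1 : n - j = l + 1 := by omega
      have hln : l < n := by omega
      rw [hl1] at h1
      rw [← hl, Finset.sum_eq_sum_Ico_succ_bot hln]
      have h2 := hcell l hln k hk (hkk.trans (hk₀1 l hln))
      have h3 := hR (z l) (z (l + 1)) x₁ k _ _ (z2 l) (by rw [z1]; linarith) (z3 (l + 1) hln)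
        le_rfl hk h2 h1
      refine hm _ _ _ _ _ (le_of_eq ?_) h3
      ring
  have h1 := key n le_rfl
  rw [Nat.sub_self, z0] at h1
  refine hm _ _ _ _ _ ?_ h1
  have hsum : ∑ i ∈ Finset.Ico 0 n, (η * (s : ℝ) + if i ∈ bad then M * s + η' else 0) ≤
      n * (η * s) + bad.card * (M * s + η') := by
    rw [Finset.sum_add_distrib, Finset.sum_const, Nat.card_Ico, Nat.sub_zero, nsmul_eq_mul,
      ← Finset.sum_filter, Finset.sum_const, nsmul_eq_mul]
    refine add_le_add le_rfl (mul_le_mul_of_nonneg_right ?_ (by positivity))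
    have : ((Finset.Ico 0 n).filter fun i => i ∈ bad).card ≤ bad.card :=
      Finset.card_le_card fun i hi => (Finset.mem_filter.1 hi).2
    exact_mod_cast this
  have hbadn : (bad.card : ℝ) ≤ n := by
    have : bad.card ≤ (Finset.range n).card :=
      Finset.card_le_card fun i hi => Finset.mem_range.2 (hbn i hi)
    rw [Finset.card_range] at this
    exact_mod_cast this
  have hzn : ((z n : ℚ) : ℝ) = v + n * s := by
    rw [hz]
    push_cast
    ring
  have e1 : (x₁ : ℝ) - z n ≤ ε' := by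
    rw [hzn]
    push_cast at hs3
    linarith
  have e2 : M * ((x₁ : ℝ) - z n) ≤ M * ε' := mul_le_mul_of_nonneg_left e1 hM
  have e3 : (n : ℝ) * (η * s) ≤ ε / 4 := by
    have h2 : (n : ℝ) * s ≤ x₁ - v := by
      push_cast at hs2
      linarith
    have := mul_le_mul_of_nonneg_left h2 hη0.le
    rw [hη1] at this
    linarith
  have e4 : (bad.card : ℝ) * (M * s + η') ≤ M * (μ + ε') + n * η' := by
    have h2 := mul_le_mul_of_nonneg_left hbc hM
    have h3 := mul_le_mul_of_nonneg_right hbadn hη'0.le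
    have : (bad.card : ℝ) * (M * s + η') = M * (bad.card * s) + bad.card * η' := by ring
    rw [this]
    linarith
  have e5 : M * (μ + ε') = M * μ + M * ε' := by ring
  have e6 : ((n : ℝ) + 1) * η' = n * η' + η' := by ring
  rw [e6] at hη'1
  linarith

end Pool.S6C
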