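import Pool.Agent.H51.S6.Sum

/-!
# Summation when all points are good
-/

set_option autoImplicit false

namespace Pool.S6C

open Finset Real

/-- **All points of `[a, b]` are good**: the loss between `a` and `b` is arbitrarily small. -/
theorem sum_all {R : ℚ → ℚ → ℝ → ℝ → Prop} {a b : ℚ} (hab : a < b)
    (hR : ∀ (x y z : ℚ) (k e e' : ℝ), a ≤ x → x < y → y < z → z ≤ b → 0 < k → R x y k e →
      R y z k e' → R x z k (e + e'))
    (hm : ∀ (x y : ℚ) (k e e' : ℝ), e ≤ e' → R x y k e → R x y k e')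
    (good : ∀ x₀ : ℝ, (a : ℝ) ≤ x₀ → x₀ ≤ b → ∀ η : ℝ, 0 < η → ∃ δ : ℝ, 0 < δ ∧
      ∀ x y : ℚ, x₀ - δ < x → (x : ℝ) ≤ x₀ → x₀ ≤ y → (y : ℝ) < x₀ + δ → x < y → a ≤ x →
      y ≤ b → ∃ k₀ : ℝ, 0 < k₀ ∧ ∀ k : ℝ, 0 < k → k ≤ k₀ → R x y k (η * (y - x))) {ε : ℝ}
    (hε : 0 < ε) : ∃ k₀ : ℝ, 0 < k₀ ∧ ∀ k : ℝ, 0 < k → k ≤ k₀ → R a b k ε := by
  have habr : (a : ℝ) < b := by exact_mod_cast hab
  have hd : 0 < (b : ℝ) - a := by linarith
  obtain ⟨η, hη⟩ : ∃ η, η = ε / ((b : ℝ) - a) := ⟨_, rfl⟩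
  have hη0 : 0 < η := by rw [hη]; positivity
  have hη1 : η * ((b : ℝ) - a) = ε := by rw [hη]; field_simp
  obtain ⟨G, hG⟩ : ∃ G : ℚ → ℚ → Prop, G = fun x y => ∃ k₀ : ℝ, 0 < k₀ ∧ ∀ k : ℝ, 0 < k →
    k ≤ k₀ → R x y k (η * (y - x)) := ⟨_, rfl⟩
  have hGadd : ∀ x y z : ℚ, a ≤ x → x < y → y < z → z ≤ b → G x y → G y z → G x z := by
    intro x y z h1 h2 h3 h4 h5 h6
    rw [hG] at h5 h6 ⊢
    obtain ⟨k₁, hk₁, r1⟩ := h5
    obtain ⟨k₂, hk₂, r2⟩ := h6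
    refine ⟨min k₁ k₂, lt_min hk₁ hk₂, fun k hk hkk => ?_⟩
    refine hm _ _ _ _ _ (le_of_eq ?_) (hR x y z k _ _ h1 h2 h3 h4 hk
      (r1 k hk (hkk.trans (min_le_left _ _))) (r2 k hk (hkk.trans (min_le_right _ _))))
    ring
  obtain ⟨T, hT⟩ : ∃ T : Set ℝ, T = {t : ℝ | (a : ℝ) ≤ t ∧ t ≤ b ∧ ∀ y : ℚ, (y : ℝ) ≤ t →
    a < y → G a y} := ⟨_, rfl⟩
  have hTa : (a : ℝ) ∈ T := by
    rw [hT]
    refine ⟨le_rfl, habr.le, fun y h1 h2 => ?_⟩
    have : y ≤ a := by exact_mod_cast h1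
    exact absurd h2 (not_lt.2 this)
  have hTb : BddAbove T := ⟨b, fun t ht => by rw [hT] at ht; exact ht.2.1⟩
  obtain ⟨s, hs⟩ : ∃ s, s = sSup T := ⟨_, rfl⟩
  have hsa : (a : ℝ) ≤ s := by rw [hs]; exact le_csSup hTb hTa
  have hsb : s ≤ b := by
    rw [hs]
    exact csSup_le ⟨_, hTa⟩ fun t ht => by rw [hT] at ht; exact ht.2.1
  obtain ⟨δ, hδ, hgood⟩ := good s hsa hsb η hη0
  have key : ∀ y : ℚ, a < y → y ≤ b → (y : ℝ) < s + δ → G a y := by
    intro y hy1 hy2 hy3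
    by_cases hcase : ∃ t ∈ T, (y : ℝ) ≤ t
    · obtain ⟨t, ht, hyt⟩ := hcase
      rw [hT] at ht
      exact ht.2.2 y hyt hy1
    · push Not at hcase
      have hys : s ≤ y := by
        rw [hs]
        exact csSup_le ⟨_, hTa⟩ fun t ht => (hcase t ht).le
      rcases hsa.eq_or_lt with h | h
      · rw [hG]
        refine hgood a y (by linarith) (le_of_eq h) hys hy3 hy1 le_rfl hy2
      · obtain ⟨x, hx1, hx2⟩ := exists_rat_btwn (max_lt h (by linarith : s - δ < s))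
        have hx3 : (a : ℝ) < x := (le_max_left _ _).trans_lt hx1
        have hx4 : s - δ < x := (le_max_right _ _).trans_lt hx1
        have hxy : x < y := by
          have : (x : ℝ) < y := hx2.trans_le hys
          exact_mod_cast this
        have hax : a < x := by exact_mod_cast hx3
        have g1 : G a x := by
          rw [hs] at hx2
          obtain ⟨t, ht, hxt⟩ := exists_lt_of_lt_csSup ⟨_, hTa⟩ hx2
          rw [hT] at ht
          exact ht.2.2 x hxt.le hax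
        have g2 : G x y := by
          rw [hG]
          exact hgood x y hx4 hx2.le hys hy3 hxy hax.le hy2
        exact hGadd a x y le_rfl hax hxy hy2 g1 g2
  have hsb' : s = b := by
    by_contra hne
    have hlt : s < b := lt_of_le_of_ne hsb hne
    have hmem : min (b : ℝ) (s + δ / 2) ∈ T := by
      rw [hT]
      refine ⟨le_min habr.le (by linarith), min_le_left _ _, fun y h1 h2 => ?_⟩
      refine key y h2 ?_ ?_
      · have : (y : ℝ) ≤ b := h1.trans (min_le_left _ _)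
        exact_mod_cast this
      · have : (y : ℝ) ≤ s + δ / 2 := h1.trans (min_le_right _ _)
        linarith
    have h1 : min (b : ℝ) (s + δ / 2) ≤ s := by
      rw [hs]
      rw [hs] at hmem
      exact le_csSup hTb hmem
    rcases min_le_iff.1 h1 with h2 | h2 <;> linarith
  have h1 : G a b := key b hab le_rfl (by rw [hsb']; linarith)
  rw [hG] at h1
  obtain ⟨k₀, hk₀, h2⟩ := h1
  refine ⟨k₀, hk₀, fun k hk hkk => ?_⟩
  have := h2 k hk hkk
  rwa [hη1] at this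

/-- **Cuts**: a property of rationals which is inherited upwards. -/
theorem exists_cut {Φ : ℚ → Prop} {a b : ℚ} (hab : a < b)
    (hΦ : ∀ x y : ℚ, a ≤ x → x ≤ y → y ≤ b → Φ x → Φ y) :
    ∃ c : ℝ, (a : ℝ) ≤ c ∧ c ≤ b ∧ (∀ x : ℚ, a ≤ x → (x : ℝ) < c → ¬ Φ x) ∧
      ∀ x : ℚ, c < x → x ≤ b → Φ x := by
  have habr : (a : ℝ) < b := by exact_mod_cast hab
  obtain ⟨T, hT⟩ : ∃ T : Set ℝ, T = {t : ℝ | (a : ℝ) ≤ t ∧ t ≤ b ∧ ∀ x : ℚ, a ≤ x →
    (x : ℝ) < t → ¬ Φ x} := ⟨_, rfl⟩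
  have hTa : (a : ℝ) ∈ T := by
    rw [hT]
    refine ⟨le_rfl, habr.le, fun x h1 h2 => ?_⟩
    have : x < a := by exact_mod_cast h2
    exact absurd h1 (not_le.2 this)
  have hTb : BddAbove T := ⟨b, fun t ht => by rw [hT] at ht; exact ht.2.1⟩
  refine ⟨sSup T, le_csSup hTb hTa, csSup_le ⟨_, hTa⟩ fun t ht => by rw [hT] at ht; exact ht.2.1,
    ?_, ?_⟩
  · intro x hx1 hx2
    obtain ⟨t, ht, hxt⟩ := exists_lt_of_lt_csSup ⟨_, hTa⟩ hx2
    rw [hT] at ht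
    exact ht.2.2 x hx1 hxt
  · intro x hx1 hx2
    by_contra hcon
    have hax : (a : ℝ) ≤ x := (le_csSup hTb hTa).trans hx1.le
    have hax' : a ≤ x := by exact_mod_cast hax
    have hmem : (x : ℝ) ∈ T := by
      rw [hT]
      refine ⟨hax, by exact_mod_cast hx2, fun y h1 h2 h3 => ?_⟩
      exact hcon (hΦ y x h1 (by exact_mod_cast h2.le) hx2 h3)
    exact absurd (le_csSup hTb hmem) (not_le.2 hx1)

end Pool.S6C
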