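import Pool.Agent.H77.S6C.Ust
import Pool.Agent.H23.S6E.Vdf
import Pool.Agent.H51.S6.Sel

/-!
# The U-step: the local statements

`UVStmt` says that the rows of the two directions of a plank of thickness `p` are full, given a
label of the window `v`. The deficits are summed over a finite mesh `x₀ < x₁ < ...` of windows
between `v` and `p`. In the cells `[x, y]` with slopes the rows are full (`UVLStmt`), in the other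
cells the deficit grows at most by `3 (y - x)` (`LXStmt`).
-/

set_option autoImplicit false

namespace Pool.S6C

open Finset Real
open Pool.Agent.H49.Ent Pool.Agent.H32.Dense Pool.STK Pool.KA Pool.KSAT Pool.K2S Pool.PB Pool.KS6

/-- **Side label** of the windows `w` with a plank: a function of the exact point, and of the line
with its window. -/
structure PkL {J : ℕ} (F : Fam 3 J) (A : F.Ω → Prop) (ς : Fin 3 → Fin 3) (w lam P : ℕ) (C : ℝ)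
    {Λ : Type} (κ : F.Ω → Λ) (pl : Λ → Pln) : Prop where
  inc : ∀ ω, A ω → Inc (ς 0) (ς 1) (ς 2) w lam P C (pl (κ ω)) (F.t ω) (F.x ω) (F.d ω)
  pt : ∃ φ : (Fin 3 → ℤ) × (ℕ × F.ζ) → Λ, ∀ ω, A ω → κ ω = φ (Fam.pt F ω)
  sl : ∃ ψ : ((Fin 3 → ℝ) × (Fin 3 → ℝ)) × F.ζ × ℕ → Λ, ∀ ω, A ω → κ ω = ψ (slam F w ω)

/-- **Own slopes**: the slopes of the fans at exact points, the fans are straight to `L` digits in
the coordinates `ς 0`, `ς 1`. -/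
structure OwnS {J : ℕ} (F : Fam 3 J) (A : F.Ω → Prop) (ς : Fin 3 → Fin 3) (L : ℕ) (C : ℝ)
    (al : F.Ω → ℝ) : Prop where
  pt : ∃ φ : (Fin 3 → ℤ) × (ℕ × F.ζ) → ℝ, ∀ ω, A ω → al ω = φ (Fam.pt F ω)
  bd : ∀ ω, A ω → |al ω| ≤ C
  on : ∃ nu : (Fin 3 → ℤ) × (ℕ × F.ζ) → ℝ, ∀ ω, A ω →
    |F.d ω (ς 1) - al ω * F.d ω (ς 0) - nu (Fam.pt F ω)| ≤ C / 2 ^ L

/-- **Label of the direction** for the windows `w`, with `l` digits. -/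
structure DirS {J : ℕ} (F : Fam 3 J) (A : F.Ω → Prop) (w l : ℕ) (C : ℝ) (al a : F.Ω → ℝ) :
    Prop where
  sl : ∃ ψ : ((Fin 3 → ℝ) × (Fin 3 → ℝ)) × F.ζ × ℕ → ℝ, ∀ ω, A ω → a ω = ψ (slam F w ω)
  grd : ∀ ω, A ω → ∃ z : ℤ, a ω = z / 2 ^ l
  near : ∀ ω, A ω → |al ω - a ω| ≤ C / 2 ^ l

/-- The number of digits of the direction for the windows `x`: `rot x - k`, but not beyond the
thickness `p`. -/
noncomputable def lam (ρ : Row) (p k : ℝ) (x : ℚ) (J : ℕ) : ℕ :=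
  ⌊min (ρ.rot x - k) (p - x) * J⌋₊

/-- The level of the second coordinate in the planks for the windows `x`. -/
noncomputable def lvl (ρ : Row) (p k : ℝ) (x : ℚ) (J : ℕ) : ℕ :=
  ⌊(x : ℝ) * J⌋₊ + lam ρ p k x J

/-- The same as a number. -/
noncomputable def Pu (ρ : Row) (p : ℝ) (x : ℚ) : ℝ := min p (x + ρ.rot x)

/-- **The rows of the cell `[x, y]`** have at least the entropy `g`, given the box of the window `x`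
in the own frame, the own slope and any label of the windows `v` with a plank of thickness `p`. -/
def RIn (S : PCl 3) (i₀ : Fin 3) (ρ : Row) (p : ℝ) (v x y : ℚ) (k g : ℝ) : Prop :=
  ∀ C : ℝ, 1 ≤ C → Clp S (fun J F A => ∀ ς : Fin 3 → Fin 3, Function.Injective ς → ς 0 = i₀ →
    ∀ (Λ : Type) (κ : F.Ω → Λ) (pl : Λ → Pln) (al : F.Ω → ℝ),
    PkL F A ς ⌊(v : ℝ) * J⌋₊ ⌊(ρ.rot v - k) * J⌋₊ ⌊p * J⌋₊ C κ pl →
    OwnS F A ς ⌊(ρ.pi - k) * J⌋₊ C al →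
    g * J * Real.log 2 ≤ CH (Pool.Agent.H49.Ent.cond F.p A True)
      (F.sbx ς ⌊(y : ℝ) * J⌋₊ (lvl ρ p k y J) ⌊p * J⌋₊ al (fun ω => -(pl (κ ω)).s)
        (fun ω => -(pl (κ ω)).c))
      (fun ω => (F.sbx ς ⌊(x : ℝ) * J⌋₊ (lvl ρ p k x J) ⌊p * J⌋₊ al (fun ω => -(pl (κ ω)).s)
        (fun ω => -(pl (κ ω)).c) ω, (al ω, (κ ω, F.W ω)))))

/-- The rows of the cell `[x, y]` are full up to `η (y - x)`. -/
def RFull (S : PCl 3) (i₀ : Fin 3) (ρ : Row) (p : ℝ) (v x y : ℚ) (η : ℝ) : Prop :=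
  ∃ k₀ : ℝ, 0 < k₀ ∧ ∀ k : ℝ, 0 < k → k ≤ k₀ → RIn S i₀ ρ p v x y k
    (((y : ℝ) - x) + (Pu ρ p y - Pu ρ p x) - η * (y - x))

/-- The rows of the small cells around `x₀` are full. -/
def RPt (S : PCl 3) (i₀ : Fin 3) (ρ : Row) (p : ℝ) (v : ℚ) (x₀ : ℝ) : Prop :=
  ∀ η : ℝ, 0 < η → ∃ δ : ℝ, 0 < δ ∧ ∀ x y : ℚ, x₀ - δ < x → (x : ℝ) ≤ x₀ → x₀ ≤ y →
    (y : ℝ) < x₀ + δ → x < y → RFull S i₀ ρ p v x y η

/-- The hypotheses on the thickness `p` and on the window `v` of the side label. -/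
structure PV (ρ : Row) (p : ℝ) (v : ℚ) : Prop where
  p0 : 0 < p
  p1 : p < 1
  v0 : 0 < v
  vp : (v : ℝ) + ρ.rot v < p
  tn : ρ.rot v < ρ.pi
  th : p < ρ.th v

/-- **(UVL)** The rows are full in the small cells around almost all windows. -/
def UVLStmt : Prop :=
  ∀ (S : PCl 3) (a R h₁ : ℝ) (i₀ : Fin 3) (c s₂ : ℝ) (r : ℝ → ℝ) (D : Set ℝ) (σ : ℝ → Row),
    Cs S a R h₁ i₀ c s₂ r D σ → ∀ (p : ℝ) (v : ℚ), PV (σ 1) p v →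
    ∃ N : Set ℝ, MeasureTheory.volume N = 0 ∧ ∀ x₀ : ℝ, (v : ℝ) < x₀ → x₀ < p → x₀ ∉ N →
      RPt S i₀ (σ 1) p v x₀

/-- **(UVLA)** The same where the directions turn. -/
def UVLAStmt : Prop :=
  ∀ (S : PCl 3) (a R h₁ : ℝ) (i₀ : Fin 3) (c s₂ : ℝ) (r : ℝ → ℝ) (D : Set ℝ) (σ : ℝ → Row),
    Cs S a R h₁ i₀ c s₂ r D σ → ∀ (p : ℝ) (v : ℚ), PV (σ 1) p v →
    ∃ N : Set ℝ, MeasureTheory.volume N = 0 ∧ ∀ x₀ : ℝ, (v : ℝ) < x₀ → x₀ ∉ N →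
      (∃ y₀ : ℚ, x₀ < y₀ ∧ (σ 1).rot y₀ < (σ 1).pi ∧ (y₀ : ℝ) + (σ 1).rot y₀ < p) →
      RPt S i₀ (σ 1) p v x₀

/-- **(UVLB)** Regime beta: the fans are two-dimensional beyond the precision `pi`, which the
directions have reached. -/
def UVLBStmt : Prop :=
  ∀ (S : PCl 3) (a R h₁ : ℝ) (i₀ : Fin 3) (c s₂ : ℝ) (r : ℝ → ℝ) (D : Set ℝ) (σ : ℝ → Row),
    Cs S a R h₁ i₀ c s₂ r D σ → ∀ (p : ℝ) (v : ℚ), PV (σ 1) p v →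
    ∀ x₀ : ℝ, (v : ℝ) < x₀ → ∀ x₁ y₁ : ℚ, v < x₁ → (x₁ : ℝ) < x₀ → x₀ < y₁ →
      (σ 1).rot x₁ = (σ 1).pi → (σ 1).rot y₁ = (σ 1).pi → (y₁ : ℝ) + (σ 1).pi < p →
      RPt S i₀ (σ 1) p v x₀

/-- **(UVLC)** Only the rows of the first coordinate are left. -/
def UVLCStmt : Prop :=
  ∀ (S : PCl 3) (a R h₁ : ℝ) (i₀ : Fin 3) (c s₂ : ℝ) (r : ℝ → ℝ) (D : Set ℝ) (σ : ℝ → Row),
    Cs S a R h₁ i₀ c s₂ r D σ → ∀ (p : ℝ) (v : ℚ), PV (σ 1) p v →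
    ∀ x₀ : ℝ, (v : ℝ) < x₀ → x₀ < p → ∀ x₁ : ℚ, v < x₁ → (x₁ : ℝ) < x₀ →
      p ≤ (x₁ : ℝ) + (σ 1).rot x₁ → RPt S i₀ (σ 1) p v x₀

/-- **(LX)** LEMMA X: jumps of the directions cost no fullness. The label `κ` of the windows `x`
contains the direction `fa κ` and a plank for the windows `v ≤ x`. -/
def LXStmt : Prop :=
  ∀ (S : PCl 3) (a R h₁ : ℝ) (i₀ : Fin 3) (c s₂ : ℝ) (r : ℝ → ℝ) (D : Set ℝ) (σ : ℝ → Row),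
    Cs S a R h₁ i₀ c s₂ r D σ → ∀ (p : ℝ) (v : ℚ), PV (σ 1) p v →
    ∀ x y : ℚ, v < x → x < y → (y : ℝ) < p → ∀ η : ℝ, 0 < η → ∃ k₀ : ℝ, 0 < k₀ ∧
    ∀ k : ℝ, 0 < k → k ≤ k₀ → ∀ C : ℝ, 1 ≤ C → Clp S (fun J F A =>
      ∀ ς : Fin 3 → Fin 3, Function.Injective ς → ς 0 = i₀ →
      ∀ (Λ : Type) (κ : F.Ω → Λ) (pl : Λ → Pln) (fa : Λ → ℝ) (al a' : F.Ω → ℝ),
      (∀ ω, A ω → Inc (ς 0) (ς 1) (ς 2) ⌊(v : ℝ) * J⌋₊ ⌊((σ 1).rot v - k) * J⌋₊ ⌊p * J⌋₊ C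
        (pl (κ ω)) (F.t ω) (F.x ω) (F.d ω)) →
      (∃ ψ : ((Fin 3 → ℝ) × (Fin 3 → ℝ)) × F.ζ × ℕ → Λ, ∀ ω, A ω →
        κ ω = ψ (slam F ⌊(x : ℝ) * J⌋₊ ω)) →
      CH (Pool.Agent.H49.Ent.cond F.p A True) κ (Fam.pt F) ≤ C →
      OwnS F A ς ⌊((σ 1).pi - k) * J⌋₊ C al →
      DirS F A ⌊(x : ℝ) * J⌋₊ (lam (σ 1) p k x J) C al (fun ω => fa (κ ω)) →
      DirS F A ⌊(y : ℝ) * J⌋₊ (lam (σ 1) p k y J) C al a' →
      F.vdf (Pool.Agent.H49.Ent.cond F.p A True) ς ⌊(x : ℝ) * J⌋₊ (lvl (σ 1) p k x J) ⌊p * J⌋₊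
          (fun ω => fa (κ ω)) (fun ω => -(pl (κ ω)).s) (fun ω => -(pl (κ ω)).c)
          (fun ω => (κ ω, F.W ω)) ≤
        F.vdf (Pool.Agent.H49.Ent.cond F.p A True) ς ⌊(y : ℝ) * J⌋₊ (lvl (σ 1) p k y J) ⌊p * J⌋₊
          a' (fun ω => -(pl (κ ω)).s) (fun ω => -(pl (κ ω)).c)
          (fun ω => ((κ ω, a' ω), F.W ω)) + (3 * (y - x) + η) * J * Real.log 2)

end Pool.S6C
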