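import Pool.Agent.H51.S6.Own
import Pool.Agent.H51.S6.Sum2
import Pool.Agent.H5.K2.Exh
import Pool.Agent.H40.S6.ActQ
import Pool.Agent.H75.S6C.Th
import Pool.Agent.H80.S6C.Num
import Pool.Agent.H40.S6.Ev

/-!
# The U-step: assembly

The deficit of the natural box of the window `v` is small: the deficits do not change in the cells
around almost all windows (`UVLA`, `UVLB`, `UVLC`), the other cells are short (`LX`).
-/

set_option autoImplicit false

namespace Pool.S6V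

open Finset Real
open Pool.Agent.H49.Ent Pool.Agent.H32.Dense Pool.STK Pool.KA Pool.KSAT Pool.K2S Pool.PB Pool.KS6
  Pool.S6C Pool.S6U

theorem RDf.trans {S : PCl 3} {i₀ : Fin 3} {ρ : Row} {T p : ℝ} {v : ℚ} {q H : ℝ} {x y z : ℚ}
    {k e e' : ℝ} (h : RDf S i₀ ρ T p v q H x y k e) (h' : RDf S i₀ ρ T p v q H y z k e') :
    RDf S i₀ ρ T p v q H x z k (e + e') := by
  intro C hC
  refine Clp.mono (J₂ := 0) ((h C hC).and (h' C hC)) ?_
  rintro J - F A ⟨h1, h2⟩ ς hς hς0 Λ κ pl al hκ hN hal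
  have k1 := h1 ς hς hς0 Λ κ pl al hκ hN hal
  have k2 := h2 ς hς hς0 Λ κ pl al hκ hN hal
  have e1 : (e + e') * J * Real.log 2 = e * J * Real.log 2 + e' * J * Real.log 2 := by ring
  rw [e1]
  linarith only [k1, k2]

theorem RDf.mono {S : PCl 3} {i₀ : Fin 3} {ρ : Row} {T p : ℝ} {v : ℚ} {q H : ℝ} {x y : ℚ}
    {k e e' : ℝ} (he : e ≤ e') (h : RDf S i₀ ρ T p v q H x y k e) :
    RDf S i₀ ρ T p v q H x y k e' := by
  intro C hC
  refine Clp.mono (J₂ := 0) (h C hC) ?_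
  intro J _ F A h1 ς hς hς0 Λ κ pl al hκ hN hal
  refine (h1 ς hς hς0 Λ κ pl al hκ hN hal).trans (add_le_add le_rfl ?_)
  exact mul_le_mul_of_nonneg_right (mul_le_mul_of_nonneg_right he (Nat.cast_nonneg J))
    (Real.log_nonneg (by norm_num))

theorem RFull.mono {S : PCl 3} {i₀ : Fin 3} {ρ : Row} {T p : ℝ} {v : ℚ} {q H : ℝ} {x y : ℚ}
    {e e' : ℝ} (he : e ≤ e') (h : RFull S i₀ ρ T p v q H x y e) :
    RFull S i₀ ρ T p v q H x y e' := by
  obtain ⟨k₀, hk₀, h1⟩ := h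
  exact ⟨k₀, hk₀, fun k hk hkk => (h1 k hk hkk).mono he⟩

theorem RFull.trans {S : PCl 3} {i₀ : Fin 3} {ρ : Row} {T p : ℝ} {v : ℚ} {q H : ℝ}
    {x y z : ℚ} {e e' : ℝ} (h : RFull S i₀ ρ T p v q H x y e)
    (h' : RFull S i₀ ρ T p v q H y z e') : RFull S i₀ ρ T p v q H x z (e + e') := by
  obtain ⟨k₁, hk₁, h1⟩ := h
  obtain ⟨k₂, hk₂, h2⟩ := h'
  exact ⟨min k₁ k₂, lt_min hk₁ hk₂, fun k hk hkk => (h1 k hk (hkk.trans (min_le_left _ _))).trans
    (h2 k hk (hkk.trans (min_le_right _ _)))⟩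

/-- Two windows at which a bounded function is almost the same. -/
theorem pick_flat {f : ℚ → ℝ} {w w' : ℚ} (hw : w < w')
    (h0 : ∀ x, w < x → x < w' → 0 ≤ f x) (h1 : ∀ x, w < x → x < w' → f x ≤ 1) {h : ℝ}
    (hh : 0 < h) : ∃ v β : ℚ, w < v ∧ v < β ∧ β < w' ∧ (β : ℝ) - v ≤ h ∧ f β - f v ≤ h := by
  obtain ⟨m, hm⟩ := exists_nat_gt (1 / h + ((w' : ℝ) - w) / h)
  have hww : (0 : ℝ) < (w' : ℝ) - w := by
    have : (w : ℝ) < w' := by exact_mod_cast hw
    linarith only [this]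
  have q1 : 0 < 1 / h := by positivity
  have q2 : 0 < ((w' : ℝ) - w) / h := by positivity
  have m1 : 1 < (m : ℝ) * h := by
    have : 1 / h < (m : ℝ) := by linarith only [hm, q2]
    rwa [div_lt_iff₀ hh] at this
  have m2 : (w' : ℝ) - w < (m : ℝ) * h := by
    have : ((w' : ℝ) - w) / h < (m : ℝ) := by linarith only [hm, q1]
    rwa [div_lt_iff₀ hh] at this
  obtain ⟨δ, hδ⟩ : ∃ δ : ℚ, δ = (w' - w) / (m + 2) := ⟨_, rfl⟩
  have hm0 : (0 : ℚ) < m + 2 := by positivity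
  have hδ0 : 0 < δ := by
    rw [hδ]
    exact div_pos (by linarith only [hw]) hm0
  have hδm : δ * (m + 2) = w' - w := by
    rw [hδ]
    field_simp
  obtain ⟨z, hz⟩ : ∃ z : ℕ → ℚ, z = fun i : ℕ => w + ((i : ℚ) + 1) * δ := ⟨_, rfl⟩
  have z1 : ∀ i, w < z i := by
    intro i
    rw [hz]
    show w < w + ((i : ℚ) + 1) * δ
    have : 0 < ((i : ℚ) + 1) * δ := by positivity
    linarith only [this]
  have z2 : ∀ i ≤ m, z i < w' := by
    intro i hi
    rw [hz]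
    show w + ((i : ℚ) + 1) * δ < w'
    have : ((i : ℚ) + 1) * δ < (m + 2) * δ := by
      refine mul_lt_mul_of_pos_right ?_ hδ0
      have : (i : ℚ) ≤ m := by exact_mod_cast hi
      linarith only [this]
    linarith only [hδm, this]
  have z3 : ∀ i, z (i + 1) = z i + δ := by
    intro i
    rw [hz]
    show w + (((i + 1 : ℕ) : ℚ) + 1) * δ = w + ((i : ℚ) + 1) * δ + δ
    push_cast
    ring
  have hδh : (δ : ℝ) ≤ h := by
    have e : (δ : ℝ) * (m + 2) = w' - w := by exact_mod_cast hδm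
    have hδ0' : (0 : ℝ) < δ := by exact_mod_cast hδ0
    have hmr : (0 : ℝ) ≤ m := Nat.cast_nonneg m
    have hm' : (0 : ℝ) < m := by
      rcases hmr.eq_or_lt with h2 | h2
      · rw [← h2] at m1
        linarith only [m1]
      · exact h2
    by_contra hcon
    push Not at hcon
    have : (m : ℝ) * h < m * δ := mul_lt_mul_of_pos_left hcon hm'
    nlinarith only [hh, m2, e, hcon, this]
  by_contra hcon
  push Not at hcon
  have key : ∀ i ≤ m, f (z 0) + i * h ≤ f (z i) := by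
    intro i
    induction i with
    | zero => intro _; simp
    | succ i ih =>
      intro hi
      have k1 := ih (by omega)
      have k2 := hcon (z i) (z (i + 1)) (z1 i) (by rw [z3]; linarith only [hδ0]) (z2 (i + 1) hi) (by
        rw [z3]
        push_cast
        linarith only [hδh])
      push_cast
      linarith only [k1, k2]
  have k1 := key m le_rfl
  have k2 := h0 (z 0) (z1 0) (z2 0 (Nat.zero_le _))
  have k3 := h1 (z m) (z1 m) (z2 m le_rfl)
  linarith only [m1, k1, k2, k3]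

/-- **The regime in which the directions turn**: the deficit of the window `β` is at most the
deficit of the window `a₁`. -/
theorem path_A (hA : UVLAStmt) (hX : LXStmt) {S : PCl 3} {a R h₁ : ℝ} {i₀ : Fin 3} {c s₂ : ℝ}
    {r : ℝ → ℝ} {D : Set ℝ} {σ : ℝ → Row} (hC : Cs S a R h₁ i₀ c s₂ r D σ) {act : ℚ → ℝ}
    {κ : ℝ} (hact : ActD S i₀ act κ) {T p : ℝ} {v : ℚ} {q H : ℝ} (hv : PV (σ 1) T p v q H)
    {a₀ α : ℝ} (hAP : AcP act q a₀ α) {β a₁ : ℚ} (hvβ : v < β) (hβa : β < a₁)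
    (hβH : p - β < H) (hap : (a₁ : ℝ) < p) (hra : (σ 1).rot a₁ + q < (σ 1).pi)
    (hpa : (a₁ : ℝ) + (σ 1).rot a₁ + q < p) {δ : ℝ} (hδ : 0 < δ) :
    RFull S i₀ (σ 1) T p v q H β a₁ δ := by
  have hR1 := hC.row 1 one_pos le_rfl hC.D1
  have hv0 : (0 : ℝ) < v := by exact_mod_cast hv.v0
  have hvβr : (v : ℝ) < β := by exact_mod_cast hvβ
  obtain ⟨N, hN, hgood⟩ := hA S a R h₁ i₀ c s₂ r D σ hC act κ hact T p v q H hv a₀ α hAP
  have := sum_mesh (R := RDf S i₀ (σ 1) T p v q H) hβa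
    (fun x y z k e e' _ _ _ _ _ h h' => h.trans h') (fun x y k e e' he h => h.mono he)
    (N := N) (μ := 0) le_rfl (by rw [hN]; exact bot_le) (M := 8) (by norm_num)
    (fun x₀ g1 g2 g3 η hη => by
      obtain ⟨d, hd, hcell⟩ := hgood x₀ (by linarith only [hvβr, g1]) g3 (by linarith only [hβH, g1])
        ⟨a₁, g2, hap.trans hv.p1, hra, hpa⟩ η hη
      exact ⟨d, hd, fun x y q1 q2 q3 q4 q5 _ _ => hcell x y q1 q2 q3 q4 q5⟩)
    (fun x y g1 g2 g3 η hη => by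
      have g1r : (β : ℝ) ≤ x := by exact_mod_cast g1
      have g2r : (x : ℝ) < y := by exact_mod_cast g2
      have g3r : (y : ℝ) ≤ a₁ := by exact_mod_cast g3
      have hvx : (v : ℝ) < x := by linarith
      have h1 := hX S a R h₁ i₀ c s₂ r D σ hC act κ hact T p v q H hv a₀ α hAP x y
        (by exact_mod_cast hvx.le) (Or.inl (by exact_mod_cast hvx)) g2 (by linarith)
        (by linarith) η hη
      have hy0 : 0 ≤ y := by
        have : (0 : ℝ) ≤ y := by linarith only [hv0, hvβr, g1r, g2r]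
        exact_mod_cast this
      have ha1 : a₁ ≤ 1 := by
        have : (a₁ : ℝ) ≤ 1 := by linarith only [hap, hv, hv.p1]
        exact_mod_cast this
      have h2 := rot_window hC.ne hR1 hy0 g3 ha1
      have h3 : max 0 ((σ 1).rot y + q - (σ 1).pi) = 0 := max_eq_left (by linarith only [hra, h2])
      refine RFull.mono (le_of_eq ?_) h1
      rw [h3]
      ring) hδ
  refine RFull.mono (le_of_eq ?_) this
  ring

/-- **The deficits of the windows `β` and `e₀`** near the two ends, for a small base velocity. -/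
theorem uv_path (hA : UVLAStmt) (hB : UVLBStmt) (hCC : UVLCStmt) (hX : LXStmt) {S : PCl 3}
    {a R h₁ : ℝ} {i₀ : Fin 3} {c s₂ : ℝ} {r : ℝ → ℝ} {D : Set ℝ} {σ : ℝ → Row}
    (hC : Cs S a R h₁ i₀ c s₂ r D σ) {act : ℚ → ℝ} {κ : ℝ} (hact : ActD S i₀ act κ) {p : ℝ}
    {v : ℚ} (hp0 : 0 < p) (hp1 : p < 1) (hv0' : 0 < v) (htn : (σ 1).rot v < (σ 1).pi)
    (hth : p < (σ 1).th v) {β w' e₀ : ℚ} (hvβ : v < β) (hβw : β < w') (hwe : w' < e₀)
    (hep : (e₀ : ℝ) < p) (hwp : (w' : ℝ) + (σ 1).rot w' < p) (hrot : (σ 1).rot w' < (σ 1).pi)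
    {δ : ℝ} (hδ : 0 < δ) :
    ∃ q : ℝ, 0 < q ∧ q < δ ∧ (e₀ : ℝ) + q < p ∧
      RFull S i₀ (σ 1) p p v q (p - v) β e₀ (53 * δ + 4 * q) := by
  have hR1 := hC.row 1 one_pos le_rfl hC.D1
  have hv0 : (0 : ℝ) < v := by exact_mod_cast hv0'
  have hvβr : (v : ℝ) < β := by exact_mod_cast hvβ
  have hβwr : (β : ℝ) < w' := by exact_mod_cast hβw
  have hwer : (w' : ℝ) < e₀ := by exact_mod_cast hwe
  have hβe : β < e₀ := hβw.trans hwe
  have rge : ∀ x : ℚ, (v : ℝ) < x → (x : ℝ) ≤ e₀ → (0 ≤ x ∧ x ≤ 1) := by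
    intro x h1 h2
    have h3 : (x : ℝ) < 1 := (h2.trans_lt hep).trans hp1
    have h4 : (0 : ℝ) < x := hv0.trans h1
    exact ⟨by exact_mod_cast h4.le, by exact_mod_cast h3.le⟩
  have mono : ∀ x y : ℚ, (v : ℝ) < x → (x : ℝ) ≤ y → (y : ℝ) ≤ e₀ →
      (σ 1).rot x ≤ (σ 1).rot y := by
    intro x y h1 h2 h3
    refine rot_window hC.ne hR1 (rge x h1 (h2.trans h3)).1 ?_ (rge y (h1.trans_le h2) h3).2
    exact_mod_cast h2
  have lepi : ∀ x : ℚ, (v : ℝ) < x → (x : ℝ) ≤ e₀ → (σ 1).rot x ≤ (σ 1).pi := fun x h1 h2 =>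
    rot_le_pi hC.ne hR1 (rge x h1 h2).1 (rge x h1 h2).2
  -- the window at which the directions reach `pi`
  obtain ⟨cpi, cp1, cp2, cp3, cp4⟩ := exists_cut (Φ := fun x => (σ 1).rot x = (σ 1).pi) hβe
    (fun x y h1 h2 h3 h4 => by
      have h1r : (β : ℝ) ≤ x := by exact_mod_cast h1
      have h2r : (x : ℝ) ≤ y := by exact_mod_cast h2
      have h3r : (y : ℝ) ≤ e₀ := by exact_mod_cast h3
      refine le_antisymm (lepi y (by linarith only [hvβr, h1r, h2r]) h3r) ?_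
      rw [← h4]
      exact mono x y (by linarith) h2r h3r)
  have cpw : (w' : ℝ) ≤ cpi := by
    by_contra hcon
    push Not at hcon
    have := cp4 w' hcon hwe.le
    linarith only [hrot, this]
  obtain ⟨x', hx'1, hx'2⟩ := exists_rat_btwn (show max (β : ℝ) (cpi - δ) < cpi from
    max_lt (by linarith only [hβwr, cpw]) (by linarith only [hδ]))
  have hx'β : (β : ℝ) < x' := (le_max_left _ _).trans_lt hx'1
  have hx'δ : cpi - δ < x' := (le_max_right _ _).trans_lt hx'1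
  have hx'e : (x' : ℝ) ≤ e₀ := hx'2.le.trans cp2
  have hx'pi : (σ 1).rot x' < (σ 1).pi :=
    lt_of_le_of_ne (lepi x' (by linarith) hx'e) (cp3 x' (by exact_mod_cast hx'β.le) hx'2)
  -- the base velocity
  obtain ⟨qq, hqq1, hqq2, hqlow⟩ := hact.low
  have hq₁ : 0 < min (min (min δ 1) ((σ 1).pi - (σ 1).rot x'))
      (min (p - (w' : ℝ) - (σ 1).rot w') (p - e₀)) :=
    lt_min (lt_min (lt_min hδ one_pos) (by linarith only [hx'pi])) (lt_min (by linarith only [hwp]) (by linarith only [hep]))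
  obtain ⟨q, a₀, α, hq0, hq1, hα, hsl⟩ := Pool.Sel51.slp_small' hact.mono hact.lip hact.zero
    hact.pos (q₀ := (qq : ℝ)) (by exact_mod_cast hqq1)
    (fun q h1 h2 => hqlow q h1 (by exact_mod_cast h2)) hq₁
  have hqδ : q < δ :=
    hq1.trans_le (((min_le_left _ _).trans (min_le_left _ _)).trans (min_le_left _ _))
  have hq1' : q < 1 :=
    hq1.trans_le (((min_le_left _ _).trans (min_le_left _ _)).trans (min_le_right _ _))
  have hqx : q < (σ 1).pi - (σ 1).rot x' :=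
    hq1.trans_le ((min_le_left _ _).trans (min_le_right _ _))
  have hqw : q < p - (w' : ℝ) - (σ 1).rot w' :=
    hq1.trans_le ((min_le_right _ _).trans (min_le_left _ _))
  have hqe : q < p - e₀ := hq1.trans_le ((min_le_right _ _).trans (min_le_right _ _))
  have hAP : AcP act q a₀ α := ⟨hq0, hq1', hα, hsl⟩
  have hv : PV (σ 1) p p v q (p - v) := ⟨hp0, hp1, hp0, hv0', hq0.le, htn, hth, by linarith, le_rfl⟩
  refine ⟨q, hq0, hqδ, by linarith, ?_⟩
  -- the window at which only the first coordinate is left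
  obtain ⟨cC, cc1, cc2, cc3, cc4⟩ := exists_cut
    (Φ := fun x => p ≤ (x : ℝ) + (σ 1).rot x + q) hβe
    (fun x y h1 h2 h3 h4 => by
      have h1r : (β : ℝ) ≤ x := by exact_mod_cast h1
      have h2r : (x : ℝ) ≤ y := by exact_mod_cast h2
      have h3r : (y : ℝ) ≤ e₀ := by exact_mod_cast h3
      have := mono x y (by linarith) h2r h3r
      linarith only [h4, h2r, this])
  have ccw : (w' : ℝ) ≤ cC := by
    by_contra hcon
    push Not at hcon
    have := cc4 w' hcon hwe.le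
    linarith only [hqw, this]
  -- the cells with LEMMA X
  have lx : ∀ x y : ℚ, (v : ℝ) < x → (x : ℝ) < y → (y : ℝ) ≤ e₀ →
      RFull S i₀ (σ 1) p p v q (p - v) x y (8 * ((y : ℝ) - x) + 2 * q + δ) := by
    intro x y h1 h2 h3
    refine RFull.mono ?_ (hX S a R h₁ i₀ c s₂ r D σ hC act κ hact p p v q (p - v) hv a₀ α hAP
      x y (by exact_mod_cast h1.le) (Or.inl (by exact_mod_cast h1)) (by exact_mod_cast h2)
      (by linarith only [hq0, hqe, h3]) (by linarith only [h1]) δ hδ)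
    have h4 := lepi y (by linarith only [h1, h2]) h3
    have h5 : max 0 ((σ 1).rot y + q - (σ 1).pi) ≤ q := max_le hq0.le (by linarith only [h4])
    linarith only [h5]
  -- the end of the path
  have endC : ∀ x : ℚ, (v : ℝ) < x → (x : ℝ) < e₀ → cC - x ≤ 2 * δ →
      RFull S i₀ (σ 1) p p v q (p - v) x e₀ (26 * δ + 2 * q) := by
    intro x h1 h2 h3
    by_cases hcase : (e₀ : ℝ) - x ≤ 3 * δ
    · refine RFull.mono ?_ (lx x e₀ h1 h2 le_rfl)
      linarith only [hx'2, hx'δ, hcase]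
    · push Not at hcase
      obtain ⟨a₂, ha1, ha2⟩ := exists_rat_btwn (show max (x : ℝ) cC < max (x : ℝ) cC + δ by
        linarith only [hx'2, hx'δ])
      have ha3 : (x : ℝ) < a₂ := (le_max_left _ _).trans_lt ha1
      have ha4 : cC < a₂ := (le_max_right _ _).trans_lt ha1
      have ha5 : (a₂ : ℝ) < x + 3 * δ := by
        rcases max_cases (x : ℝ) cC with ⟨h, -⟩ | ⟨h, -⟩ <;> linarith
      have ha6 : (a₂ : ℝ) < e₀ := by linarith only [hcase, ha5]
      have hae : a₂ < e₀ := by exact_mod_cast ha6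
      have k1 := lx x a₂ h1 ha3 ha6.le
      have k2 : RFull S i₀ (σ 1) p p v q (p - v) a₂ e₀ δ := by
        refine sum_all (R := RDf S i₀ (σ 1) p p v q (p - v)) hae
          (fun x y z k e e' _ _ _ _ _ h h' => h.trans h') (fun x y k e e' he h => h.mono he)
          (fun x₀ g1 g2 η hη => ?_) hδ
        obtain ⟨x₁, hx1, hx2⟩ := exists_rat_btwn ha4
        have hx3 : x₁ ≤ e₀ := by
          have : (x₁ : ℝ) ≤ e₀ := by linarith only [hcase, ha5, hx2]
          exact_mod_cast this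
        have hx4 : (v : ℝ) < x₁ := by linarith only [hvβr, hβwr, ccw, hx1]
        obtain ⟨d, hd, hcell⟩ := hCC S a R h₁ i₀ c s₂ r D σ hC p p v q (p - v) hv x₀ x₁
          (by exact_mod_cast hx4) (by linarith only [g1, hx2]) (by linarith only [hqe, g2]) (cc4 x₁ hx1 hx3) η hη
        exact ⟨d, hd, fun x y q1 q2 q3 q4 q5 _ _ => hcell x y q1 q2 q3 q4 q5⟩
      refine RFull.mono ?_ (k1.trans k2)
      linarith only [ha5]
  -- the regime with slopes
  obtain ⟨a₁, ha1, ha2⟩ := exists_rat_btwn (show max (β : ℝ) (min (x' : ℝ) cC - δ) <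
    min (x' : ℝ) cC from max_lt (lt_min (by linarith only [hx'β]) (by linarith only [hβwr, ccw])) (by linarith only [hx'2, hx'δ]))
  have ha3 : (β : ℝ) < a₁ := (le_max_left _ _).trans_lt ha1
  have ha4 : min (x' : ℝ) cC - δ < a₁ := (le_max_right _ _).trans_lt ha1
  have ha5 : (a₁ : ℝ) < x' := ha2.trans_le (min_le_left _ _)
  have ha6 : (a₁ : ℝ) < cC := ha2.trans_le (min_le_right _ _)
  have hβa : β < a₁ := by exact_mod_cast ha3
  have ha7 : (a₁ : ℝ) ≤ e₀ := by linarith only [cp2, hx'2, ha5]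
  have hra : (σ 1).rot a₁ + q < (σ 1).pi := by
    have := mono a₁ x' (by linarith only [hvβr, ha3]) ha5.le hx'e
    linarith only [hqx, this]
  have hpa : (a₁ : ℝ) + (σ 1).rot a₁ + q < p := not_le.1 (cc3 a₁ hβa.le ha6)
  have k1 : RFull S i₀ (σ 1) p p v q (p - v) β a₁ δ :=
    path_A hA hX hC hact hv hAP hvβ hβa (by linarith only [hvβr]) (by linarith only [cp2, hx'2, hq0, hqe, ha5]) hra hpa hδ
  rcases le_or_gt cC cpi with hcase | hcase
  · -- no regime beta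
    have h1 : cC - a₁ ≤ 2 * δ := by
      rcases min_cases (x' : ℝ) cC with ⟨h, -⟩ | ⟨h, -⟩ <;> linarith
    have k2 := endC a₁ (by linarith only [hvβr, ha3]) (by linarith only [cp2, hx'2, ha5]) h1
    refine RFull.mono ?_ (k1.trans k2)
    linarith only [hx'2, hx'δ, hq0]
  · obtain ⟨a₂, hb1, hb2⟩ := exists_rat_btwn (show cpi < min cC (cpi + δ) from
      lt_min hcase (by linarith only [hx'2, hx'δ]))
    have hb3 : (a₂ : ℝ) < cC := hb2.trans_le (min_le_left _ _)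
    have hb4 : (a₂ : ℝ) < cpi + δ := hb2.trans_le (min_le_right _ _)
    have h1 : cpi - a₁ ≤ 2 * δ := by
      rcases min_cases (x' : ℝ) cC with ⟨h, -⟩ | ⟨h, -⟩ <;> linarith
    have k2 := lx a₁ a₂ (by linarith only [hvβr, ha3]) (by linarith only [hx'2, ha5, hb1]) (by linarith only [cc2, hb3])
    obtain ⟨a₃, hd1, hd2⟩ := exists_rat_btwn (show max (a₂ : ℝ) (cC - δ) < cC from
      max_lt hb3 (by linarith only [hx'2, hx'δ]))
    have hd3 : (a₂ : ℝ) < a₃ := (le_max_left _ _).trans_lt hd1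
    have hd4 : cC - δ < a₃ := (le_max_right _ _).trans_lt hd1
    have h23 : a₂ < a₃ := by exact_mod_cast hd3
    have hβa3 : β ≤ a₃ := by
      have : (β : ℝ) ≤ a₃ := by linarith only [hx'2, ha3, ha5, hb1, hd3]
      exact_mod_cast this
    have ha3e : a₃ ≤ e₀ := by
      have : (a₃ : ℝ) ≤ e₀ := by linarith only [cc2, hd2]
      exact_mod_cast this
    have hr3 : (σ 1).rot a₃ = (σ 1).pi := cp4 a₃ (by linarith only [hb1, hd3]) ha3e
    have hp3 : (a₃ : ℝ) + (σ 1).rot a₃ + q < p := not_le.1 (cc3 a₃ hβa3 hd2)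
    have k3 : RFull S i₀ (σ 1) p p v q (p - v) a₂ a₃ δ := by
      refine sum_all (R := RDf S i₀ (σ 1) p p v q (p - v)) h23
        (fun x y z k e e' _ _ _ _ _ h h' => h.trans h') (fun x y k e e' he h => h.mono he)
        (fun x₀ g1 g2 η hη => ?_) hδ
      obtain ⟨x₁, hx1, hx2⟩ := exists_rat_btwn hb1
      have hx3 : x₁ ≤ e₀ := by
        have : (x₁ : ℝ) ≤ e₀ := by linarith only [cc2, hd2, hd3, hx2]
        exact_mod_cast this
      have hx4 : (v : ℝ) < x₁ := by linarith only [hvβr, hβwr, cpw, hx1]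
      obtain ⟨d, hd, hcell⟩ := hB S a R h₁ i₀ c s₂ r D σ hC p p v q (p - v) hv x₀ x₁
        (by exact_mod_cast hx4) (by linarith only [g1, hx2]) (cp4 x₁ hx1 hx3) (by
          rw [hr3] at hp3
          linarith only [hp3, g2]) η hη
      exact ⟨d, hd, fun x y q1 q2 q3 q4 q5 _ _ => hcell x y q1 q2 q3 q4 q5⟩
    have k4 := endC a₃ (by linarith only [hvβr, hx'2, ha3, ha5, hb1, hd3]) (by linarith only [cc2, hd2]) (by linarith only [hx'2, hx'δ, hd4])
    refine RFull.mono ?_ (((k1.trans k2).trans k3).trans k4)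
    linarith only [hb4, h1]

/-- The plank gives straightness in the direction of its normals. -/
theorem nst_of_inc {J : ℕ} {F : Fam 3 J} {A : F.Ω → Prop} {ς : Fin 3 → Fin 3} {w lam P K H : ℕ}
    {C C' : ℝ} (hC : 0 ≤ C) (hCC : C ≤ C') {Λ : Type} {κ : F.Ω → Λ} {pl : Λ → Pln}
    (h : PkL F A ς w lam P C κ pl) (hH : w + H ≤ P) : NSt F A ς K H C' κ pl := by
  obtain ⟨φ, hφ⟩ := h.pt
  refine ⟨fun u => fn (ς 0) (ς 1) (ς 2) (pl (φ u)).c (pl (φ u)).s (pl (φ u)).db, fun _ => 0,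
    fun ω hω => ⟨?_, ?_⟩⟩
  · rw [zero_mul, sub_zero]
    have h1 := (h.inc ω hω).vn
    rw [hφ ω hω] at h1 ⊢
    refine h1.trans ?_
    rw [div_le_div_iff₀ (by positivity) (by positivity)]
    have h2 : (2 : ℝ) ^ w * 2 ^ H ≤ 2 ^ P := by
      rw [← pow_add]
      exact pow_le_pow_right₀ (by norm_num) hH
    have h3 : (0 : ℝ) < 2 ^ P := by positivity
    calc C * 2 ^ w * 2 ^ H = C * (2 ^ w * 2 ^ H) := by ring
      _ ≤ C * 2 ^ P := mul_le_mul_of_nonneg_left h2 hC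
      _ ≤ C' * 2 ^ P := mul_le_mul_of_nonneg_right hCC h3.le
  · rw [abs_zero]
    have : 0 ≤ C' := hC.trans hCC
    positivity

/-- The natural levels. -/
theorem lv_bd (ρ : Row) {p q k : ℝ} {x : ℚ} (hx : 0 ≤ x) (hq : 0 ≤ q) (hr : 0 ≤ ρ.rot x)
    (hk : 0 ≤ k) (hxp : (x : ℝ) ≤ p) (J : ℕ) :
    (lr p q x J : ℝ) ≤ (x + q) * J ∧ (lu ρ p q k x J : ℝ) ≤ (x + ρ.rot x + q) * J ∧
      (x : ℝ) * J - 1 ≤ lr p q x J ∧ (x : ℝ) * J - 1 ≤ lu ρ p q k x J := by
  have hJ : (0 : ℝ) ≤ J := Nat.cast_nonneg J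
  have hx' : (0 : ℝ) ≤ x := by exact_mod_cast hx
  have f1 : (⌊(x : ℝ) * J⌋₊ : ℝ) ≤ x * J := Nat.floor_le (by positivity)
  have f2 := Nat.lt_floor_add_one ((x : ℝ) * J)
  have f3 : (⌊q * J⌋₊ : ℝ) ≤ q * J := Nat.floor_le (by positivity)
  have f4 : (⌊(ρ.rot x - k) * J⌋₊ : ℝ) ≤ ρ.rot x * J := by
    have h1 : (ρ.rot x - k) * J ≤ ρ.rot x * J := mul_le_mul_of_nonneg_right (by linarith only [hk]) hJ
    exact (Nat.cast_le.2 (Nat.floor_le_floor h1)).trans (Nat.floor_le (by positivity))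
  have f5 := Nat.lt_floor_add_one (p * J)
  have f6 : (x : ℝ) * J ≤ p * J := mul_le_mul_of_nonneg_right hxp hJ
  have f7 : (0 : ℝ) ≤ ⌊q * J⌋₊ := Nat.cast_nonneg _
  have f8 : (0 : ℝ) ≤ ⌊(ρ.rot x - k) * J⌋₊ := Nat.cast_nonneg _
  unfold lr lu
  refine ⟨?_, ?_, ?_, ?_⟩
  · rw [Nat.cast_min]
    refine (min_le_left _ _).trans ?_
    push_cast
    rw [add_mul]
    linarith only [f1, f3]
  · rw [Nat.cast_min]
    refine (min_le_left _ _).trans ?_
    push_cast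
    rw [add_mul, add_mul]
    linarith only [f1, f3, f4]
  · rw [Nat.cast_min]
    refine le_min ?_ (by linarith only [f5, f6])
    push_cast
    linarith only [f2]
  · rw [Nat.cast_min]
    refine le_min ?_ (by linarith only [f5, f6])
    push_cast
    linarith only [f2]

/-- **(F3)** The U-step, from the local statements. -/
theorem uv_core (hA : UVLAStmt) (hB : UVLBStmt) (hCC : UVLCStmt) (hX : LXStmt) {S : PCl 3}
    {a R h₁ : ℝ} {i₀ : Fin 3} {c s₂ : ℝ} {r : ℝ → ℝ} {D : Set ℝ} {σ : ℝ → Row}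
    (hC : Cs S a R h₁ i₀ c s₂ r D σ) {act : ℚ → ℝ} {κ : ℝ} (hact : ActD S i₀ act κ) {p : ℝ}
    (hp0 : 0 < p) (hp1 : p < 1) {w w' : ℚ} (hw0 : 0 < w) (hww : w < w') (hw'1 : (w' : ℝ) < 1)
    (hwp : (w' : ℝ) + (σ 1).rot w' < p) (hrot : (σ 1).rot w' < (σ 1).pi)
    (hth : p < (σ 1).th w) {h : ℝ} (hh : 0 < h) :
    ∃ (v : ℚ) (k : ℝ), w < v ∧ v < w' ∧ 0 < k ∧ k ≤ h ∧
      Clp S (fun J F A => ∀ iu iN : Fin 3, (∀ j : Fin 3, j = i₀ ∨ j = iu ∨ j = iN) →
        ∀ (Λ : Type) (y : F.Ω → Λ) (pl : Λ → Pln),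
        (∀ ω, A ω → Inc i₀ iu iN ⌊(v : ℝ) * J⌋₊ ⌊((σ 1).rot v - k) * J⌋₊ ⌊p * J⌋₊ 2 (pl (y ω))
          (F.t ω) (F.x ω) (F.d ω)) →
        (∃ φ : (Fin 3 → ℤ) × (ℕ × F.ζ) → Λ, ∀ ω, A ω → y ω = φ (Fam.pt F ω)) →
        (∃ ψ : ((Fin 3 → ℝ) × (Fin 3 → ℝ)) × F.ζ × ℕ → Λ, ∀ ω, A ω →
          y ω = ψ (slam F ⌊(v : ℝ) * J⌋₊ ω)) →
        (2 * p - 2 * v - (σ 1).rot v - h) * J * Real.log 2 ≤
          CH (Pool.Agent.H49.Ent.cond F.p A True) (F.X ⌊p * J⌋₊) (fun ω => (y ω, F.W ω))) := by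
  classical
  have hR1 := hC.row 1 one_pos le_rfl hC.D1
  have hw0r : (0 : ℝ) < w := by exact_mod_cast hw0
  have hwwr : (w : ℝ) < w' := by exact_mod_cast hww
  have hw'1' : w' ≤ 1 := by
    have : (w' : ℝ) ≤ 1 := hw'1.le
    exact_mod_cast this
  have hw'0 : 0 ≤ w' := (hw0.trans hww).le
  have rot0 : ∀ x : ℚ, 0 ≤ x → x ≤ 1 → 0 ≤ (σ 1).rot x := fun x h0 h1 =>
    num_nonneg hC.ne (hR1.rot x h0 h1)
  have rot1 : ∀ x : ℚ, 0 ≤ x → x ≤ 1 → (σ 1).rot x ≤ 1 := fun x h0 h1 =>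
    num_le_cap hC.ne zero_le_one (hR1.rot x h0 h1)
  obtain ⟨δ, hδ⟩ : ∃ δ, δ = h / 200 := ⟨_, rfl⟩
  have hδ0 : 0 < δ := by rw [hδ]; positivity
  obtain ⟨v, β, hwv, hvβ, hβw, hd1, hd2⟩ := pick_flat (f := (σ 1).rot) hww
    (fun x h1 h2 => rot0 x (hw0.trans h1).le (h2.le.trans hw'1'))
    (fun x h1 h2 => rot1 x (hw0.trans h1).le (h2.le.trans hw'1')) hδ0
  have hv0 : 0 < v := hw0.trans hwv
  have hvw : v < w' := hvβ.trans hβw
  have hvwr : (v : ℝ) < w' := by exact_mod_cast hvw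
  have hv0r : (0 : ℝ) < v := by exact_mod_cast hv0
  have hrv := rot_window hC.ne hR1 hv0.le hvw.le hw'1'
  have hrβ := rot_window hC.ne hR1 (hv0.trans hvβ).le hβw.le hw'1'
  have hrw0 := rot0 w' hw'0 hw'1'
  have hrv0 := rot0 v hv0.le (hvw.le.trans hw'1')
  have hthv := th_mono hC.ne hC.st le_rfl hR1 w v hw0.le hwv.le (by linarith only [hp1, hwp, hvwr, hrw0])
  obtain ⟨e₀, he1, he2⟩ := exists_rat_btwn (show max (w' : ℝ) (p - δ) < p from
    max_lt (by linarith only [hwp, hrw0]) (by linarith only [hδ0]))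
  have he3 : (w' : ℝ) < e₀ := (le_max_left _ _).trans_lt he1
  have he4 : p - δ < e₀ := (le_max_right _ _).trans_lt he1
  obtain ⟨q, hq0, hqδ, hqe, k₀, hk₀, hpath⟩ := uv_path hA hB hCC hX hC hact hp0 hp1 hv0
    (by linarith only [hrot, hrv]) (by linarith only [hth, hthv]) hvβ hβw
    (by exact_mod_cast he3) he2 hwp hrot hδ0
  have hpi0 : 0 < (σ 1).pi := by linarith only [hrot, hrw0]
  obtain ⟨k, hk⟩ : ∃ k, k = min (min k₀ h) (σ 1).pi := ⟨_, rfl⟩
  have hk0 : 0 < k := by rw [hk]; exact lt_min (lt_min hk₀ hh) hpi0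
  have hkk : k ≤ k₀ := by rw [hk]; exact (min_le_left _ _).trans (min_le_left _ _)
  have hkh : k ≤ h := by rw [hk]; exact (min_le_left _ _).trans (min_le_right _ _)
  have hkp : k ≤ (σ 1).pi := by rw [hk]; exact min_le_right _ _
  refine ⟨v, k, hwv, hvw, hk0, hkh, ?_⟩
  obtain ⟨θ, hθ⟩ : ∃ θ, θ = h / 4 := ⟨_, rfl⟩
  have hθ0 : 0 < θ := by rw [hθ]; positivity
  have c1 := (hpath k hk0 hkk 2 (by norm_num)).ev (ϖ := θ / 2) (by positivity)
  have c2 := (own_part hC hk0 hkp).ev hθ0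
  have c3 : Clp S (fun J F A => 0 < Pe F.p A) :=
    Clp.base 1 one_pos 0 fun J _ F A hA => lt_of_lt_of_le (Real.exp_pos _) (hC.st _ _ _ _ hA).2.2.2
  obtain ⟨J₀, hJ₀⟩ := exists_nat_gt (40 / h)
  refine Clp.mono (J₂ := J₀) ((c1.and c2).and c3) ?_
  rintro J hJ F A ⟨⟨d1, d2⟩, hPA⟩ iu iN hi Λ y pl hinc ⟨φ, hφ⟩ ⟨ψ, hψ⟩
  have hJr : 40 / h < J := hJ₀.trans_le (by exact_mod_cast hJ)
  have hJh : 40 < J * h := by rwa [div_lt_iff₀ hh] at hJr
  have hJ0 : (0 : ℝ) ≤ J := Nat.cast_nonneg J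
  have hl2 : 0 < Real.log 2 := Real.log_pos (by norm_num)
  have hqA := cond_nonneg F.isLaw.nonneg A True
  obtain ⟨L, hL⟩ : ∃ L, L = (2 * p - 2 * v - (σ 1).rot v - h / 2) * J * Real.log 2 := ⟨_, rfl⟩
  by_cases hneg : L ≤ 0
  · refine le_trans ?_ (CH_nonneg hqA _ _)
    refine le_trans ?_ hneg
    rw [hL]
    exact mul_le_mul_of_nonneg_right (mul_le_mul_of_nonneg_right (by linarith only [hh]) hJ0) hl2.le
  push Not at hneg
  have hς : Function.Injective ![i₀, iu, iN] := by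
    rw [Finite.injective_iff_surjective]
    intro j
    rcases hi j with h | h | h
    · exact ⟨0, h.symm⟩
    · exact ⟨1, h.symm⟩
    · exact ⟨2, h.symm⟩
  have key := Pool.K2S.exhaust F.isLaw hPA (F.X ⌊p * J⌋₊) (fun ω => (y ω, F.W ω)) hθ0
    (h := L) hneg.le (by
      intro G hG hPG
      obtain ⟨B, hB, hPB, hown⟩ := d2 G hG hPG
      have hPG0 : 0 < Pe F.p G := lt_of_lt_of_le (mul_pos hθ0 hPA) hPG
      have hPB0 : 0 < Pe F.p B := lt_of_lt_of_le (by positivity) hPB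
      have hBA : Sub B A := fun ω hω => hG _ (hB _ hω)
      refine ⟨B, hB, hPB0, ?_⟩
      obtain ⟨al, hal⟩ := hown ![i₀, iu, iN] rfl
      have hκ : PkL F B ![i₀, iu, iN] ⌊(v : ℝ) * J⌋₊ ⌊((σ 1).rot v - k) * J⌋₊ ⌊p * J⌋₊ 2 y pl :=
        ⟨fun ω hω => hinc ω (hBA _ hω), ⟨φ, fun ω hω => hφ ω (hBA _ hω)⟩,
          ψ, fun ω hω => hψ ω (hBA _ hω)⟩
      have hPB' : θ / 2 * Pe F.p A ≤ Pe F.p B := by
        refine le_trans ?_ hPB
        linarith only [hPG]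
      have hns : NSt F B ![i₀, iu, iN] ⌊(p - v - k) * J⌋₊ ⌊(p - v - k) * J⌋₊ 2 y pl := by
        refine nst_of_inc (by norm_num) le_rfl hκ ?_
        by_cases hneg' : (p - v - k) * J ≤ 0
        · rw [Nat.floor_of_nonpos hneg', add_zero]
          refine Nat.floor_le_floor (mul_le_mul_of_nonneg_right ?_ hJ0)
          linarith only [hvwr, he3, hq0, hqe]
        · push Not at hneg'
          refine Nat.le_floor ?_
          push_cast
          have f1 : (⌊(v : ℝ) * J⌋₊ : ℝ) ≤ v * J := Nat.floor_le (by positivity)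
          have f2 : (⌊(p - v - k) * J⌋₊ : ℝ) ≤ (p - v - k) * J := Nat.floor_le hneg'.le
          have f3 : p * J = v * J + (p - v - k) * J + k * J := by ring
          have f4 : 0 ≤ k * J := mul_nonneg hk0.le hJ0
          linarith only [f1, f2, f4]
      have k1 := d1 B hBA hPB' ![i₀, iu, iN] hς rfl Λ y pl al hκ hns hal
      have hlB := isLaw_cond F.isLaw hPB0
      have h0B := hlB.nonneg
      unfold Vd Fam.vdf at k1
      have k2 : CH (Pool.Agent.H49.Ent.cond F.p B True) (F.X ⌊p * J⌋₊)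
          (fun ω => (F.sbx ![i₀, iu, iN] (lr p q β J) (lu (σ 1) p q k β J) ⌊p * J⌋₊
            (ald (ld (σ 1) p q k β J) al) (fun ω => -(pl (y ω)).s) (fun ω => -(pl (y ω)).c) ω,
            (Uni.dg (ld (σ 1) p q k β J) al ω, (y ω, F.W ω)))) ≤
          CH (Pool.Agent.H49.Ent.cond F.p B True) (F.X ⌊p * J⌋₊) (fun ω => (y ω, F.W ω)) :=
        CH_mono_cond h0B fun _ _ _ _ e => (Prod.ext_iff.mp (Prod.ext_iff.mp e).2).2
      have k3 := CH_nonneg h0B (F.X ⌊p * J⌋₊)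
        (fun ω => (F.sbx ![i₀, iu, iN] (lr p q e₀ J) (lu (σ 1) p q k e₀ J) ⌊p * J⌋₊
            (ald (ld (σ 1) p q k e₀ J) al) (fun ω => -(pl (y ω)).s) (fun ω => -(pl (y ω)).c) ω,
            (Uni.dg (ld (σ 1) p q k e₀ J) al ω, (y ω, F.W ω))))
      have hβ0 : 0 ≤ β := (hv0.trans hvβ).le
      have hβp : (β : ℝ) ≤ p := by
        have : (β : ℝ) < w' := by exact_mod_cast hβw
        linarith only [he3, hq0, hqe, this]
      have hβ1 : β ≤ 1 := hβw.le.trans hw'1'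
      have he0 : 0 ≤ e₀ := by
        have : (0 : ℝ) ≤ e₀ := by linarith only [hw0r, hwwr, he3]
        exact_mod_cast this
      have he01 : e₀ ≤ 1 := by
        have : (e₀ : ℝ) ≤ 1 := by linarith only [hp1, hq0, hqe]
        exact_mod_cast this
      have l1 := lv_bd (σ 1) (k := k) hβ0 hq0.le (rot0 β hβ0 hβ1) hk0.le hβp J
      have l2 := lv_bd (σ 1) (k := k) he0 hq0.le (rot0 e₀ he0 he01) hk0.le he2.le J
      have e1 : (((⌊p * J⌋₊ : ℝ) - lr p q β J) + ((⌊p * J⌋₊ : ℝ) - lu (σ 1) p q k β J)) *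
          Real.log 2 - (((⌊p * J⌋₊ : ℝ) - lr p q e₀ J) +
          ((⌊p * J⌋₊ : ℝ) - lu (σ 1) p q k e₀ J)) * Real.log 2 =
          ((lr p q e₀ J : ℝ) + lu (σ 1) p q k e₀ J - lr p q β J - lu (σ 1) p q k β J) *
            Real.log 2 := by ring
      have e2 : ((2 * (e₀ : ℝ) - 2 * β - (σ 1).rot β - 2 * q) * J - 2) * Real.log 2 ≤
          ((lr p q e₀ J : ℝ) + lu (σ 1) p q k e₀ J - lr p q β J - lu (σ 1) p q k β J) *
            Real.log 2 := by
        refine mul_le_mul_of_nonneg_right ?_ hl2.le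
        have : (2 * (e₀ : ℝ) - 2 * β - (σ 1).rot β - 2 * q) * J =
          e₀ * J + e₀ * J - (β + q) * J - (β + (σ 1).rot β + q) * J := by ring
        rw [this]
        linarith only [l1, l2, l1.1, l1.2.1, l2.2.2.1, l2.2.2.2]
      have e3 : L ≤ ((2 * (e₀ : ℝ) - 2 * β - (σ 1).rot β - 2 * q) * J - 2) * Real.log 2 -
          (53 * δ + 4 * q) * J * Real.log 2 := by
        have e4 : ((2 * (e₀ : ℝ) - 2 * β - (σ 1).rot β - 2 * q) * J - 2) * Real.log 2 -
          (53 * δ + 4 * q) * J * Real.log 2 =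
          ((2 * (e₀ : ℝ) - 2 * β - (σ 1).rot β - 6 * q - 53 * δ) * J - 2) * Real.log 2 := by
            ring
        rw [e4, hL]
        refine mul_le_mul_of_nonneg_right ?_ hl2.le
        have e5 : (2 * p - 2 * v - (σ 1).rot v - 65 * δ) * J ≤
            (2 * (e₀ : ℝ) - 2 * β - (σ 1).rot β - 6 * q - 53 * δ) * J := by
          refine mul_le_mul_of_nonneg_right ?_ hJ0
          linarith only [hd1, hd2, he4, hq0, hqe]
        have e6 : (2 * p - 2 * v - (σ 1).rot v - h / 2) * J =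
            (2 * p - 2 * v - (σ 1).rot v - 65 * δ) * J + 65 * (J * δ) - J * h / 2 := by ring
        rw [e6]
        have e7 : J * δ = J * h / 200 := by rw [hδ]; ring
        rw [e7]
        linarith only [hp1, hw0r, hwwr, he3, hq0, hqe, hJh, e5]
      linarith only [k1, k2, k3, e2, e3])
  refine le_trans ?_ key
  have hLle : L ≤ 2 * J * Real.log 2 := by
    rw [hL]
    refine mul_le_mul_of_nonneg_right (mul_le_mul_of_nonneg_right ?_ hJ0) hl2.le
    linarith only [hp1, hδ, hv0r, hrv0, he4, hq0, hqe]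
  have e1 : (2 * p - 2 * v - (σ 1).rot v - h) * J * Real.log 2 =
      L - h / 2 * (J * Real.log 2) := by
    rw [hL]
    ring
  rw [e1]
  have e2 : θ * L ≤ θ * (2 * J * Real.log 2) := mul_le_mul_of_nonneg_left hLle hθ0.le
  have e3 : θ * (2 * J * Real.log 2) = h / 2 * (J * Real.log 2) := by
    rw [hθ]
    ring
  have e4 : (1 - θ) * L = L - θ * L := by ring
  linarith only [e2, e3]

/-- **(UVA)** -/
theorem uva_thm : UVAStmt := by
  intro hA hB hCC hX S a R h₁ i₀ c s₂ r D σ hC act κ hact p hp0 hp1 w w' hw0 hww hw'1 hwp hrot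
    hth h hh
  exact uv_core hA hB hCC hX hC hact hp0 hp1 hw0 hww hw'1 hwp hrot hth hh

end Pool.S6V
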