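import Pool.Agent.H51.S6.Loc
import Pool.Agent.H51.S6.Sel2

/-!
# Critical windows
-/

set_option autoImplicit false

namespace Pool.S6C

open Finset Real
open Pool.Agent.H49.Ent Pool.Agent.H32.Dense Pool.STK Pool.KA Pool.KSAT Pool.K2S Pool.PB Pool.KS6
  Pool.Sel51

/-- The critical window is monotone in the row. -/
theorem IsWs.mono {G : ℚ → ℝ} {Q Q' ws ws' : ℝ} (h : IsWs Q G ws) (h' : IsWs Q' G ws')
    (hQ : Q ≤ Q') : ws ≤ ws' := by
  by_contra hcon
  push Not at hcon
  obtain ⟨w, hw1, hw2⟩ := exists_between hcon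
  obtain ⟨e, he, h1⟩ := h.2 w hw2
  obtain ⟨v, h0, -, h2, h3⟩ := h'.1 e he w hw1
  have := h1 v h0 h2.le
  linarith

/-- If the thickness at `w` is larger than `Q`, then the critical window is at most `w`. -/
theorem IsWs.le_of_lt {G : ℚ → ℝ} {Q ws : ℝ} (h : IsWs Q G ws) {q : ℚ} (h0 : 0 ≤ q)
    (hq : Q ≤ G q) : ws ≤ q := by
  by_contra hcon
  push Not at hcon
  obtain ⟨e, he, h1⟩ := h.2 q hcon
  have := h1 q h0 le_rfl
  linarith

theorem IsWs.le_one {G : ℚ → ℝ} {Q ws : ℝ} (h : IsWs Q G ws) : ws ≤ 1 := by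
  by_contra hcon
  push Not at hcon
  obtain ⟨e, he, h1⟩ := h.2 1 hcon
  obtain ⟨v, h0, h2, -, h3⟩ := h.1 e he (ws + 1) (by linarith)
  have := h1 v h0 (by exact_mod_cast h2)
  linarith

/-- The critical window is a Lipschitz function of the row, if the slope of the thickness is at
least one. -/
theorem IsWs.lip {G : ℚ → ℝ} {Q Q' ws ws' : ℝ} (h : IsWs Q G ws) (h' : IsWs Q' G ws')
    (hQ : Q ≤ Q') (hQ1 : Q' ≤ 1)
    (hs : ∀ w w' : ℚ, 0 ≤ w → w ≤ w' → w' ≤ 1 → min 1 (G w + ((w' : ℝ) - w)) ≤ G w') :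
    ws' - ws ≤ Q' - Q := by
  by_contra hcon
  push Not at hcon
  obtain ⟨w, hw1, hw2⟩ := exists_between (show ws + (Q' - Q) < ws' by linarith)
  obtain ⟨e, he, h1⟩ := h'.2 w hw2
  have hws1 := h'.le_one
  obtain ⟨v, h0, h01, h2, h3⟩ := h.1 (e / 2) (by linarith) (w - (Q' - Q)) (by linarith)
  obtain ⟨v', hv1, hv2, hv3⟩ : ∃ v' : ℚ, v ≤ v' ∧ (v : ℝ) + (Q' - Q) - e / 2 ≤ v' ∧
      (v' : ℝ) ≤ v + (Q' - Q) := by
    rcases hQ.lt_or_eq with hlt | heq
    · obtain ⟨v', h4, h5⟩ := exists_rat_btwn (show max (v : ℝ) (v + (Q' - Q) - e / 2) <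
        v + (Q' - Q) from max_lt (by linarith) (by linarith))
      refine ⟨v', ?_, (le_max_right _ _).trans h4.le, h5.le⟩
      have := (le_max_left (v : ℝ) (v + (Q' - Q) - e / 2)).trans h4.le
      exact_mod_cast this
    · exact ⟨v, le_rfl, by rw [heq]; linarith, by rw [heq]; linarith⟩
  have h4 := hs v v' h0 hv1 (by
    have : (v' : ℝ) ≤ 1 := by linarith
    exact_mod_cast this)
  have h5 := h1 v' (h0.trans hv1) (by linarith)
  have h6 : Q' - e ≤ min 1 (G v + ((v' : ℝ) - v)) := le_min (by linarith) (by linarith)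
  linarith

/-- The value of the thickness at the critical window. -/
theorem slp_val {G : ℚ → ℝ} {Q ws v s : ℝ} (h : IsWs Q G ws) (hs : Slp G ws v s)
    (hm : ∀ w w' : ℚ, 0 ≤ w → w ≤ w' → w' ≤ 1 → G w ≤ G w') (h0 : 0 < ws) (h1 : ws < 1) :
    v = Q := by
  obtain ⟨δ, hδ, h2⟩ := hs 1 one_pos
  have hab : 0 < 2 + |s| := by positivity
  have key : ∀ q : ℚ, |(q : ℝ) - ws| < δ → |G q - v| ≤ (1 + |s|) * |(q : ℝ) - ws| := by
    intro q hq
    have e1 := h2 q hq
    have e2 : |G q - v| ≤ |G q - v - s * (q - ws)| + |s * ((q : ℝ) - ws)| := by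
      have := abs_add_le (G q - v - s * (q - ws)) (s * ((q : ℝ) - ws))
      rwa [sub_add_cancel] at this
    rw [abs_mul] at e2
    linarith
  refine le_antisymm ?_ ?_
  · -- below the critical window the thickness is less than `Q`
    by_contra hcon
    push Not at hcon
    obtain ⟨t, ht0, ht⟩ : ∃ t : ℝ, 0 < t ∧ t ≤ δ ∧ t ≤ ws ∧ (1 + |s|) * t ≤ v - Q := by
      refine ⟨min (min δ ws) ((v - Q) / (2 + |s|)), ?_, ?_, ?_, ?_⟩
      · exact lt_min (lt_min hδ h0) (div_pos (by linarith) hab)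
      · exact (min_le_left _ _).trans (min_le_left _ _)
      · exact (min_le_left _ _).trans (min_le_right _ _)
      · have h3 := min_le_right (min δ ws) ((v - Q) / (2 + |s|))
        have h4 : (1 + |s|) * min (min δ ws) ((v - Q) / (2 + |s|)) ≤
            (2 + |s|) * ((v - Q) / (2 + |s|)) :=
          mul_le_mul (by linarith) h3
            (le_min (le_min hδ.le h0.le) (div_nonneg (by linarith) hab.le)) hab.le
        rw [mul_div_cancel₀ _ hab.ne'] at h4
        exact h4
    obtain ⟨q, hq1, hq2⟩ := exists_rat_btwn (show ws - t < ws by linarith)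
    have hq : |(q : ℝ) - ws| < t := by
      rw [abs_lt]
      constructor <;> linarith
    have h3 := key q (lt_of_lt_of_le hq ht.1)
    have h4 : (1 + |s|) * |(q : ℝ) - ws| ≤ (1 + |s|) * t :=
      mul_le_mul_of_nonneg_left hq.le (by positivity)
    obtain ⟨e, he, h5⟩ := h.2 q hq2
    have h6 := h5 q (by
      have : (0 : ℝ) ≤ q := by linarith [ht.2.1]
      exact_mod_cast this) le_rfl
    rw [abs_le] at h3
    linarith [ht.2.2, h3.1]
  · -- above the critical window the thickness is at least `Q`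
    by_contra hcon
    push Not at hcon
    obtain ⟨t, ht0, ht⟩ : ∃ t : ℝ, 0 < t ∧ t ≤ δ ∧ t ≤ 1 - ws ∧ (1 + |s|) * t ≤ (Q - v) / 2 := by
      refine ⟨min (min δ (1 - ws)) ((Q - v) / 2 / (2 + |s|)), ?_, ?_, ?_, ?_⟩
      · exact lt_min (lt_min hδ (by linarith)) (div_pos (by linarith) hab)
      · exact (min_le_left _ _).trans (min_le_left _ _)
      · exact (min_le_left _ _).trans (min_le_right _ _)
      · have h3 := min_le_right (min δ (1 - ws)) ((Q - v) / 2 / (2 + |s|))
        have h4 : (1 + |s|) * min (min δ (1 - ws)) ((Q - v) / 2 / (2 + |s|)) ≤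
            (2 + |s|) * ((Q - v) / 2 / (2 + |s|)) :=
          mul_le_mul (by linarith) h3
            (le_min (le_min hδ.le (by linarith)) (div_nonneg (by linarith) hab.le)) hab.le
        rw [mul_div_cancel₀ _ hab.ne'] at h4
        exact h4
    obtain ⟨q, hq1, hq2⟩ := exists_rat_btwn (show ws < ws + t by linarith)
    have hq : |(q : ℝ) - ws| < t := by
      rw [abs_lt]
      constructor <;> linarith
    have h3 := key q (lt_of_lt_of_le hq ht.1)
    have h4 : (1 + |s|) * |(q : ℝ) - ws| ≤ (1 + |s|) * t :=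
      mul_le_mul_of_nonneg_left hq.le (by positivity)
    obtain ⟨p, hp0, hp1, hp2, hp3⟩ := h.1 ((Q - v) / 4) (by linarith) q hq1
    have h5 := hm p q hp0 (by exact_mod_cast hp2.le) (by
      have : (q : ℝ) ≤ 1 := by linarith [ht.2.1]
      exact_mod_cast this)
    rw [abs_le] at h3
    linarith [ht.2.2, h3.2]

/-- The slope of a function which grows at least with slope one is at least one. -/
theorem slp_ge_one {G : ℚ → ℝ} {x v s : ℝ} (hs : Slp G x v s) (h0 : 0 < x) (h1 : x < 1)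
    (hv : v < 1)
    (hG : ∀ w w' : ℚ, 0 ≤ w → w ≤ w' → w' ≤ 1 → min 1 (G w + ((w' : ℝ) - w)) ≤ G w') :
    1 ≤ s := by
  by_contra hcon
  push Not at hcon
  obtain ⟨δ, hδ, h2⟩ := hs (min ((1 - s) / 8) 1) (lt_min (by linarith) one_pos)
  have hab : 0 < 4 + |s| := by positivity
  obtain ⟨t, ht0, ht⟩ : ∃ t : ℝ, 0 < t ∧ t ≤ δ ∧ t ≤ x ∧ t ≤ 1 - x ∧
      (4 + |s|) * t ≤ (1 - v) / 2 := by
    refine ⟨min (min (min δ x) (1 - x)) ((1 - v) / 2 / (4 + |s|)), ?_, ?_, ?_, ?_, ?_⟩
    · exact lt_min (lt_min (lt_min hδ h0) (by linarith)) (div_pos (by linarith) hab)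
    · exact (min_le_left _ _).trans ((min_le_left _ _).trans (min_le_left _ _))
    · exact (min_le_left _ _).trans ((min_le_left _ _).trans (min_le_right _ _))
    · exact (min_le_left _ _).trans (min_le_right _ _)
    · have h3 := min_le_right (min (min δ x) (1 - x)) ((1 - v) / 2 / (4 + |s|))
      have h4 := mul_le_mul_of_nonneg_left h3 hab.le
      rwa [mul_div_cancel₀ _ hab.ne'] at h4
  obtain ⟨p, hp1, hp2⟩ := exists_rat_btwn (show x - t < x by linarith)
  obtain ⟨q, hq1, hq2⟩ := exists_rat_btwn (show x + t / 2 < x + t by linarith)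
  have e1 := h2 p (by
    rw [abs_lt]
    constructor <;> linarith [ht.1])
  have e2 := h2 q (by
    rw [abs_lt]
    constructor <;> linarith [ht.1])
  rw [abs_of_neg (show (p : ℝ) - x < 0 by linarith)] at e1
  rw [abs_of_pos (show (0 : ℝ) < q - x by linarith)] at e2
  obtain ⟨ε, hε⟩ : ∃ ε : ℝ, ε = min ((1 - s) / 8) 1 := ⟨_, rfl⟩
  have hε1 : ε ≤ (1 - s) / 8 := by rw [hε]; exact min_le_left _ _
  have hε2 : ε ≤ 1 := by rw [hε]; exact min_le_right _ _
  have hε0 : 0 < ε := by rw [hε]; exact lt_min (by linarith) one_pos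
  rw [← hε] at e1 e2
  rw [abs_le] at e1 e2
  have hp0 : (0 : ℝ) ≤ p := by linarith [ht.2.1]
  have hq1' : (q : ℝ) ≤ 1 := by linarith [ht.2.2.1]
  have h5 := hG p q (by exact_mod_cast hp0) (by
    have : (p : ℝ) ≤ q := by linarith
    exact_mod_cast this) (by exact_mod_cast hq1')
  -- the value at `p` plus the distance is less than one
  have h6 : G p + ((q : ℝ) - p) ≤ 1 := by
    have h7 : G p ≤ v + s * (p - x) + ε * (x - p) := by linarith [e1.2]
    have h8 : s * ((p : ℝ) - x) ≤ |s| * t := by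
      have h9 : s * ((p : ℝ) - x) ≤ |s * ((p : ℝ) - x)| := le_abs_self _
      rw [abs_mul, abs_of_neg (show (p : ℝ) - x < 0 by linarith)] at h9
      exact h9.trans (mul_le_mul_of_nonneg_left (by linarith) (abs_nonneg s))
    have h9 : ε * (x - p) ≤ 1 * t := mul_le_mul hε2 (by linarith) (by linarith) zero_le_one
    have h10 : (q : ℝ) - p ≤ 2 * t := by linarith
    nlinarith [ht.2.2.2]
  rw [min_eq_right h6] at h5
  have h7 : (q : ℝ) - p ≤ s * (q - p) + ε * (q - p) := by
    have e3 := e1.1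
    have e4 := e2.2
    nlinarith
  have h8 : 0 < (q : ℝ) - p := by linarith
  nlinarith

end Pool.S6C
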